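import Pool.Agent.H282R5.PD.Defs
import Pool.Agent.H282R4.PU.Par

/-! Module ChooseA of project PD (helper642, after PU/ChooseA). -/

namespace H282R5.PD

open MeasureTheory
open scoped ENNReal
open H282R3.SQ (USq)
open H282R4.PU (ax al t s tau kap eps phi Z SP Row T1 t_bounds s_bounds)

theorem choose_A {d : ℕ} (hd : 100 ≤ d) {n : ℕ} (hn : 20 * (d : ℝ) ^ 4 ≤ n) {ε : ℝ} (h0 : 0 < ε)
    (h1 : ε < 1) :
    ∃ N M : ℕ, N ≤ n ∧ 4 * (d : ℝ) ^ 4 ≤ n + ε - N ∧ n + ε - N ≤ 9 * (d : ℝ) ^ 4 ∧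
      (n + ε - N) * s d + t d ≤ M ∧ (M : ℝ) ≤ (n + ε - N) * s d + t d + 1 / (d : ℝ) ^ 2 := by
  obtain ⟨ht0, ht1, ht2⟩ := t_bounds hd
  obtain ⟨hs0, hs1, -, hs3⟩ := s_bounds hd
  have hd' : (100 : ℝ) ≤ d := by exact_mod_cast hd
  have hd0 : (0 : ℝ) < d := by linarith
  have hdd : (10000 : ℝ) ≤ (d : ℝ) ^ 2 := by nlinarith
  have hd4 : (10000 : ℝ) * (d : ℝ) ^ 2 ≤ (d : ℝ) ^ 4 := by nlinarith
  have htl : t d ≤ 1 := by
    refine ht1.trans ?_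
    rw [div_le_one (by positivity)]
    linarith
  obtain ⟨x, hx⟩ : ∃ x : ℝ, x = n + ε := ⟨_, rfl⟩
  rw [← hx]
  -- the integer part
  obtain ⟨T, hT⟩ : ∃ T : ℕ, T = ⌊x - 4 * (d : ℝ) ^ 4⌋₊ := ⟨_, rfl⟩
  have hx0 : 0 ≤ x - 4 * (d : ℝ) ^ 4 := by rw [hx]; nlinarith
  have hT1 : (T : ℝ) ≤ x - 4 * (d : ℝ) ^ 4 := by rw [hT]; exact Nat.floor_le hx0
  have hT2 : x - 4 * (d : ℝ) ^ 4 < T + 1 := by rw [hT]; exact Nat.lt_floor_add_one _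
  obtain ⟨e, he⟩ : ∃ e : ℝ, e = s d - 1 := ⟨_, rfl⟩
  have he0 : 0 < e := by rw [he]; linarith
  have he1 : t d ^ 2 / 4 ≤ e := by rw [he]; linarith
  have he2 : e ≤ t d ^ 2 / 2 := by rw [he]; linarith
  obtain ⟨b, hb⟩ : ∃ b : ℝ, b = (x - T) * s d + t d := ⟨_, rfl⟩
  have hb0 : 0 ≤ b := by
    rw [hb]
    have : 0 ≤ x - T := by nlinarith
    nlinarith
  obtain ⟨m0, hm0⟩ : ∃ m0 : ℕ, m0 = ⌊b⌋₊ := ⟨_, rfl⟩
  have hm1 : (m0 : ℝ) ≤ b := by rw [hm0]; exact Nat.floor_le hb0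
  have hm2 : b < m0 + 1 := by rw [hm0]; exact Nat.lt_floor_add_one _
  obtain ⟨j, hj⟩ : ∃ j : ℕ, j = ⌊(1 - (b - m0)) / e⌋₊ := ⟨_, rfl⟩
  have hf0 : 0 ≤ (1 - (b - m0)) / e := div_nonneg (by linarith) he0.le
  have hj1 : (j : ℝ) ≤ (1 - (b - m0)) / e := by rw [hj]; exact Nat.floor_le hf0
  have hj2 : (1 - (b - m0)) / e < j + 1 := by rw [hj]; exact Nat.lt_floor_add_one _
  have hj3 : j * e ≤ 1 - (b - m0) := by rwa [le_div_iff₀ he0] at hj1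
  have hj4 : 1 - (b - m0) < j * e + e := by
    rw [div_lt_iff₀ he0] at hj2
    linarith
  -- upper bound for `j`
  have hj5 : (j : ℝ) ≤ 4 * ((d : ℝ) ^ 2 + 2) ^ 2 := by
    have h1 : (j : ℝ) * e ≤ 1 := by linarith
    by_contra hcon
    push Not at hcon
    have h2 : (4 * ((d : ℝ) ^ 2 + 2) ^ 2) * e < j * e := mul_lt_mul_of_pos_right hcon he0
    have h3 : 1 ≤ 4 * ((d : ℝ) ^ 2 + 2) ^ 2 * e := by
      have h4 : 4 * ((d : ℝ) ^ 2 + 2) ^ 2 * (t d ^ 2 / 4) = (t d * ((d : ℝ) ^ 2 + 2)) ^ 2 := by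
        ring
      rw [ht2, one_pow] at h4
      have h5 : 4 * ((d : ℝ) ^ 2 + 2) ^ 2 * (t d ^ 2 / 4) ≤ 4 * ((d : ℝ) ^ 2 + 2) ^ 2 * e :=
        mul_le_mul_of_nonneg_left he1 (by positivity)
      linarith
    linarith
  have hexp : 4 * ((d : ℝ) ^ 2 + 2) ^ 2 = 4 * (d : ℝ) ^ 4 + 16 * (d : ℝ) ^ 2 + 16 := by ring
  rw [hexp] at hj5
  have hjT : j ≤ T := by
    have : (j : ℝ) ≤ T := by linarith
    exact_mod_cast this
  have hjn : (0 : ℝ) ≤ j := Nat.cast_nonneg j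
  refine ⟨T - j, m0 + j + 1, ?_, ?_, ?_, ?_, ?_⟩
  · have h2 : (T : ℝ) ≤ n := by nlinarith
    have h3 : T ≤ n := by exact_mod_cast h2
    omega
  · rw [Nat.cast_sub hjT]
    linarith
  · rw [Nat.cast_sub hjT]
    linarith
  · rw [Nat.cast_sub hjT]
    push_cast
    have h1 : (x - ((T : ℝ) - j)) * s d + t d = b + j + j * e := by
      rw [hb, he]
      ring
    rw [h1]
    linarith
  · rw [Nat.cast_sub hjT]
    push_cast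
    have h1 : (x - ((T : ℝ) - j)) * s d + t d = b + j + j * e := by
      rw [hb, he]
      ring
    rw [h1]
    have h2 : e ≤ 1 / (d : ℝ) ^ 2 := by
      have h3 : t d ^ 2 / 2 ≤ t d := by nlinarith
      linarith
    linarith

end H282R5.PD
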