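import Pool.Agent.H282R5.PD.Defs
import Pool.Agent.H282R4.PU.Par

/-!
Module Par2 of project PD: bounds for the parameters.
-/

namespace H282R5.PD

open MeasureTheory
open scoped ENNReal
open H282R3.SQ (USq)
open H282R4.PU (ax al t s tau kap eps phi Z SP Row T1)

theorem Par2_D {d : ℕ} (hd : 100 ≤ d) : (100 : ℝ) ≤ d := by exact_mod_cast hd

theorem Par2_eps_pos {d : ℕ} (hd : 100 ≤ d) {q : ℕ} (hq : q ≤ d) : 0 < eps d q := by
  have hD := Par2_D hd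
  have h := (H282R4.PU.eps_bounds hd hq).2.2.1
  have h2 : (0 : ℝ) < 1 / (5 * (d : ℝ) ^ 2) := by positivity
  linarith

theorem Par2_aa_nonneg {d : ℕ} (hd : 100 ≤ d) (i : ℕ) : 0 ≤ aa d i := by
  have hD := Par2_D hd
  have ht := (H282R4.PU.t_bounds hd).1
  unfold aa
  positivity

theorem Par2_aa_ge {d : ℕ} (hd : 100 ≤ d) (i : ℕ) : 1 / (d : ℝ) ≤ aa d i := by
  have hD := Par2_D hd
  have ht := (H282R4.PU.t_bounds hd).1
  unfold aa
  have : 0 ≤ t d * i * d := by positivity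
  linarith

theorem r_bounds {d : ℕ} (hd : 100 ≤ d) {q i : ℕ} (hq : q ≤ d) :
    aa d i - eps d q ≤ r d q i * eps d q ∧ r d q i * eps d q ≤ aa d i := by
  have he := Par2_eps_pos hd hq
  have ha := Par2_aa_nonneg hd i
  constructor
  · have h2 : aa d i / eps d q < (r d q i : ℝ) + 1 := Nat.lt_floor_add_one _
    rw [div_lt_iff₀ he] at h2
    linarith
  · have h1 : (r d q i : ℝ) ≤ aa d i / eps d q := Nat.floor_le (by positivity)
    rwa [le_div_iff₀ he] at h1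

theorem Par2_aa_mono {d : ℕ} (hd : 100 ≤ d) {i i' : ℕ} (hi : i ≤ i') : aa d i ≤ aa d i' := by
  have hD := Par2_D hd
  have ht := (H282R4.PU.t_bounds hd).1
  have hi' : (i : ℝ) ≤ i' := by exact_mod_cast hi
  unfold aa
  gcongr

theorem r_mono {d : ℕ} (hd : 100 ≤ d) {q q' i i' : ℕ} (h : q ≤ q') (hq : q' ≤ d) (hi : i ≤ i') :
    r d q i ≤ r d q' i' := by
  have he' := Par2_eps_pos hd hq
  have h1 := H282R4.PU.eps_anti hd h hq
  have h2 := Par2_aa_mono hd hi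
  have h3 := Par2_aa_nonneg hd i'
  unfold r
  apply Nat.floor_mono
  exact div_le_div₀ h3 h2 he' h1

theorem Par2_aa_le {d : ℕ} (hd : 100 ≤ d) {i : ℕ} (hi : i < d) : aa d i ≤ 1 + 1 / d := by
  have hD := Par2_D hd
  obtain ⟨ht, _, ht1⟩ := H282R4.PU.t_bounds hd
  have hi' : (i : ℝ) ≤ d := by exact_mod_cast hi.le
  unfold aa
  have h1 : t d * i * d ≤ t d * d * d := by gcongr
  have h3 : t d * d * d ≤ 1 := by
    rw [← ht1]
    nlinarith
  linarith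

theorem Par2_r_le_of {d : ℕ} (hd : 100 ≤ d) {q i : ℕ} (hq : q ≤ d) (x : ℝ) (N : ℕ)
    (h : aa d i ≤ x) (hN : x * (5 * (d : ℝ) ^ 2) ≤ N) : r d q i ≤ N := by
  have hD := Par2_D hd
  have he := Par2_eps_pos hd hq
  have h2 := (H282R4.PU.eps_bounds hd hq).2.2.1
  unfold r
  apply Nat.floor_le_of_le
  rw [div_le_iff₀ he]
  have h3 : (N : ℝ) * (1 / (5 * (d : ℝ) ^ 2)) ≤ N * eps d q :=
    mul_le_mul_of_nonneg_left h2 (Nat.cast_nonneg N)
  have h4 : x * (5 * (d : ℝ) ^ 2) * (1 / (5 * (d : ℝ) ^ 2)) ≤ N * (1 / (5 * (d : ℝ) ^ 2)) :=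
    mul_le_mul_of_nonneg_right hN (by positivity)
  have h5 : x * (5 * (d : ℝ) ^ 2) * (1 / (5 * (d : ℝ) ^ 2)) = x := by
    field_simp
  linarith

theorem Par2_le_r_of {d : ℕ} (hd : 100 ≤ d) {q i : ℕ} (hq : q ≤ d) (N : ℕ)
    (h : (N : ℝ) * (1 / (2 * (d : ℝ) ^ 2)) ≤ aa d i) : N ≤ r d q i := by
  have hD := Par2_D hd
  have he := Par2_eps_pos hd hq
  have h2 := (H282R4.PU.eps_bounds hd hq).2.2.2
  unfold r
  apply Nat.le_floor
  rw [le_div_iff₀ he]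
  have h3 : (N : ℝ) * eps d q ≤ N * (1 / (2 * (d : ℝ) ^ 2)) :=
    mul_le_mul_of_nonneg_left h2 (Nat.cast_nonneg N)
  linarith

theorem r_le {d : ℕ} (hd : 100 ≤ d) {q i : ℕ} (hq : q ≤ d) (hi : i < d) :
    r d q i ≤ 5 * d ^ 2 + 6 * d := by
  have hD := Par2_D hd
  refine Par2_r_le_of hd hq (1 + 1 / d) _ (Par2_aa_le hd hi) ?_
  have h1 : (1 + 1 / (d : ℝ)) * (5 * (d : ℝ) ^ 2) = 5 * (d : ℝ) ^ 2 + 5 * d := by
    field_simp
  rw [h1]
  push_cast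
  linarith

theorem r_ge {d : ℕ} (hd : 100 ≤ d) {q i : ℕ} (hq : q ≤ d) : 2 * d - 1 ≤ r d q i := by
  have hD := Par2_D hd
  refine (Nat.sub_le _ _).trans (Par2_le_r_of hd hq (2 * d) ?_)
  refine le_trans (le_of_eq ?_) (Par2_aa_ge hd i)
  push_cast
  field_simp

theorem r_zero_le {d : ℕ} (hd : 100 ≤ d) {q : ℕ} (hq : q ≤ d) : r d q 0 ≤ 6 * d := by
  have hD := Par2_D hd
  refine Par2_r_le_of hd hq (1 / d) _ (by simp [aa]) ?_
  have h1 : (1 / (d : ℝ)) * (5 * (d : ℝ) ^ 2) = 5 * d := by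
    field_simp
  rw [h1]
  push_cast
  linarith

theorem r_last_ge {d : ℕ} (hd : 100 ≤ d) {q : ℕ} (hq : q ≤ d) : d ^ 2 ≤ r d q (d - 1) := by
  have hD := Par2_D hd
  obtain ⟨ht, ht2, ht1⟩ := H282R4.PU.t_bounds hd
  refine Par2_le_r_of hd hq (d ^ 2) ?_
  have h4 : ((d ^ 2 : ℕ) : ℝ) * (1 / (2 * (d : ℝ) ^ 2)) = 1 / 2 := by
    push_cast
    field_simp
  rw [h4]
  have h5 : ((d - 1 : ℕ) : ℝ) = d - 1 := by
    rw [Nat.cast_sub (by omega)]
    push_cast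
    ring
  unfold aa
  rw [h5]
  have h6 : 0 < 1 / (d : ℝ) := by positivity
  have h7 : t d * ((d : ℝ) - 1) * d = t d * ((d : ℝ) ^ 2 + 2) - t d * (d + 2) := by ring
  have h8 : t d * ((d : ℝ) + 2) ≤ 1 / 2 := by
    have h9 : ((d : ℝ) + 2) ≤ ((d : ℝ) ^ 2 + 2) * (1 / 2) := by nlinarith
    calc t d * ((d : ℝ) + 2) ≤ t d * (((d : ℝ) ^ 2 + 2) * (1 / 2)) :=
          mul_le_mul_of_nonneg_left h9 ht.le
      _ = t d * ((d : ℝ) ^ 2 + 2) * (1 / 2) := by ring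
      _ = 1 / 2 := by rw [ht1]; ring
  rw [h7, ht1]
  linarith

theorem top_bounds {d : ℕ} (hd : 100 ≤ d) {q : ℕ} (hq : q ≤ d) :
    d + 3 ≤ top d q ∧ top d q ≤ 6 * d ^ 2 := by
  constructor
  · have h9 := r_last_ge hd hq
    have h10 : d + 3 ≤ d ^ 2 := by nlinarith
    unfold top
    omega
  · have h1 := r_le hd hq (i := d - 1) (by omega)
    unfold top
    nlinarith

theorem top_mono {d : ℕ} (hd : 100 ≤ d) {q q' : ℕ} (h : q ≤ q') (hq : q' ≤ d) :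
    top d q ≤ top d q' := by
  have h1 := r_mono hd h hq (le_refl (d - 1))
  unfold top
  omega

theorem Par2_step {d : ℕ} (hd : 100 ≤ d) {q : ℕ} (hq : q ≤ d) :
    (d : ℝ) ^ 2 - 16 / d ≤ (d : ℝ) ^ 2 * kap d q + gam d ∧
    (d : ℝ) ^ 2 * kap d q + gam d ≤ (d : ℝ) ^ 2 + 1 / 2 - 16 / d := by
  have hD := Par2_D hd
  obtain ⟨h1, h2, _⟩ := H282R4.PU.kap_bounds hd hq
  unfold gam
  have h3 : (-16 : ℝ) / d = -(16 / d) := by ring
  rw [h3]
  have h4 : (d : ℝ) ^ 2 * 1 ≤ (d : ℝ) ^ 2 * kap d q := mul_le_mul_of_nonneg_left h1.le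
    (by positivity)
  have h5 : (d : ℝ) ^ 2 * kap d q ≤ (d : ℝ) ^ 2 * (1 + 1 / (2 * (d : ℝ) ^ 2)) :=
    mul_le_mul_of_nonneg_left h2 (by positivity)
  have h6 : (d : ℝ) ^ 2 * (1 + 1 / (2 * (d : ℝ) ^ 2)) = (d : ℝ) ^ 2 + 1 / 2 := by
    field_simp
  constructor <;> linarith

theorem Par2_16 {d : ℕ} (hd : 100 ≤ d) : 0 < 16 / (d : ℝ) ∧ 16 / (d : ℝ) ≤ 16 / 100 := by
  have hD := Par2_D hd
  refine ⟨by positivity, ?_⟩
  exact div_le_div_of_nonneg_left (by norm_num) (by norm_num) hD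

theorem Par2_B0 {d : ℕ} (hd : 100 ≤ d) : B d 0 = 6 * d + 12 / d := by
  have hD := Par2_D hd
  show 6 / ((d : ℝ) * t d) = 6 * d + 12 / d
  unfold H282R4.PU.t
  field_simp
  ring

theorem Par2_Bsucc (d q : ℕ) : B d (q + 1) = B d q + ((d : ℝ) ^ 2 * kap d q + gam d) := by
  show B d q + (d : ℝ) ^ 2 * kap d q + gam d = _
  ring

theorem Par2_B {d : ℕ} (hd : 100 ≤ d) {q : ℕ} (hq : q ≤ d) :
    6 * d + 12 / d + (q : ℝ) * ((d : ℝ) ^ 2 - 16 / d) ≤ B d q ∧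
    B d q ≤ 6 * d + 12 / d + q * ((d : ℝ) ^ 2 + 1 / 2 - 16 / d) := by
  induction q with
  | zero => simp [Par2_B0 hd]
  | succ q ih =>
    obtain ⟨h1, h2⟩ := ih (by omega)
    obtain ⟨h3, h4⟩ := Par2_step hd (q := q) (by omega)
    rw [Par2_Bsucc]
    push_cast
    constructor
    · linarith
    · linarith

theorem B_bounds {d : ℕ} (hd : 100 ≤ d) {q : ℕ} (hq : q ≤ d) :
    (q : ℝ) * d ^ 2 + 5 * d ≤ B d q ∧ B d q ≤ q * ((d : ℝ) ^ 2 + 1 / 2) + 7 * d := by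
  have hD := Par2_D hd
  obtain ⟨h1, h2⟩ := Par2_B hd hq
  obtain ⟨h3, h4⟩ := Par2_16 hd
  have hq' : (q : ℝ) ≤ d := by exact_mod_cast hq
  have hq0 : (0 : ℝ) ≤ q := Nat.cast_nonneg q
  have h5 : (q : ℝ) * (16 / d) ≤ 16 := by
    calc (q : ℝ) * (16 / d) ≤ d * (16 / d) := mul_le_mul_of_nonneg_right hq' h3.le
      _ = 16 := by field_simp
  have h6 : 0 ≤ (q : ℝ) * (16 / d) := by positivity
  have h7 : 0 < 12 / (d : ℝ) := by positivity
  have h8 : 12 / (d : ℝ) ≤ 1 := by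
    rw [div_le_one (by linarith)]
    linarith
  constructor
  · nlinarith
  · nlinarith

theorem B_diff {d : ℕ} (hd : 100 ≤ d) {q q' : ℕ} (h : q ≤ q') (hq : q' ≤ d) :
    ((q' : ℝ) - q) * ((d : ℝ) ^ 2 - 1) ≤ B d q' - B d q := by
  obtain ⟨h6, h7⟩ := Par2_16 hd
  induction q', h using Nat.le_induction with
  | base => simp
  | succ q' h ih =>
    have h1 := ih (by omega)
    obtain ⟨h3, h4⟩ := Par2_step hd (q := q') (by omega)
    rw [Par2_Bsucc]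
    push_cast
    linarith

theorem Z_bounds {d : ℕ} (hd : 100 ≤ d) :
    B d d + 2 * (d : ℝ) ^ 2 ≤ Z d ∧ Z d ≤ B d d + 4 * (d : ℝ) ^ 2 ∧ (d : ℝ) ^ 3 ≤ Z d ∧
    Z d ≤ 2 * (d : ℝ) ^ 3 ∧ t d * Z d = ((d : ℝ) + 3) * s d := by
  have hD := Par2_D hd
  obtain ⟨ht, ht2, ht1⟩ := H282R4.PU.t_bounds hd
  obtain ⟨hs1, hs2, _, _⟩ := H282R4.PU.s_bounds hd
  obtain ⟨hB1, hB2⟩ := B_bounds hd (le_refl d)
  have hZ : Z d = ((d : ℝ) + 3) * s d * ((d : ℝ) ^ 2 + 2) := by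
    unfold H282R4.PU.Z
    rw [div_eq_iff ht.ne', mul_assoc, mul_comm ((d : ℝ) ^ 2 + 2), ht1, mul_one]
  have hZ1 : (d : ℝ) ^ 3 + 3 * (d : ℝ) ^ 2 + 2 * d + 6 ≤ Z d := by
    rw [hZ]
    have : ((d : ℝ) + 3) * 1 * ((d : ℝ) ^ 2 + 2) ≤ ((d : ℝ) + 3) * s d * ((d : ℝ) ^ 2 + 2) := by
      gcongr
    nlinarith
  have hZ2 : Z d ≤ (d : ℝ) ^ 3 + 3 * (d : ℝ) ^ 2 + 2 * d + 7 := by
    rw [hZ]
    have h1 : ((d : ℝ) + 3) * s d * ((d : ℝ) ^ 2 + 2) ≤
        ((d : ℝ) + 3) * (1 + t d ^ 2 / 2) * ((d : ℝ) ^ 2 + 2) := by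
      gcongr
    have h2 : ((d : ℝ) + 3) * (1 + t d ^ 2 / 2) * ((d : ℝ) ^ 2 + 2) =
        ((d : ℝ) + 3) * ((d : ℝ) ^ 2 + 2) + ((d : ℝ) + 3) * t d *
          (t d * ((d : ℝ) ^ 2 + 2)) / 2 := by ring
    have h3 : ((d : ℝ) + 3) * t d ≤ 2 := by
      have h4 : ((d : ℝ) + 3) * t d ≤ ((d : ℝ) ^ 2 + 2) * t d := by
        apply mul_le_mul_of_nonneg_right _ ht.le
        nlinarith
      nlinarith
    rw [h2, ht1] at h1
    nlinarith
  have hBu : B d d ≤ (d : ℝ) ^ 3 + d / 2 + 7 * d := by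
    have : (d : ℝ) * ((d : ℝ) ^ 2 + 1 / 2) = (d : ℝ) ^ 3 + d / 2 := by ring
    linarith
  have hBl : (d : ℝ) ^ 3 + 5 * d ≤ B d d := by
    have : (d : ℝ) * (d : ℝ) ^ 2 = (d : ℝ) ^ 3 := by ring
    linarith
  have hD3 : 100 * (d : ℝ) ^ 2 ≤ (d : ℝ) ^ 3 := by nlinarith [sq_nonneg (d : ℝ)]
  have hD2 : 100 * (d : ℝ) ≤ (d : ℝ) ^ 2 := by nlinarith
  refine ⟨by linarith, by linarith, by nlinarith, by linarith, ?_⟩
  unfold H282R4.PU.Z
  field_simp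

theorem cc_bounds {d : ℕ} (hd : 100 ≤ d) {q : ℕ} (hq : q ≤ d) :
    -6 / d ≤ cc d q ∧ cc d q ≤ -3 / d := by
  have hD := Par2_D hd
  obtain ⟨ht, ht2, ht1⟩ := H282R4.PU.t_bounds hd
  obtain ⟨hs1, hs2, _, _⟩ := H282R4.PU.s_bounds hd
  obtain ⟨h16, h16'⟩ := Par2_16 hd
  have hstep : ∀ q, q ≤ d → 0 ≤ cc d (q + 1) - cc d q ∧ cc d (q + 1) - cc d q ≤ 3 * t d := by
    intro q hq
    obtain ⟨h3, h4⟩ := Par2_step hd hq
    have h5 : cc d (q + 1) - cc d q = s d - t d * ((d : ℝ) ^ 2 * kap d q + gam d) := by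
      unfold cc
      rw [Par2_Bsucc]
      push_cast
      ring
    rw [h5]
    have h8 : t d * ((d : ℝ) ^ 2 * kap d q + gam d) ≤ t d * ((d : ℝ) ^ 2 + 2) :=
      mul_le_mul_of_nonneg_left (by linarith) ht.le
    have h9 : t d * ((d : ℝ) ^ 2 - 16 / 100) ≤ t d * ((d : ℝ) ^ 2 * kap d q + gam d) :=
      mul_le_mul_of_nonneg_left (by linarith) ht.le
    have h10 : t d ≤ 1 / 100 := by
      refine ht2.trans ?_
      rw [div_le_div_iff₀ (by positivity) (by norm_num)]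
      nlinarith
    constructor
    · linarith
    · have h11 : t d ^ 2 / 2 ≤ t d * (1 / 100) := by nlinarith
      nlinarith
  have h0 : cc d 0 = -6 / d := by
    unfold cc
    show ((0 : ℕ) : ℝ) * s d - t d * (6 / ((d : ℝ) * t d)) = -6 / d
    have ht' := ht.ne'
    push_cast
    field_simp
    ring
  have hind : ∀ q, q ≤ d → -6 / d ≤ cc d q ∧ cc d q ≤ -6 / d + q * (3 * t d) := by
    intro q
    induction q with
    | zero =>
      intro _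
      rw [h0]
      simp
    | succ q ih =>
      intro hq
      obtain ⟨h1, h2⟩ := ih (by omega)
      obtain ⟨h3, h4⟩ := hstep q (by omega)
      push_cast
      constructor <;> linarith
  obtain ⟨h1, h2⟩ := hind q hq
  refine ⟨h1, h2.trans ?_⟩
  have hq' : (q : ℝ) ≤ d := by exact_mod_cast hq
  have h3 : (q : ℝ) * (3 * t d) ≤ 3 / d := by
    calc (q : ℝ) * (3 * t d) ≤ d * (3 * (1 / (d : ℝ) ^ 2)) := by
          gcongr
      _ = 3 / d := by field_simp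
  have h4 : (-3 : ℝ) / d = -6 / d + 3 / d := by ring
  linarith

theorem gg_iff {d : ℕ} (hd : 100 ≤ d) {q : ℕ} (hq : q ≤ d) (ρ i : ℕ) (hi : i < d) :
    i < gg d q ρ ↔ r d q i ≤ ρ := by
  constructor
  · intro h
    by_contra hc
    have h1 : (Finset.range d).filter (fun j => r d q j ≤ ρ) ⊆ Finset.range i := by
      intro j hj
      rw [Finset.mem_filter, Finset.mem_range] at hj
      rw [Finset.mem_range]
      by_contra hji
      have h2 := r_mono hd (le_refl q) hq (not_lt.1 hji)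
      omega
    have h3 := Finset.card_le_card h1
    rw [Finset.card_range] at h3
    unfold gg at h
    omega
  · intro h
    have h1 : Finset.range (i + 1) ⊆ (Finset.range d).filter (fun j => r d q j ≤ ρ) := by
      intro j hj
      rw [Finset.mem_range] at hj
      rw [Finset.mem_filter, Finset.mem_range]
      have h2 := r_mono hd (le_refl q) hq (Nat.lt_succ_iff.1 hj)
      exact ⟨by omega, h2.trans h⟩
    have h3 := Finset.card_le_card h1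
    rw [Finset.card_range] at h3
    unfold gg
    omega

theorem gg_le (d q ρ : ℕ) : gg d q ρ ≤ d := by
  unfold gg
  exact (Finset.card_filter_le _ _).trans (Finset.card_range d).le

end H282R5.PD
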