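import Pool.Agent.H282R5.PD.Par2
import Pool.Agent.H282R4.PU.Order

/-!
Module Order (helper911, adapted from helper231's PU/Order): the order of the blocks.
-/

namespace H282R5.PD

open MeasureTheory
open scoped ENNReal
open H282R3.SQ (USq)
open H282R4.PU (ax al t s tau kap eps phi Z SP Row T1 order_d order_t order_s order_kap order_eps
  order_div tau_bounds tau_anti kap_bounds eps_bounds t_bounds)

theorem order_B {d : ℕ} (hd : 100 ≤ d) {q : ℕ} (hq : q ≤ d) : 0 ≤ B d q := by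
  have := (B_bounds hd (q := q) hq).1
  have h3 : (0 : ℝ) ≤ (q : ℝ) * (d : ℝ) ^ 2 + 5 * d := by positivity
  linarith

/-- the difference of the slopes -/
theorem order_diff {d : ℕ} (hd : 100 ≤ d) {p : ℕ} (hp : p + 1 ≤ d) :
    0 ≤ tau d p - tau d (p + 1) ∧ (tau d p - tau d (p + 1)) * (d : ℝ) ^ 2 ≤ 1 / 4 := by
  have hD := order_d hd
  have hDpos : (0 : ℝ) < d := by linarith
  obtain ⟨hT1, hT2⟩ := tau_bounds hd (q := p) (by omega)
  have hU : tau d (p + 1) = tau d p - (d : ℝ) ^ 2 / 4 * tau d p ^ 4 := rfl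
  have hT0 : 0 < tau d p := lt_of_lt_of_le (by positivity) hT1
  have hTd : tau d p * d ≤ 1 := by
    rw [le_div_iff₀ hDpos] at hT2
    exact hT2
  constructor
  · rw [hU]
    have : 0 ≤ (d : ℝ) ^ 2 / 4 * tau d p ^ 4 := by positivity
    linarith
  · rw [hU]
    have h3 : (tau d p * d) ^ 4 ≤ 1 := pow_le_one₀ (by positivity) hTd
    have h4 : (tau d p - (tau d p - (d : ℝ) ^ 2 / 4 * tau d p ^ 4)) * (d : ℝ) ^ 2 =
        (tau d p * d) ^ 4 / 4 := by ring
    rw [h4]
    linarith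

theorem LC_right {d : ℕ} (hd : 100 ≤ d) {q j : ℕ} (h1 : 1 ≤ q) (hq : q < d) (hj : j < d ^ 2)
    (hj1 : 1 ≤ j) : LC0 d q j ⊆ RightOf d (q - 1) := by
  rintro z ⟨hz1, hz2, hz3, hz4⟩
  obtain ⟨p, rfl⟩ : ∃ p, q = p + 1 := ⟨q - 1, by omega⟩
  have hp : p + 1 - 1 = p := by omega
  rw [hp]
  show B d p + (d : ℝ) ^ 2 * kap d p + tau d p * z.2 ≤ z.1
  have hD := order_d hd
  obtain ⟨ht0, ht1, ht2⟩ := order_t hd
  obtain ⟨hs1, hs2⟩ := order_s hd
  obtain ⟨he1, he2, he3, he4, he5⟩ := order_eps hd (q := p + 1) hq.le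
  obtain ⟨hU1, hU2⟩ := tau_bounds hd (q := p + 1) hq.le
  obtain ⟨hk1, hk2, hk3⟩ := order_kap hd (q := p + 1) hq.le
  obtain ⟨hr1, hr2⟩ := r_bounds hd (q := p + 1) (i := j / d) hq.le
  obtain ⟨hc1, hc2⟩ := cc_bounds hd (q := p + 1) hq.le
  have hB : B d (p + 1) = B d p + (d : ℝ) ^ 2 * kap d p + gam d := rfl
  have hDpos : (0 : ℝ) < d := by linarith
  have hgam : gam d * d = -16 := by
    unfold gam
    field_simp
  have hU0 : 0 < tau d (p + 1) := lt_of_lt_of_le (by positivity) hU1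
  obtain ⟨hdiff0, hdiff⟩ := order_diff hd (p := p) hq.le
  have hdE : tau d p - tau d (p + 1) ≤ 5 / 4 * eps d (p + 1) := by
    have h3 : (0 : ℝ) < (d : ℝ) ^ 2 := by positivity
    have h4 : (tau d p - tau d (p + 1)) * (d : ℝ) ^ 2 ≤ (5 / 4 * eps d (p + 1)) * (d : ℝ) ^ 2 := by
      linarith
    exact le_of_mul_le_mul_right h4 h3
  -- the height
  have hB0 : 0 ≤ B d (p + 1) := order_B hd hq.le
  have hj0 : (1 : ℝ) ≤ j := by exact_mod_cast hj1
  have hx : B d (p + 1) ≤ z.1 := by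
    have h3 : 0 ≤ tau d (p + 1) * z.2 := by positivity
    have h4 : 0 ≤ (j : ℝ) * kap d (p + 1) := by positivity
    linarith
  have hcn : cc d (p + 1) ≤ 0 := by
    have : -3 / (d : ℝ) ≤ 0 := div_nonpos_of_nonpos_of_nonneg (by norm_num) hDpos.le
    linarith
  have hz : z.2 ≤ r d (p + 1) (j / d) * s d := by
    have h3 : t d * B d (p + 1) ≤ t d * z.1 := mul_le_mul_of_nonneg_left hx ht0.le
    unfold cc at hcn
    push_cast at hz4 hcn ⊢
    linarith
  -- the threshold
  have haa : aa d (j / d) * d ^ 2 ≤ d + j := by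
    have h3 : (((j / d : ℕ) : ℝ)) * d ≤ j := by exact_mod_cast Nat.div_mul_le_self j d
    have h4 : aa d (j / d) * (d : ℝ) ^ 2 =
        d + (t d * (d : ℝ) ^ 2) * ((((j / d : ℕ) : ℝ)) * d) := by
      unfold aa
      field_simp
    rw [h4]
    have h5 : 0 ≤ (((j / d : ℕ) : ℝ)) * d := by positivity
    nlinarith
  have hfin : (tau d p - tau d (p + 1)) * z.2 ≤ j * kap d (p + 1) + gam d := by
    have h3 : (tau d p - tau d (p + 1)) * z.2 ≤ 5 / 4 * eps d (p + 1) * z.2 :=
      mul_le_mul_of_nonneg_right hdE hz3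
    have h5 : eps d (p + 1) * z.2 ≤ eps d (p + 1) * (r d (p + 1) (j / d) * s d) :=
      mul_le_mul_of_nonneg_left hz he3.le
    have h6 : eps d (p + 1) * (r d (p + 1) (j / d) * s d) ≤ aa d (j / d) * (101 / 100) := by
      have h7 : 0 ≤ r d (p + 1) (j / d) * eps d (p + 1) := by positivity
      calc eps d (p + 1) * (r d (p + 1) (j / d) * s d) =
            (r d (p + 1) (j / d) * eps d (p + 1)) * s d := by ring
        _ ≤ (r d (p + 1) (j / d) * eps d (p + 1)) * (101 / 100) :=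
              mul_le_mul_of_nonneg_left hs2 h7
        _ ≤ _ := mul_le_mul_of_nonneg_right hr2 (by norm_num)
    have h8 : (tau d p - tau d (p + 1)) * z.2 ≤ 127 / 100 * aa d (j / d) := by
      have h9 : 0 ≤ aa d (j / d) := by
        have : 0 ≤ t d := ht0.le
        unfold aa
        positivity
      nlinarith
    have h10 : (tau d p - tau d (p + 1)) * z.2 * d ^ 2 ≤ (j * kap d (p + 1) + gam d) * d ^ 2 := by
      have h11 : (0 : ℝ) ≤ (d : ℝ) ^ 2 := by positivity
      have h12 : (tau d p - tau d (p + 1)) * z.2 * d ^ 2 ≤ 127 / 100 * (d + j) := by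
        calc (tau d p - tau d (p + 1)) * z.2 * d ^ 2 ≤ 127 / 100 * aa d (j / d) * d ^ 2 :=
              mul_le_mul_of_nonneg_right h8 h11
          _ = 127 / 100 * (aa d (j / d) * d ^ 2) := by ring
          _ ≤ _ := mul_le_mul_of_nonneg_left haa (by norm_num)
      have h13 : (j * kap d (p + 1) + gam d) * (d : ℝ) ^ 2 =
          j * kap d (p + 1) * d ^ 2 - 16 * d := by
        have : gam d * (d : ℝ) ^ 2 = (gam d * d) * d := by ring
        rw [add_mul, this, hgam]
        ring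
      have h14 : (j : ℝ) * d ^ 2 ≤ j * kap d (p + 1) * d ^ 2 := by
        have : (j : ℝ) * 1 ≤ j * kap d (p + 1) := mul_le_mul_of_nonneg_left hk1.le (by linarith)
        nlinarith
      have h15 : (j : ℝ) * (100 * d) ≤ j * d ^ 2 := by
        have : (100 : ℝ) * d ≤ d ^ 2 := by nlinarith
        exact mul_le_mul_of_nonneg_left this (by linarith)
      have h16 : (1 : ℝ) * d ≤ j * d := mul_le_mul_of_nonneg_right hj0 hDpos.le
      have h17 : (j : ℝ) * 100 ≤ j * d := mul_le_mul_of_nonneg_left hD (by linarith)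
      rw [h13]
      linarith
    exact le_of_mul_le_mul_right h10 (by positivity)
  have h12 : tau d p * z.2 = tau d (p + 1) * z.2 + (tau d p - tau d (p + 1)) * z.2 := by ring
  rw [h12]
  linarith

theorem right_anti {d : ℕ} (hd : 100 ≤ d) {q q' : ℕ} (h : q ≤ q') (hq : q' < d) {z : ℝ × ℝ}
    (hz : z ∈ RightOf d q') (h0 : 0 ≤ z.2) (h1 : z.2 ≤ 40 * (d : ℝ) ^ 2) : z ∈ RightOf d q := by
  rcases h.eq_or_lt with rfl | hlt
  · exact hz
  have hD := order_d hd
  have hz' : B d q' + (d : ℝ) ^ 2 * kap d q' + tau d q' * z.2 ≤ z.1 := hz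
  show B d q + (d : ℝ) ^ 2 * kap d q + tau d q * z.2 ≤ z.1
  have hB := B_diff hd h hq.le
  obtain ⟨hk1, hk2, -⟩ := order_kap hd (q := q) (by omega)
  obtain ⟨hk1', -, -⟩ := order_kap hd (q := q') hq.le
  obtain ⟨ht1, ht2⟩ := tau_anti hd h hq.le
  have h3 : (0 : ℝ) < (d : ℝ) ^ 2 := by positivity
  have hqq : (1 : ℝ) ≤ (q' : ℝ) - q := by
    have : q + 1 ≤ q' := hlt
    have : ((q + 1 : ℕ) : ℝ) ≤ q' := by exact_mod_cast this
    push_cast at this
    linarith
  have h4 : (tau d q - tau d q') * z.2 ≤ 10 * ((q' : ℝ) - q) := by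
    have h5 : tau d q - tau d q' ≤ ((q' : ℝ) - q) / (4 * (d : ℝ) ^ 2) := by linarith
    calc (tau d q - tau d q') * z.2 ≤ ((q' : ℝ) - q) / (4 * (d : ℝ) ^ 2) * z.2 :=
          mul_le_mul_of_nonneg_right h5 h0
      _ ≤ ((q' : ℝ) - q) / (4 * (d : ℝ) ^ 2) * (40 * (d : ℝ) ^ 2) :=
          mul_le_mul_of_nonneg_left h1 (by positivity)
      _ = 10 * ((q' : ℝ) - q) := by field_simp; norm_num
  have h6 : (d : ℝ) ^ 2 * 1 ≤ (d : ℝ) ^ 2 * kap d q' := mul_le_mul_of_nonneg_left hk1'.le h3.le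
  have h7 : (10000 : ℝ) ≤ (d : ℝ) ^ 2 := by nlinarith
  have h8 : ((q' : ℝ) - q) * 9999 ≤ ((q' : ℝ) - q) * ((d : ℝ) ^ 2 - 1) :=
    mul_le_mul_of_nonneg_left (by linarith) (by linarith)
  have h9 : tau d q * z.2 = tau d q' * z.2 + (tau d q - tau d q') * z.2 := by ring
  rw [h9]
  linarith

theorem LC_left {d : ℕ} (hd : 100 ≤ d) {q j : ℕ} (hq : q < d) (hj : j < d ^ 2) {z : ℝ × ℝ}
    (hz : z ∈ LC0 d q j) : z ∉ RightOf d q ∧ 0 ≤ z.1 ∧ 0 ≤ z.2 ∧ z.2 ≤ 7 * (d : ℝ) ^ 2 := by
  obtain ⟨hz1, hz2, hz3, hz4⟩ := hz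
  have hD := order_d hd
  obtain ⟨ht0, ht1, ht2⟩ := order_t hd
  obtain ⟨hs1, hs2⟩ := order_s hd
  obtain ⟨hk1, hk2, hk3⟩ := order_kap hd (q := q) hq.le
  obtain ⟨hU1, hU2⟩ := tau_bounds hd (q := q) hq.le
  have hU0 : 0 < tau d q := lt_of_lt_of_le (by positivity) hU1
  have hj0 : (0 : ℝ) ≤ j := Nat.cast_nonneg j
  have hB0 : 0 ≤ B d q := order_B hd hq.le
  have hx : 0 ≤ z.1 := by
    have h3 : 0 ≤ tau d q * z.2 := by positivity
    have h4 : 0 ≤ (j : ℝ) * kap d q := by positivity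
    linarith
  refine ⟨?_, hx, hz3, ?_⟩
  · intro hR
    have hR' : B d q + (d : ℝ) ^ 2 * kap d q + tau d q * z.2 ≤ z.1 := hR
    have h3 : ((j : ℝ) + 1) ≤ (d : ℝ) ^ 2 := by
      have : j + 1 ≤ d ^ 2 := hj
      exact_mod_cast this
    have h4 : ((j : ℝ) + 1) * kap d q ≤ (d : ℝ) ^ 2 * kap d q :=
      mul_le_mul_of_nonneg_right h3 (by linarith)
    linarith
  · have h3 : q + r d q (j / d) ≤ 6 * d ^ 2 := by
      have h4 := r_mono hd (le_refl q) hq.le (order_div hd hj)
      have h5 := (top_bounds hd (q := q) hq.le).2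
      unfold top at h5
      omega
    have h6 : (((q + r d q (j / d) : ℕ)) : ℝ) ≤ 6 * (d : ℝ) ^ 2 := by exact_mod_cast h3
    have h7 : (((q + r d q (j / d) : ℕ)) : ℝ) * s d ≤ 6 * (d : ℝ) ^ 2 * (101 / 100) :=
      mul_le_mul h6 hs2 (by linarith) (by positivity)
    have h8 : 0 ≤ t d * z.1 := by positivity
    nlinarith

theorem seg_left {d H : ℕ} (hd : 100 ≤ d) (hH : 6 * d ^ 2 ≤ H) (hH' : H ≤ 30 * d ^ 2) {q R : ℕ}
    (hq : q ≤ d) (h : Active d H q R) {z : ℝ × ℝ} (hz : z ∈ Seg d H q R) :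
    (q < d → z ∉ RightOf d q) ∧ 0 ≤ z.1 ∧ 0 ≤ z.2 ∧ z.2 ≤ 40 * (d : ℝ) ^ 2 := by
  obtain ⟨⟨⟨⟨hr1, hr2⟩, -, hx⟩, hc1, hc2⟩, hfl⟩ := hz
  have hfl' : 0 ≤ z.2 := hfl
  have hD := order_d hd
  obtain ⟨ht0, ht1, ht2⟩ := order_t hd
  obtain ⟨hs1, hs2⟩ := order_s hd
  obtain ⟨hk1, hk2, hk3⟩ := order_kap hd (q := q) hq
  have hDpos : (0 : ℝ) < d := by linarith
  have h8 : 0 ≤ t d * z.1 := by positivity
  refine ⟨?_, hx, hfl', ?_⟩
  · intro hlt hR
    have hR' : B d q + (d : ℝ) ^ 2 * kap d q + tau d q * z.2 ≤ z.1 := hR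
    have h3 := hc1 hlt
    have h4 : (gg d q (R - q) : ℝ) ≤ d := by exact_mod_cast gg_le d q (R - q)
    have h5 : kap d q * d * gg d q (R - q) ≤ kap d q * d * d :=
      mul_le_mul_of_nonneg_left h4 (by positivity)
    nlinarith
  · have hRH : R + 1 ≤ 30 * d ^ 2 := by
      rcases h with ⟨hlt, hqR, hRt⟩ | ⟨hqd, hRd, hRH⟩
      · have := (top_bounds hd (q := q) hq).2
        omega
      · omega
    have h6 : ((R : ℝ) + 1) ≤ 30 * (d : ℝ) ^ 2 := by exact_mod_cast hRH
    have h7 : ((R : ℝ) + 1) * s d ≤ 30 * (d : ℝ) ^ 2 * (101 / 100) :=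
      mul_le_mul h6 hs2 (by linarith) (by positivity)
    nlinarith

/-- the floor condition in the segments is automatic, except for the segment `(0,0)` -/
theorem seg_floor {d H : ℕ} (hd : 100 ≤ d) {q R : ℕ} (hq : q ≤ d) (h : Active d H q R)
    (h0 : ¬ (q = 0 ∧ R = 0)) {z : ℝ × ℝ} (hz : z ∈ Row d R ∩ LeftC d H q R ∩ RightC d q R) :
    0 ≤ z.2 := by
  obtain ⟨⟨⟨hr1, hr2⟩, hl, hx⟩, hc1, hc2⟩ := hz
  have hD := order_d hd
  obtain ⟨ht0, ht1, ht2⟩ := order_t hd
  obtain ⟨hs1, hs2⟩ := order_s hd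
  obtain ⟨hk1, hk2, hk3⟩ := order_kap hd (q := q) hq
  obtain ⟨hU1, hU2⟩ := tau_bounds hd (q := q) hq
  have hU0 : 0 < tau d q := lt_of_lt_of_le (by positivity) hU1
  have hDpos : (0 : ℝ) < d := by linarith
  rcases h with ⟨hlt, hqR, hRt⟩ | ⟨hqd, hRd, hRH⟩
  · have h3 := hc1 hlt
    obtain ⟨g, hg⟩ : ∃ g, g = gg d q (R - q) := ⟨_, rfl⟩
    rw [← hg] at h3
    obtain ⟨hcc, -⟩ := cc_bounds hd (q := q) hq
    have hcc6 : -6 / (d : ℝ) ≥ -6 / 100 := by
      have : 6 / (d : ℝ) ≤ 6 / 100 := div_le_div_of_nonneg_left (by norm_num) (by norm_num) hD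
      have e : -6 / (d : ℝ) = -(6 / d) := by ring
      rw [e]
      linarith
    have hccdef : cc d q = q * s d - t d * B d q := rfl
    obtain ⟨ρ, hρ⟩ : ∃ ρ : ℕ, R = q + ρ := ⟨R - q, by omega⟩
    have hRcast : (R : ℝ) = q + ρ := by rw [hρ]; push_cast; ring
    have hRq : R - q = ρ := by omega
    rw [hRq] at hg
    have hρ0 : (0 : ℝ) ≤ ρ := Nat.cast_nonneg ρ
    have hρs : (ρ : ℝ) ≤ ρ * s d := by nlinarith
    have h16 : cc d q + ρ * s d - t d * (kap d q * d * g) ≤ z.2 * (1 + t d * tau d q) := by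
      have h17 : t d * z.1 ≤ t d * (B d q + kap d q * d * g + tau d q * z.2) :=
        mul_le_mul_of_nonneg_left h3.le ht0.le
      rw [hRcast] at hr1
      have h18 : t d * (B d q + kap d q * d * g + tau d q * z.2) =
          t d * B d q + t d * (kap d q * d * g) + z.2 * (t d * tau d q) := by ring
      rw [h18] at h17
      have h19 : ((q : ℝ) + ρ) * s d = q * s d + ρ * s d := by ring
      rw [h19] at hr1
      have h20 : z.2 * (1 + t d * tau d q) = z.2 + z.2 * (t d * tau d q) := by ring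
      rw [h20, hccdef]
      linarith
    have h21 : 0 < 1 + t d * tau d q := by positivity
    rcases Nat.eq_zero_or_pos g with hg0 | hpos
    · rw [hg0] at h16 h3
      simp only [Nat.cast_zero, mul_zero, sub_zero, add_zero] at h16 h3
      rcases Nat.eq_zero_or_pos q with hq0 | hqpos
      · -- `q = 0`
        have hR1 : 1 ≤ ρ := by
          by_contra hcon
          exact h0 ⟨hq0, by omega⟩
        have hρ1 : (1 : ℝ) ≤ ρ := by exact_mod_cast hR1
        have h22 : 0 ≤ z.2 * (1 + t d * tau d q) := by linarith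
        exact nonneg_of_mul_nonneg_left h22 h21
      · obtain ⟨p, rfl⟩ : ∃ p, q = p + 1 := ⟨q - 1, by omega⟩
        have hp : p + 1 - 1 = p := by omega
        by_cases hact : Active d H p R
        · have hR := hl ⟨by omega, by rw [hp]; exact hact⟩
          rw [hp] at hR
          have hR' : B d p + (d : ℝ) ^ 2 * kap d p + tau d p * z.2 ≤ z.1 := hR
          have hB : B d (p + 1) = B d p + (d : ℝ) ^ 2 * kap d p + gam d := rfl
          obtain ⟨hdiff0, hdiff⟩ := order_diff hd (p := p) hq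
          by_contra hneg
          push Not at hneg
          have hgam : gam d * d = -16 := by
            unfold gam
            field_simp
          have h23 : (tau d p - tau d (p + 1)) * z.2 < gam d := by
            rw [hB] at h3
            linarith
          have hz6 : -6 / 100 ≤ z.2 := by
            have h24 : -6 / 100 ≤ z.2 * (1 + t d * tau d (p + 1)) := by linarith
            have h25 : z.2 * (1 + t d * tau d (p + 1)) ≤ z.2 * 1 :=
              mul_le_mul_of_nonpos_left (by linarith [mul_pos ht0 hU0]) hneg.le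
            linarith
          have h26 : (tau d p - tau d (p + 1)) * z.2 * (d : ℝ) ^ 2 < gam d * (d : ℝ) ^ 2 :=
            mul_lt_mul_of_pos_right h23 (by positivity)
          have h27 : gam d * (d : ℝ) ^ 2 = -16 * d := by
            have : gam d * (d : ℝ) ^ 2 = (gam d * d) * d := by ring
            rw [this, hgam]
          have h28 : (tau d p - tau d (p + 1)) * z.2 * (d : ℝ) ^ 2 =
              ((tau d p - tau d (p + 1)) * (d : ℝ) ^ 2) * z.2 := by ring
          have h29 : 0 ≤ (tau d p - tau d (p + 1)) * (d : ℝ) ^ 2 := by positivity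
          rw [h27, h28] at h26
          nlinarith
        · exfalso
          have hRtop : top d p ≤ R := by
            by_contra hcon
            exact hact (Or.inl ⟨by omega, by omega, by omega⟩)
          have h30 := r_last_ge hd (q := p) (by omega)
          have h31 := r_zero_le hd (q := p + 1) hq
          unfold top at hRtop
          have h32 : r d (p + 1) 0 ≤ ρ := by
            have h33 : 7 * d ≤ d ^ 2 := by nlinarith
            omega
          have h34 := (gg_iff hd hq ρ 0 (by omega)).2 h32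
          omega
    · have hgd : g ≤ d := by rw [hg]; exact gg_le d q ρ
      have h5 : r d q (g - 1) ≤ ρ := by
        rw [← gg_iff hd hq ρ (g - 1) (by omega), ← hg]
        omega
      have h6 : (r d q (g - 1) : ℝ) ≤ ρ := by exact_mod_cast h5
      have h7 := (r_bounds hd (q := q) (i := g - 1) hq).1
      obtain ⟨-, he2, he3, -, he5⟩ := order_eps hd (q := q) hq
      have hgc : ((g - 1 : ℕ) : ℝ) = g - 1 := by
        have : g - 1 + 1 = g := by omega
        have h : ((g - 1 + 1 : ℕ) : ℝ) = g := by exact_mod_cast this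
        push_cast at h
        linarith
      have hg1 : (0 : ℝ) ≤ (g : ℝ) - 1 := by
        have : (1 : ℝ) ≤ g := by exact_mod_cast hpos
        linarith
      -- `ρ ≥ r (g-1) ≥ aa/eps - 1`
      have h8 : 2 * d + 2 * (t d * (d : ℝ) ^ 2) * d * ((g : ℝ) - 1) - 1 ≤ ρ := by
        have h9 : aa d (g - 1) ≤ (ρ + 1) * eps d q := by
          have : (r d q (g - 1) : ℝ) * eps d q ≤ ρ * eps d q :=
            mul_le_mul_of_nonneg_right h6 he3.le
          linarith
        have h10 : aa d (g - 1) * (2 * (d : ℝ) ^ 2) ≤ ρ + 1 := by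
          calc aa d (g - 1) * (2 * (d : ℝ) ^ 2) ≤ ((ρ + 1) * eps d q) * (2 * (d : ℝ) ^ 2) :=
                mul_le_mul_of_nonneg_right h9 (by positivity)
            _ = (ρ + 1) * (2 * (eps d q * (d : ℝ) ^ 2)) := by ring
            _ ≤ (ρ + 1) * 1 := mul_le_mul_of_nonneg_left (by linarith) (by linarith)
            _ = ρ + 1 := mul_one _
        have h11 : aa d (g - 1) * (2 * (d : ℝ) ^ 2) =
            2 * d + 2 * (t d * (d : ℝ) ^ 2) * d * ((g : ℝ) - 1) := by
          unfold aa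
          rw [hgc]
          field_simp
        linarith
      have h9 : t d * (kap d q * d * g) ≤
          101 / 100 * (t d * (d : ℝ) ^ 2) * d * ((g : ℝ) - 1) + 1 := by
        have h10 : t d * (kap d q * d * g) = kap d q * (t d * d) * ((g : ℝ) - 1) +
          kap d q * (t d * d) := by ring
        have h11 : t d * d ≤ 1 / 100 := by nlinarith
        have h12 : kap d q * (t d * d) ≤ 101 / 100 * (1 / 100) :=
          mul_le_mul hk3 h11 (by positivity) (by norm_num)
        have h13 : kap d q * (t d * d) ≤ 101 / 100 * (t d * (d : ℝ) ^ 2) * d := by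
          have h14 : t d * d ≤ (t d * (d : ℝ) ^ 2) * d := by
            have : t d * d * 1 ≤ t d * d * ((d : ℝ) ^ 2) :=
              mul_le_mul_of_nonneg_left (by nlinarith) (by positivity)
            linarith [this, (by ring : t d * d * (d : ℝ) ^ 2 = (t d * (d : ℝ) ^ 2) * d)]
          calc kap d q * (t d * d) ≤ 101 / 100 * ((t d * (d : ℝ) ^ 2) * d) :=
                mul_le_mul hk3 h14 (by positivity) (by norm_num)
            _ = _ := by ring
        have h15 := mul_le_mul_of_nonneg_right h13 hg1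
        rw [h10]
        linarith
      have h10 : 0 ≤ (t d * (d : ℝ) ^ 2) * d * ((g : ℝ) - 1) := by positivity
      have h22 : 0 ≤ z.2 * (1 + t d * tau d q) := by linarith
      exact nonneg_of_mul_nonneg_left h22 h21
  · have h3 := hc2 hqd
    obtain ⟨-, -, -, -, hZ⟩ := Z_bounds hd
    have h4 : t d * z.1 ≤ t d * Z d := mul_le_mul_of_nonneg_left h3.le ht0.le
    have h5 : ((d : ℝ) + 3) ≤ R := by
      have : ((d + 3 : ℕ) : ℝ) ≤ R := by exact_mod_cast hRd
      push_cast at this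
      exact this
    have h6 : ((d : ℝ) + 3) * s d ≤ R * s d := mul_le_mul_of_nonneg_right h5 (by linarith)
    linarith

end H282R5.PD
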