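import Pool.Agent.H282R5.PD.Defs
import Pool.Agent.H282R4.PU.Par
import Pool.Agent.H282R5.PD.Par2
import Pool.Agent.H282R5.PD.Order

/-! Module Cover of project PD: the cells cover the super-period cell (helper642, after PU/Cover). -/

namespace H282R5.PD

open MeasureTheory
open scoped ENNReal
open H282R3.SQ (USq)
open H282R4.PU (ax al t s tau kap eps phi Z SP Row T1 t_bounds s_bounds tau_bounds kap_bounds)

theorem Cover_idx_seg {d H q R : ℕ} (hq : q ≤ d) (hR : R < H) (h : Active d H q R) :
    ((1, q, R) : ℕ × ℕ × ℕ) ∈ idx d H := by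
  classical
  unfold idx
  rw [Finset.mem_union]
  right
  rw [Finset.mem_filter]
  refine ⟨?_, h⟩
  rw [Finset.mem_product, Finset.mem_product]
  exact ⟨Finset.mem_singleton.2 rfl, Finset.mem_range.2 (Nat.lt_succ_of_le hq),
    Finset.mem_range.2 hR⟩

theorem Cover_idx_lc {d H q j : ℕ} (hq : q < d) (hj : j < d ^ 2) :
    ((0, q, j) : ℕ × ℕ × ℕ) ∈ idx d H := by
  classical
  unfold idx
  rw [Finset.mem_union]
  left
  rw [Finset.mem_product, Finset.mem_product]
  exact ⟨Finset.mem_singleton.2 rfl, Finset.mem_range.2 hq, Finset.mem_range.2 hj⟩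

theorem Cover_cell_seg (d H q R : ℕ) : Cell d H (1, q, R) = Seg d H q R := by
  unfold Cell
  rw [if_neg (by norm_num)]

theorem Cover_cell_lc (d H q j : ℕ) : Cell d H (0, q, j) = LC d q j := by
  unfold Cell
  rw [if_pos rfl]

theorem Cover_right {d q : ℕ} (hd : 100 ≤ d) (hq : q < d) {z : ℝ × ℝ} (hz : z ∈ RightOf d q)
    (h0 : 0 ≤ z.2) : B d (q + 1) - gam d ≤ z.1 := by
  have h1 : B d q + (d : ℝ) ^ 2 * kap d q + tau d q * z.2 ≤ z.1 := hz
  have hdp : (0 : ℝ) < d := by
    have : (100 : ℝ) ≤ d := by exact_mod_cast hd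
    linarith
  have h2 : 0 ≤ tau d q := by
    have := (tau_bounds hd (q := q) hq.le).1
    have h3 : (0 : ℝ) ≤ 3 / (4 * (d : ℝ)) := by positivity
    linarith
  have h3 : B d (q + 1) = B d q + (d : ℝ) ^ 2 * kap d q + gam d := rfl
  have h4 : 0 ≤ tau d q * z.2 := mul_nonneg h2 h0
  rw [h3]
  linarith

theorem cell_cover {d H : ℕ} (hd : 100 ≤ d) (hH : 6 * d ^ 2 ≤ H) (hH' : H ≤ 30 * d ^ 2) :
    SP d H ⊆ (⋃ a ∈ idx d H, Cell d H a) ∪ Ex d := by
  classical
  intro z hz
  obtain ⟨hz0, hzZ, hz2, hzH⟩ : 0 ≤ z.1 ∧ z.1 < Z d ∧ 0 ≤ z.2 ∧ z.2 + t d * z.1 < H * s d := hz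
  have hs : 0 < s d := by linarith [(s_bounds hd).1]
  have ht : 0 < t d := (t_bounds hd).1
  have hw0 : 0 ≤ z.2 + t d * z.1 := add_nonneg hz2 (mul_nonneg ht.le hz0)
  obtain ⟨R, hR⟩ : ∃ R : ℕ, R = ⌊(z.2 + t d * z.1) / s d⌋₊ := ⟨_, rfl⟩
  have hq0 : 0 ≤ (z.2 + t d * z.1) / s d := div_nonneg hw0 hs.le
  have hR1 : R * s d ≤ z.2 + t d * z.1 := by
    have : (R : ℝ) ≤ (z.2 + t d * z.1) / s d := by
      rw [hR]
      exact Nat.floor_le hq0
    rwa [le_div_iff₀ hs] at this
  have hR2 : z.2 + t d * z.1 < (R + 1) * s d := by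
    have : (z.2 + t d * z.1) / s d < R + 1 := by
      rw [hR]
      exact Nat.lt_floor_add_one _
    rwa [div_lt_iff₀ hs] at this
  have hRH : R < H := by
    rw [hR, Nat.floor_lt hq0, div_lt_iff₀ hs]
    exact hzH
  have hrow : z ∈ Row d R := ⟨hR1, hR2⟩
  by_cases hA : ∃ q, q ≤ d ∧ Active d H q R ∧ (q < d → z ∉ RightOf d q)
  · left
    obtain ⟨q, hq⟩ : ∃ q, q = Nat.find hA := ⟨_, rfl⟩
    obtain ⟨hqd, hact, hnr⟩ : q ≤ d ∧ Active d H q R ∧ (q < d → z ∉ RightOf d q) := by
      rw [hq]
      exact Nat.find_spec hA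
    have hleft : z ∈ LeftC d H q R := by
      refine ⟨?_, hz0⟩
      rintro ⟨h1, h2⟩
      by_contra h3
      have hmin := Nat.find_min hA (m := q - 1) (by omega)
      exact hmin ⟨by omega, h2, fun _ => h3⟩
    rw [Set.mem_iUnion₂]
    rcases hqd.lt_or_eq with hlt | heq
    · by_cases hc : z.1 < B d q + kap d q * d * gg d q (R - q) + tau d q * z.2
      · refine ⟨(1, q, R), Cover_idx_seg hqd hRH hact, ?_⟩
        rw [Cover_cell_seg]
        exact ⟨⟨⟨hrow, hleft⟩, fun _ => hc, fun h => absurd h hlt.ne⟩, hz2⟩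
      · have hkap : 0 < kap d q := by linarith [(kap_bounds hd hqd).1]
        obtain ⟨u, hu⟩ : ∃ u : ℝ, u = z.1 - B d q - tau d q * z.2 := ⟨_, rfl⟩
        have hu1 : kap d q * d * gg d q (R - q) ≤ u := by
          rw [hu]
          linarith [not_lt.1 hc]
        have hu2 : u < (d : ℝ) ^ 2 * kap d q := by
          have h3 : ¬ (B d q + (d : ℝ) ^ 2 * kap d q + tau d q * z.2 ≤ z.1) := hnr hlt
          rw [hu]
          linarith [not_le.1 h3]
        have hu0 : 0 ≤ u := le_trans (by positivity) hu1
        have hq1 : 0 ≤ u / kap d q := div_nonneg hu0 hkap.le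
        obtain ⟨j, hj⟩ : ∃ j : ℕ, j = ⌊u / kap d q⌋₊ := ⟨_, rfl⟩
        have hj1 : j * kap d q ≤ u := by
          have : (j : ℝ) ≤ u / kap d q := by
            rw [hj]
            exact Nat.floor_le hq1
          rwa [le_div_iff₀ hkap] at this
        have hj2 : u < (j + 1) * kap d q := by
          have : u / kap d q < j + 1 := by
            rw [hj]
            exact Nat.lt_floor_add_one _
          rwa [div_lt_iff₀ hkap] at this
        have hjd : j < d ^ 2 := by
          rw [hj, Nat.floor_lt hq1, div_lt_iff₀ hkap]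
          push_cast
          exact hu2
        have hjg : gg d q (R - q) * d ≤ j := by
          rw [hj]
          apply Nat.le_floor
          rw [le_div_iff₀ hkap]
          push_cast
          calc (gg d q (R - q) : ℝ) * d * kap d q = kap d q * d * gg d q (R - q) := by ring
            _ ≤ u := hu1
        have hd0 : 0 < d := by omega
        have hjg' : gg d q (R - q) ≤ j / d := (Nat.le_div_iff_mul_le hd0).2 hjg
        have hjdd : j / d < d := by
          rw [Nat.div_lt_iff_lt_mul hd0]
          rw [pow_two] at hjd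
          exact hjd
        have hlt2 : ¬ (r d q (j / d) ≤ R - q) := by
          rw [← gg_iff hd hqd (R - q) (j / d) hjdd]
          omega
        have hqR : q ≤ R := by
          rcases hact with h | h
          · exact h.2.1
          · exact absurd h.1 hlt.ne
        have hfin : R + 1 ≤ q + r d q (j / d) := by omega
        have hLC0 : z ∈ LC0 d q j := by
          refine ⟨?_, ?_, hz2, ?_⟩
          · rw [← hu]
            exact hj1
          · rw [← hu]
            exact hj2
          · refine hR2.trans_le ?_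
            refine mul_le_mul_of_nonneg_right ?_ hs.le
            exact_mod_cast hfin
        refine ⟨(0, q, j), Cover_idx_lc hlt hjd, ?_⟩
        rw [Cover_cell_lc]
        refine ⟨hLC0, ?_⟩
        intro h1q
        by_cases hact' : Active d H (q - 1) R
        · exact hleft.1 ⟨h1q, hact'⟩
        · have htop : top d (q - 1) ≤ R := by
            by_contra hcon
            exact hact' (Or.inl ⟨by omega, by omega, by omega⟩)
          have h2 : d ^ 2 ≤ r d (q - 1) (d - 1) := r_last_ge hd (by omega)
          have h3 : top d (q - 1) = q - 1 + r d (q - 1) (d - 1) := rfl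
          have h4 : d ^ 2 ≤ r d q (j / d) := by omega
          have h5 : 1 ≤ j := by
            by_contra hcon
            have hj0 : j = 0 := by omega
            rw [hj0, Nat.zero_div] at h4
            have h6 := r_zero_le hd hqd
            have h7 : 6 * d < d ^ 2 := by nlinarith
            omega
          exact LC_right hd h1q hlt hjd h5 hLC0
    · refine ⟨(1, q, R), Cover_idx_seg hqd hRH hact, ?_⟩
      rw [Cover_cell_seg]
      exact ⟨⟨⟨hrow, hleft⟩, fun h => absurd heq h.ne, fun _ => hzZ⟩, hz2⟩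
  · right
    have hno : ∀ q, q ≤ d → Active d H q R → q < d ∧ z ∈ RightOf d q := by
      intro q h1 h2
      by_contra h3
      refine hA ⟨q, h1, h2, fun h4 h5 => h3 ⟨h4, h5⟩⟩
    have hRd : R < d + 3 := by
      by_contra h
      have := (hno d le_rfl (Or.inr ⟨rfl, by omega, hRH⟩)).1
      omega
    have hact : ∀ q, q < d → q ≤ R → z ∈ RightOf d q := by
      intro q h1 h2
      refine (hno q h1.le (Or.inl ⟨h1, h2, ?_⟩)).2
      exact hRd.trans_le (top_bounds hd h1.le).1
    refine ⟨hz0, hzZ, hz2, ?_, ?_⟩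
    · refine hR2.trans_le (mul_le_mul_of_nonneg_right ?_ hs.le)
      have : R + 1 ≤ d + 3 := by omega
      exact_mod_cast this
    · by_cases hRd1 : d - 1 ≤ R
      · have h1 := Cover_right hd (q := d - 1) (by omega) (hact (d - 1) (by omega) hRd1) hz2
        have h2 : d - 1 + 1 = d := by omega
        rwa [h2] at h1
      · exfalso
        have hd' : (100 : ℝ) ≤ d := by exact_mod_cast hd
        have h1 := Cover_right hd (q := R) (by omega) (hact R (by omega) le_rfl) hz2
        have hg : gam d < 0 := by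
          unfold gam
          rw [neg_div]
          have : (0 : ℝ) < 16 / d := by positivity
          linarith
        have h2 : B d (R + 1) ≤ z.1 := by linarith
        have h3 : t d * B d (R + 1) ≤ t d * z.1 := mul_le_mul_of_nonneg_left h2 ht.le
        have h4 := (cc_bounds hd (q := R + 1) (by omega)).2
        have h5 : cc d (R + 1) = ((R + 1 : ℕ) : ℝ) * s d - t d * B d (R + 1) := rfl
        rw [h5] at h4
        push_cast at h4
        have h6 : (-3 : ℝ) / d < 0 := by
          rw [neg_div]
          have : (0 : ℝ) < 3 / d := by positivity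
          linarith
        linarith

end H282R5.PD
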