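import Pool.Agent.H282R4.PU.Defs

/-!
PROJECT PD: coverings of a square of side `n + ε` by `n² + O(n^(3/5))` unit squares.
Covering version of `Pool.Agent.H282R4.PU`. All definitions. The integer `d` is the only parameter.
-/

namespace H282R5.PD

open MeasureTheory
open scoped ENNReal
open H282R3.SQ (USq)
open H282R4.PU (ax al t s tau kap eps phi Z SP Row T1)

/-- `n` closed unit squares cover `Ω`. -/
def Covs (Ω : Set (ℝ × ℝ)) (n : ℕ) : Prop :=
  ∃ Q : Fin n → USq, Ω ⊆ ⋃ i, (Q i).C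

/-- `Ω` can be covered with waste at most `w`. -/
def Wc (Ω : Set (ℝ × ℝ)) (w : ℝ) : Prop :=
  0 ≤ w ∧ ∃ n : ℕ, Covs Ω n ∧ (n : ℝ≥0∞) ≤ volume Ω + ENNReal.ofReal w

/-- gap between consecutive blocks (negative: they overlap near the floor) -/
noncomputable def gam (d : ℕ) : ℝ := -16 / d

/-- left end of block `q` on the floor; the block has `d²` columns of horizontal width `kap` -/
noncomputable def B (d : ℕ) : ℕ → ℝ
  | 0 => 6 / (d * t d)
  | q + 1 => B d q + (d : ℝ) ^ 2 * kap d q + gam d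

/-- threshold of group `i` (a group is `d` consecutive columns) -/
noncomputable def aa (d i : ℕ) : ℝ := 1 / d + t d * i * d

/-- number of squares in each column of group `i` of block `q` -/
noncomputable def r (d q i : ℕ) : ℕ := ⌊aa d i / eps d q⌋₊

/-- height of the row line `q` above the floor at the left end of block `q` (negative) -/
noncomputable def cc (d q : ℕ) : ℝ := q * s d - t d * B d q

/-- first row above the leaning part of block `q` -/
noncomputable def top (d q : ℕ) : ℕ := q + r d q (d - 1)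

/-- right of the line `Λ_q` that bounds block `q` on the right -/
def RightOf (d q : ℕ) : Set (ℝ × ℝ) := {z | B d q + (d : ℝ) ^ 2 * kap d q + tau d q * z.2 ≤ z.1}

/-- leaning column `j` of block `q` (`q < d`, `j < d²`), not truncated -/
def LC0 (d q j : ℕ) : Set (ℝ × ℝ) :=
  {z | j * kap d q ≤ z.1 - B d q - tau d q * z.2 ∧
    z.1 - B d q - tau d q * z.2 < (j + 1) * kap d q ∧ 0 ≤ z.2 ∧
    z.2 + t d * z.1 < (q + r d q (j / d) : ℕ) * s d}

/-- leaning column `j` of block `q`, right of the previous block -/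
def LC (d q j : ℕ) : Set (ℝ × ℝ) := LC0 d q j ∩ {z | 1 ≤ q → z ∈ RightOf d (q - 1)}

/-- number of groups of block `q` that have ended at local row `ρ` -/
noncomputable def gg (d q ρ : ℕ) : ℕ := ((Finset.range d).filter (fun i => r d q i ≤ ρ)).card

/-- block `q` has leaning columns in row `R`; `q = d` stands for the right wall `x = Z` -/
def Active (d H q R : ℕ) : Prop :=
  (q < d ∧ q ≤ R ∧ R < top d q) ∨ (q = d ∧ d + 3 ≤ R ∧ R < H)

/-- left boundary condition of the segment `(q,R)` -/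
def LeftC (d H q R : ℕ) : Set (ℝ × ℝ) :=
  {z | (1 ≤ q ∧ Active d H (q - 1) R → z ∈ RightOf d (q - 1)) ∧ 0 ≤ z.1}

/-- right boundary condition of the segment `(q,R)` -/
def RightC (d q R : ℕ) : Set (ℝ × ℝ) :=
  {z | (q < d → z.1 < B d q + kap d q * d * gg d q (R - q) + tau d q * z.2) ∧
    (q = d → z.1 < Z d)}

/-- the row segment that ends at block `q`, in row `R` -/
def Seg (d H q R : ℕ) : Set (ℝ × ℝ) := Row d R ∩ LeftC d H q R ∩ RightC d q R ∩ {z | 0 ≤ z.2}

/-- the triangle at the right wall below row `d + 3` -/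
def Ex (d : ℕ) : Set (ℝ × ℝ) :=
  {z | 0 ≤ z.1 ∧ z.1 < Z d ∧ 0 ≤ z.2 ∧ z.2 + t d * z.1 < (d + 3) * s d ∧ B d d - gam d ≤ z.1}

/-- indices of the cells: `(0,q,j)` leaning column, `(1,q,R)` segment -/
noncomputable def idx (d H : ℕ) : Finset (ℕ × ℕ × ℕ) :=
  open Classical in
  ({0} ×ˢ Finset.range d ×ˢ Finset.range (d ^ 2)) ∪
    (({1} ×ˢ Finset.range (d + 1) ×ˢ Finset.range H).filter fun a => Active d H a.2.1 a.2.2)

/-- the cells -/
def Cell (d H : ℕ) (a : ℕ × ℕ × ℕ) : Set (ℝ × ℝ) :=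
  if a.1 = 0 then LC d a.2.1 a.2.2 else Seg d H a.2.1 a.2.2

open Classical in
/-- bound for the waste of a cell -/
noncomputable def wt (d H : ℕ) (a : ℕ × ℕ × ℕ) : ℝ :=
  if a.1 = 0 then (if a.2.2 = 0 then 6 * (d : ℝ) else 10 / d) else
    if a.2.1 = 0 ∧ a.2.2 = 0 then 8 * (d : ℝ) else
      if a.2.1 < d ∧ 1 ≤ a.2.1 ∧ Active d H (a.2.1 - 1) a.2.2 then 40 / d else 3

end H282R5.PD
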