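import Pool.Agent.H282R5.PD.Defs
import Pool.Agent.H282R3.SQ.Defs
import Pool.Agent.H282R4.PU.Par
import Pool.Agent.H282R5.PD.Par2

/-! The triangle at the right wall is covered by `30 d²` squares (helper25). -/

namespace H282R5.PD

open MeasureTheory
open scoped ENNReal
open H282R3.SQ (USq)
open H282R4.PU (ax al t s tau kap eps phi Z SP Row T1 t_bounds s_bounds)

theorem Ex_covs {d : ℕ} (hd : 100 ≤ d) : Covs (Ex d) (30 * d ^ 2) := by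
  have hd' : (100 : ℝ) ≤ d := by exact_mod_cast hd
  have hd0 : (0 : ℝ) < d := by linarith
  refine ⟨fun i => ⟨B d d + ((i.1 / 4 : ℕ) : ℝ) + 1 / 2, ((i.1 % 4 : ℕ) : ℝ) + 1 / 2, 1, 0,
    by norm_num⟩, ?_⟩
  rintro ⟨x, y⟩ ⟨h1, h2, h3, h4, h5⟩
  simp only at h1 h2 h3 h4 h5
  obtain ⟨ht0, ht1, ht2⟩ := t_bounds hd
  obtain ⟨hs0, hs1, -, -⟩ := s_bounds hd
  obtain ⟨-, hZ2, -, -, -⟩ := Z_bounds hd
  obtain ⟨-, hc1⟩ := cc_bounds hd (le_refl d)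
  have hdd : (10000 : ℝ) ≤ (d : ℝ) ^ 2 := by nlinarith
  have hd2 : 1 / (d : ℝ) ^ 2 ≤ 1 / 10000 := one_div_le_one_div_of_le (by norm_num) hdd
  have htt : t d ≤ 1 / 10000 := ht1.trans hd2
  have hgam : gam d ≤ 0 := by
    unfold gam
    rw [neg_div]
    have : (0 : ℝ) < 16 / d := by positivity
    linarith
  have hx0 : B d d ≤ x := by linarith
  have hx1 : x - B d d < 4 * (d : ℝ) ^ 2 := by linarith
  have hs2 : s d ≤ 1 + 1 / 100 := by nlinarith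
  have hy : y < 4 := by
    unfold cc at hc1
    have h6 : t d * B d d ≤ t d * x := mul_le_mul_of_nonneg_left hx0 ht0.le
    have h7 : -3 / (d : ℝ) < 0 := by
      rw [neg_div]
      have : (0 : ℝ) < 3 / d := by positivity
      linarith
    nlinarith
  have hf0 : 0 ≤ x - B d d := by linarith
  have k1 : ⌊x - B d d⌋₊ < 4 * d ^ 2 := by
    rw [Nat.floor_lt hf0]
    push_cast
    exact hx1
  have k2 : ⌊y⌋₊ < 4 := by
    rw [Nat.floor_lt h3]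
    exact_mod_cast hy
  have hd3 : 10000 ≤ d ^ 2 := by nlinarith
  have hi : 4 * ⌊x - B d d⌋₊ + ⌊y⌋₊ < 30 * d ^ 2 := by omega
  refine Set.mem_iUnion.2 ⟨⟨4 * ⌊x - B d d⌋₊ + ⌊y⌋₊, hi⟩, ?_⟩
  have e1 : (4 * ⌊x - B d d⌋₊ + ⌊y⌋₊) / 4 = ⌊x - B d d⌋₊ := by omega
  have e2 : (4 * ⌊x - B d d⌋₊ + ⌊y⌋₊) % 4 = ⌊y⌋₊ := by omega
  have m1 := Nat.floor_le hf0
  have m2 := Nat.lt_floor_add_one (x - B d d)
  have m3 := Nat.floor_le h3
  have m4 := Nat.lt_floor_add_one y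
  show |_| ≤ _ ∧ |_| ≤ _
  simp only [USq.X, USq.Y, e1, e2]
  rw [abs_le, abs_le]
  refine ⟨⟨?_, ?_⟩, ⟨?_, ?_⟩⟩ <;> linarith

end H282R5.PD
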