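import Pool.Agent.H282R5.PD.Defs
import Pool.Agent.H282R3.SQ.Defs
import Pool.Agent.H282R3.SQ.Contact

/-!
Module Frame (project PD): basic operations with coverings of small waste.
-/

namespace H282R5.PD

open MeasureTheory
open scoped ENNReal
open H282R3.SQ (USq)
open H282R4.PU (ax al t s tau kap eps phi Z SP Row T1)

theorem Wc_mono {Ω : Set (ℝ × ℝ)} {w w' : ℝ} (h : Wc Ω w) (hw : w ≤ w') : Wc Ω w' := by
  obtain ⟨h0, n, hn, hv⟩ := h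
  exact ⟨h0.trans hw, n, hn, hv.trans (add_le_add le_rfl (ENNReal.ofReal_le_ofReal hw))⟩

theorem Covs_mono {Ω Ω' : Set (ℝ × ℝ)} {n : ℕ} (h : Covs Ω n) (hs : Ω' ⊆ Ω) : Covs Ω' n := by
  obtain ⟨Q, hQ⟩ := h
  exact ⟨Q, hs.trans hQ⟩

theorem frame_covs_fintype {κ : Type*} [Fintype κ] (Ω : Set (ℝ × ℝ)) (Q : κ → USq)
    (h : Ω ⊆ ⋃ i, (Q i).C) : Covs Ω (Fintype.card κ) := by
  classical
  refine ⟨fun i => Q ((Fintype.equivFin κ).symm i), fun z hz => ?_⟩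
  obtain ⟨i, hi⟩ := Set.mem_iUnion.1 (h hz)
  refine Set.mem_iUnion.2 ⟨Fintype.equivFin κ i, ?_⟩
  simpa using hi

theorem Covs_add {Ω Ω' : Set (ℝ × ℝ)} {n m : ℕ} (h : Covs Ω n) (h' : Covs Ω' m) :
    Covs (Ω ∪ Ω') (n + m) := by
  obtain ⟨Q, hQ⟩ := h
  obtain ⟨Q', hQ'⟩ := h'
  have key := frame_covs_fintype (κ := Fin n ⊕ Fin m) (Ω ∪ Ω') (Sum.elim Q Q') (by
    rintro z (hz | hz)
    · obtain ⟨i, hi⟩ := Set.mem_iUnion.1 (hQ hz)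
      exact Set.mem_iUnion.2 ⟨Sum.inl i, hi⟩
    · obtain ⟨i, hi⟩ := Set.mem_iUnion.1 (hQ' hz)
      exact Set.mem_iUnion.2 ⟨Sum.inr i, hi⟩)
  simpa using key

theorem Covs_closure {Ω : Set (ℝ × ℝ)} {n : ℕ} (h : Covs Ω n) : Covs (closure Ω) n := by
  obtain ⟨Q, hQ⟩ := h
  refine ⟨Q, closure_minimal hQ ?_⟩
  exact isClosed_iUnion_of_finite fun i => H282R3.SQ.isClosed_C _

theorem Wc_union {ι : Type*} (S : Finset ι) (Ω E : Set (ℝ × ℝ)) (C : ι → Set (ℝ × ℝ)) (w : ι → ℝ)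
    (m : ℕ) (hsub : ∀ i ∈ S, C i ⊆ Ω) (hm : ∀ i ∈ S, NullMeasurableSet (C i))
    (hdis : ∀ i ∈ S, ∀ j ∈ S, i ≠ j → AEDisjoint volume (C i) (C j))
    (hcov : Ω ⊆ closure ((⋃ i ∈ S, C i) ∪ E)) (hE : Covs E m)
    (hw : ∀ i ∈ S, Wc (C i) (w i)) : Wc Ω (∑ i ∈ S, w i + m) := by
  classical
  have hw0 : ∀ i ∈ S, 0 ≤ w i := fun i hi => (hw i hi).1
  refine ⟨add_nonneg (Finset.sum_nonneg hw0) (Nat.cast_nonneg _), ?_⟩
  have hex : ∀ i : S, ∃ n : ℕ, Covs (C i) n ∧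
      (n : ℝ≥0∞) ≤ volume (C i) + ENNReal.ofReal (w i) := fun i => (hw i.1 i.2).2
  choose n hn hv using hex
  choose Q hQ using hn
  have h1 : Covs (⋃ i ∈ S, C i) (∑ i : S, n i) := by
    have key := frame_covs_fintype (κ := Σ i : S, Fin (n i)) (⋃ i ∈ S, C i)
      (fun p => Q p.1 p.2) (by
        intro z hz
        simp only [Set.mem_iUnion] at hz
        obtain ⟨i, hi, hz⟩ := hz
        obtain ⟨a, ha⟩ := Set.mem_iUnion.1 (hQ ⟨i, hi⟩ hz)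
        exact Set.mem_iUnion.2 ⟨⟨⟨i, hi⟩, a⟩, ha⟩)
    rw [Fintype.card_sigma] at key
    simpa only [Fintype.card_fin] using key
  refine ⟨∑ i : S, n i + m, Covs_mono (Covs_closure (Covs_add h1 hE)) hcov, ?_⟩
  have h2 : volume (⋃ i ∈ S, C i) = ∑ i ∈ S, volume (C i) :=
    measure_biUnion_finset₀ (fun i hi j hj hij => hdis i hi j hj hij) hm
  have h3 : (⋃ i ∈ S, C i) ⊆ Ω := Set.iUnion₂_subset hsub
  calc ((∑ i : S, n i + m : ℕ) : ℝ≥0∞) = (∑ i : S, (n i : ℝ≥0∞)) + m := by push_cast; rfl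
    _ ≤ (∑ i : S, (volume (C i) + ENNReal.ofReal (w i))) + m :=
        add_le_add (Finset.sum_le_sum fun i _ => hv i) le_rfl
    _ = (∑ i ∈ S, (volume (C i) + ENNReal.ofReal (w i))) + m := by
        rw [Finset.sum_coe_sort S (fun i => volume (C i) + ENNReal.ofReal (w i))]
    _ = volume (⋃ i ∈ S, C i) + ENNReal.ofReal (∑ i ∈ S, w i + m) := by
        rw [Finset.sum_add_distrib, h2,
          ENNReal.ofReal_add (Finset.sum_nonneg hw0) (Nat.cast_nonneg _),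
          ENNReal.ofReal_sum_of_nonneg hw0, ENNReal.ofReal_natCast, add_assoc]
    _ ≤ volume Ω + ENNReal.ofReal (∑ i ∈ S, w i + m) := add_le_add (measure_mono h3) le_rfl

theorem Wc_translate {Ω : Set (ℝ × ℝ)} {w : ℝ} (h : Wc Ω w) (v : ℝ × ℝ) :
    Wc {z | (z.1 - v.1, z.2 - v.2) ∈ Ω} w := by
  obtain ⟨h0, n, ⟨Q, hQ⟩, hv⟩ := h
  let Q' : Fin n → USq := fun i => ⟨(Q i).p + v.1, (Q i).q + v.2, (Q i).a, (Q i).b, (Q i).unit⟩
  have hC : ∀ i (z : ℝ × ℝ), z ∈ (Q' i).C ↔ (z.1 - v.1, z.2 - v.2) ∈ (Q i).C := by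
    intro i z
    have e1 : (Q' i).X z = (Q i).X (z.1 - v.1, z.2 - v.2) := by
      simp only [USq.X, Q']; ring
    have e2 : (Q' i).Y z = (Q i).Y (z.1 - v.1, z.2 - v.2) := by
      simp only [USq.Y, Q']; ring
    simp only [USq.C, Set.mem_ofPred_eq, e1, e2]
  refine ⟨h0, n, ⟨Q', ?_⟩, ?_⟩
  · intro z hz
    obtain ⟨i, hi⟩ := Set.mem_iUnion.1 (hQ hz)
    exact Set.mem_iUnion.2 ⟨i, (hC i z).2 hi⟩
  · have : {z : ℝ × ℝ | (z.1 - v.1, z.2 - v.2) ∈ Ω} = (fun z => z + (-v)) ⁻¹' Ω := by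
      ext z
      simp only [Set.mem_ofPred_eq, Set.mem_preimage]
      have : (z.1 - v.1, z.2 - v.2) = z + -v := by
        ext <;> simp [sub_eq_add_neg]
      rw [this]
    rw [this, measure_preimage_add_right]
    exact hv

theorem Wc_rot {Ω : Set (ℝ × ℝ)} {w : ℝ} (h : Wc Ω w) (v : ℝ × ℝ) :
    Wc {z | (v.1 - z.1, v.2 - z.2) ∈ Ω} w := by
  obtain ⟨h0, n, ⟨Q, hQ⟩, hv⟩ := h
  let Q' : Fin n → USq := fun i => ⟨v.1 - (Q i).p, v.2 - (Q i).q, (Q i).a, (Q i).b, (Q i).unit⟩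
  have hC : ∀ i (z : ℝ × ℝ), z ∈ (Q' i).C ↔ (v.1 - z.1, v.2 - z.2) ∈ (Q i).C := by
    intro i z
    have e1 : (Q' i).X z = - (Q i).X (v.1 - z.1, v.2 - z.2) := by
      simp only [USq.X, Q']; ring
    have e2 : (Q' i).Y z = - (Q i).Y (v.1 - z.1, v.2 - z.2) := by
      simp only [USq.Y, Q']; ring
    simp only [USq.C, Set.mem_ofPred_eq, e1, e2, abs_neg]
  refine ⟨h0, n, ⟨Q', ?_⟩, ?_⟩
  · intro z hz
    obtain ⟨i, hi⟩ := Set.mem_iUnion.1 (hQ hz)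
    exact Set.mem_iUnion.2 ⟨i, (hC i z).2 hi⟩
  · have : {z : ℝ × ℝ | (v.1 - z.1, v.2 - z.2) ∈ Ω} =
        Neg.neg ⁻¹' ((fun z : ℝ × ℝ => z + v) ⁻¹' Ω) := by
      ext z
      simp only [Set.mem_ofPred_eq, Set.mem_preimage]
      have : (v.1 - z.1, v.2 - z.2) = -z + v := by
        ext <;> simp [sub_eq_add_neg, add_comm]
      rw [this]
    rw [this, Measure.measure_preimage_neg, measure_preimage_add_right]
    exact hv

theorem Wc_swap {Ω : Set (ℝ × ℝ)} {w : ℝ} (h : Wc Ω w) : Wc {z | (z.2, z.1) ∈ Ω} w := by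
  obtain ⟨h0, n, ⟨Q, hQ⟩, hv⟩ := h
  let Q' : Fin n → USq := fun i => ⟨(Q i).q, (Q i).p, (Q i).b, (Q i).a, by
    have := (Q i).unit; linarith⟩
  have hC : ∀ i (z : ℝ × ℝ), z ∈ (Q' i).C ↔ (z.2, z.1) ∈ (Q i).C := by
    intro i z
    have e1 : (Q' i).X z = (Q i).X (z.2, z.1) := by
      simp only [USq.X, Q']; ring
    have e2 : (Q' i).Y z = - (Q i).Y (z.2, z.1) := by
      simp only [USq.Y, Q']; ring
    simp only [USq.C, Set.mem_ofPred_eq, e1, e2, abs_neg]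
  refine ⟨h0, n, ⟨Q', ?_⟩, ?_⟩
  · intro z hz
    obtain ⟨i, hi⟩ := Set.mem_iUnion.1 (hQ hz)
    exact Set.mem_iUnion.2 ⟨i, (hC i z).2 hi⟩
  · have hmp : MeasurePreserving (MeasurableEquiv.prodComm : ℝ × ℝ ≃ᵐ ℝ × ℝ) volume volume := by
      rw [Measure.volume_eq_prod]
      exact Measure.measurePreserving_swap
    have : {z : ℝ × ℝ | (z.2, z.1) ∈ Ω} = (MeasurableEquiv.prodComm : ℝ × ℝ ≃ᵐ ℝ × ℝ) ⁻¹' Ω := rfl
    rw [this, hmp.measure_preimage_equiv]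
    exact hv

end H282R5.PD
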