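import Pool.Agent.H282R5.PD.Defs
import Pool.Agent.H282R4.PU.RectW

/-!
Module RectW: a rotated rectangle of width one is covered greedily.
-/

set_option autoImplicit false

namespace H282R5.PD

open MeasureTheory
open scoped ENNReal
open H282R3.SQ (USq)
open H282R4.PU (ax al t s tau kap eps phi Z SP Row T1)

theorem rect_covs (a b p u' v' : ℝ) (n : ℕ) (Ω : Set (ℝ × ℝ)) (hab : a ^ 2 + b ^ 2 = 1)
    (hout : ∀ z ∈ Ω, p ≤ ax a b z ∧ ax a b z ≤ p + 1 ∧ u' ≤ al a b z ∧ al a b z ≤ v')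
    (h1 : v' - u' ≤ n) (h0 : n = 0 → v' < u') : Covs Ω n := by
  let Q : Fin n → USq := fun i =>
    ⟨a * (p + 1 / 2) - b * (u' + i + 1 / 2), b * (p + 1 / 2) + a * (u' + i + 1 / 2), a, b, hab⟩
  have hX : ∀ (i : Fin n) (z : ℝ × ℝ), (Q i).X z = ax a b z - (p + 1 / 2) := by
    intro i z
    simp only [USq.X, Q, ax]
    linear_combination (-(p + 1 / 2)) * hab
  have hY : ∀ (i : Fin n) (z : ℝ × ℝ), (Q i).Y z = al a b z - (u' + i + 1 / 2) := by
    intro i z
    simp only [USq.Y, Q, al]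
    linear_combination (-(u' + i + 1 / 2)) * hab
  refine ⟨Q, fun z hz => ?_⟩
  obtain ⟨h3, h4, h5, h6⟩ := hout z hz
  have hn : 0 < n := by
    rcases Nat.eq_zero_or_pos n with h | h
    · have := h0 h
      linarith
    · exact h
  have hn1 : (1 : ℝ) ≤ n := by exact_mod_cast hn
  set w := al a b z - u' with hw
  have hw0 : 0 ≤ w := by linarith
  have hwn : w ≤ n := by linarith
  -- the index
  have key : ∃ i : Fin n, ((i : ℕ) : ℝ) ≤ w ∧ w ≤ ((i : ℕ) : ℝ) + 1 := by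
    by_cases hlt : ⌊w⌋₊ < n
    · exact ⟨⟨⌊w⌋₊, hlt⟩, Nat.floor_le hw0, (Nat.lt_floor_add_one w).le⟩
    · refine ⟨⟨n - 1, by omega⟩, ?_, ?_⟩
      · have h7 : (n : ℝ) ≤ w := (Nat.le_floor_iff hw0).1 (not_lt.1 hlt)
        have h8 : (((n - 1 : ℕ)) : ℝ) = n - 1 := by
          rw [Nat.cast_sub (by omega)]; simp
        simp only [h8]
        linarith
      · have h8 : (((n - 1 : ℕ)) : ℝ) = n - 1 := by
          rw [Nat.cast_sub (by omega)]; simp
        simp only [h8]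
        linarith
  obtain ⟨i, hi1, hi2⟩ := key
  refine Set.mem_iUnion.2 ⟨i, ?_⟩
  simp only [USq.C, Set.mem_ofPred_eq, hX, hY, abs_le]
  refine ⟨⟨?_, ?_⟩, ?_, ?_⟩ <;> linarith

private theorem rectw_vol_open (a b p u v : ℝ) (hab : a ^ 2 + b ^ 2 = 1) :
    volume {z : ℝ × ℝ | p < ax a b z ∧ ax a b z < p + 1 ∧ u < al a b z ∧ al a b z < v} =
      ENNReal.ofReal (v - u) := by
  set L := H282R3.SQ.linM a b (-b) a with hL
  have hdet : LinearMap.det L = 1 := by
    rw [hL, H282R3.SQ.linM_det]; linarith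
  have hC : {z : ℝ × ℝ | p < ax a b z ∧ ax a b z < p + 1 ∧ u < al a b z ∧ al a b z < v} =
      L ⁻¹' (Set.Ioo p (p + 1) ×ˢ Set.Ioo u v) := by
    ext z
    simp only [Set.mem_ofPred_eq, Set.mem_preimage, Set.mem_prod, Set.mem_Ioo, hL,
      H282R3.SQ.linM_apply, ax, al]
    tauto
  rw [hC, Measure.addHaar_preimage_linearMap volume (by rw [hdet]; exact one_ne_zero), hdet,
    Measure.volume_eq_prod, Measure.prod_prod, Real.volume_Ioo, Real.volume_Ioo]
  norm_num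

theorem rect_wc (a b p u v u' v' w : ℝ) (n : ℕ) (Ω : Set (ℝ × ℝ)) (hab : a ^ 2 + b ^ 2 = 1)
    (hin : ∀ z, p < ax a b z → ax a b z < p + 1 → u < al a b z → al a b z < v → z ∈ Ω)
    (hout : ∀ z ∈ Ω, p ≤ ax a b z ∧ ax a b z ≤ p + 1 ∧ u' ≤ al a b z ∧ al a b z ≤ v')
    (h1 : v' - u' ≤ n) (h0 : n = 0 → v' < u') (h2 : n ≤ v - u + w) (hw : 0 ≤ w) : Wc Ω w := by
  refine ⟨hw, n, rect_covs a b p u' v' n Ω hab hout h1 h0, ?_⟩
  have h3 : ENNReal.ofReal (v - u) ≤ volume Ω := by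
    rw [← rectw_vol_open a b p u v hab]
    exact measure_mono fun z hz => hin z hz.1 hz.2.1 hz.2.2.1 hz.2.2.2
  calc (n : ℝ≥0∞) = ENNReal.ofReal (n : ℝ) := (ENNReal.ofReal_natCast n).symm
    _ ≤ ENNReal.ofReal (v - u + w) := ENNReal.ofReal_le_ofReal h2
    _ ≤ ENNReal.ofReal (v - u) + ENNReal.ofReal w := ENNReal.ofReal_add_le
    _ ≤ volume Ω + ENNReal.ofReal w := by gcongr

theorem strip_wc3 (a b p f0 f1 g0 g1 : ℝ) (Ω : Set (ℝ × ℝ)) (hab : a ^ 2 + b ^ 2 = 1)
    (hf : |f1| ≤ 1) (hg : |g1| ≤ 1)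
    (hin : ∀ z, p < ax a b z → ax a b z < p + 1 → f0 + f1 * (ax a b z - p) < al a b z →
      al a b z < g0 + g1 * (ax a b z - p) → z ∈ Ω)
    (hout : ∀ z ∈ Ω, p ≤ ax a b z ∧ ax a b z ≤ p + 1 ∧ f0 + f1 * (ax a b z - p) ≤ al a b z ∧
      al a b z ≤ g0 + g1 * (ax a b z - p)) : Wc Ω 3 := by
  have key : ∀ c0 c1 s : ℝ, 0 ≤ s → s ≤ 1 → min c0 (c0 + c1) ≤ c0 + c1 * s ∧
      c0 + c1 * s ≤ max c0 (c0 + c1) := by
    intro c0 c1 s hs0 hs1
    rcases le_total 0 c1 with h | h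
    · rw [min_eq_left (by linarith), max_eq_right (by linarith)]
      constructor <;> nlinarith
    · rw [min_eq_right (by linarith), max_eq_left (by linarith)]
      constructor <;> nlinarith
  obtain ⟨hf1, hf2⟩ := abs_le.mp hf
  obtain ⟨hg1, hg2⟩ := abs_le.mp hg
  set v := min g0 (g0 + g1) with hv
  set u := max f0 (f0 + f1) with hu
  set u' := min f0 (f0 + f1) with hu'
  set v' := max g0 (g0 + g1) with hv'
  have huu : u ≤ u' + 1 := by
    rw [hu, hu']
    rcases le_total 0 f1 with h | h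
    · rw [min_eq_left (by linarith), max_eq_right (by linarith)]; linarith
    · rw [min_eq_right (by linarith), max_eq_left (by linarith)]; linarith
  have hvv : v' ≤ v + 1 := by
    rw [hv, hv']
    rcases le_total 0 g1 with h | h
    · rw [min_eq_left (by linarith), max_eq_right (by linarith)]; linarith
    · rw [min_eq_right (by linarith), max_eq_left (by linarith)]; linarith
  have hout' : ∀ z ∈ Ω, p ≤ ax a b z ∧ ax a b z ≤ p + 1 ∧ u' ≤ al a b z ∧ al a b z ≤ v' := by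
    intro z hz
    obtain ⟨h1, h2, h3, h4⟩ := hout z hz
    refine ⟨h1, h2, ?_, ?_⟩
    · exact ((key f0 f1 (ax a b z - p) (by linarith) (by linarith)).1).trans h3
    · exact h4.trans ((key g0 g1 (ax a b z - p) (by linarith) (by linarith)).2)
  -- the number of squares
  rcases lt_or_ge v' u' with hlt | hge
  · -- empty region
    have hemp : ∀ z ∈ Ω, False := by
      intro z hz
      obtain ⟨_, _, h3, h4⟩ := hout' z hz
      linarith
    refine ⟨by norm_num, 0, ⟨fun i => i.elim0, fun z hz => (hemp z hz).elim⟩, ?_⟩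
    simp
  · set n : ℕ := ⌊v' - u'⌋₊ + 1 with hn
    have hn1 : ((⌊v' - u'⌋₊ : ℕ) : ℝ) ≤ v' - u' := Nat.floor_le (by linarith)
    have hn2 : v' - u' < ((⌊v' - u'⌋₊ : ℕ) : ℝ) + 1 := Nat.lt_floor_add_one _
    have hnc : (n : ℝ) = ((⌊v' - u'⌋₊ : ℕ) : ℝ) + 1 := by rw [hn]; push_cast; ring
    rcases le_or_gt u v with huv | huv
    · refine rect_wc a b p u v u' v' 3 n Ω hab ?_ hout' (by linarith) (by omega)
        (by linarith) (by norm_num)
      intro z h1 h2 h3 h4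
      refine hin z h1 h2 ?_ ?_
      · exact lt_of_le_of_lt ((key f0 f1 (ax a b z - p) (by linarith) (by linarith)).2) h3
      · exact lt_of_lt_of_le h4 ((key g0 g1 (ax a b z - p) (by linarith) (by linarith)).1)
    · refine rect_wc a b p u u u' v' 3 n Ω hab ?_ hout' (by linarith) (by omega)
        (by linarith) (by norm_num)
      intro z h1 h2 h3 h4
      linarith

end H282R5.PD
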