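import Pool.Agent.H282R4.PU.Par
import Pool.Agent.H282R5.PD.Defs
import Pool.Agent.H282R5.PD.Par2
import Pool.Agent.H282R5.PD.Order
import Pool.Agent.H282R5.PD.RectW
import Pool.Agent.H282R3.SQ.Defs

namespace H282R5.PD

open MeasureTheory
open scoped ENNReal
open H282R3.SQ (USq)
open H282R4.PU (ax al t s tau kap eps phi Z SP Row T1 t_bounds tau_bounds kap_bounds phi_bounds
  eps_bounds)

/-- outer inequality -/
private theorem LCW_out {D T K τ E C A P i j n : ℝ} (hD : 100 ≤ D) (hT0 : 0 < T) (hT : T ≤ 1 / D)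
    (hK1 : 1 ≤ K) (hK : K ^ 2 = 1 + T ^ 2) (hτ : 0 < τ) (hτ1 : τ ≤ 1 / D ^ 2) (hτT : τ ≤ T)
    (hC2 : C ≤ -3 / D) (hj0 : 0 ≤ j) (hi0 : 0 ≤ i) (hj : i * D ≤ j)
    (hA : A = 1 / D + τ * i * D) (hn : n * E ≤ A) (hP : P ≤ T) :
    (1 + τ * T) * (n * (1 + E)) + K * (C - τ * j * K) + (1 + τ * T) * P ≤ (1 + τ * T) * n := by
  have hD0 : 0 < D := by linarith
  have hDp : 0 < 1 + τ * T := by positivity
  have hK3 : 1 + τ * T ≤ K ^ 2 := by
    rw [hK]
    have := mul_le_mul_of_nonneg_right hτT hT0.le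
    linarith [sq T]
  have h3 : (1 + τ * T) * (τ * (i * D)) ≤ K ^ 2 * (τ * j) := by
    have : τ * (i * D) ≤ τ * j := mul_le_mul_of_nonneg_left hj hτ.le
    exact mul_le_mul hK3 this (by positivity) (by positivity)
  have hCneg : C ≤ 0 := hC2.trans (by
    have : 0 < 3 / D := by positivity
    have e : -3 / D = -(3 / D) := by ring
    rw [e]; linarith)
  have h4 : K * C ≤ -3 / D := by
    have : K * C ≤ 1 * C := mul_le_mul_of_nonpos_right hK1 hCneg
    linarith
  have h5 : (1 + τ * T) * (n * E) ≤ (1 + τ * T) * (1 / D + τ * i * D) := by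
    rw [← hA]; exact mul_le_mul_of_nonneg_left hn hDp.le
  have h6 : (1 + τ * T) * P ≤ (1 + τ * T) * (1 / D) :=
    mul_le_mul_of_nonneg_left (hP.trans hT) hDp.le
  have hx : 0 < 1 / D := by positivity
  have hτT2 : τ * T ≤ 1 / 2 := by
    have h7 : τ ≤ 1 / 2 := hτ1.trans (one_div_le_one_div_of_le (by norm_num) (by nlinarith))
    have h8 : T ≤ 1 := hT.trans (by rw [div_le_one hD0]; linarith)
    nlinarith
  have h7 : (1 + τ * T) * (1 / D) ≤ 3 / 2 * (1 / D) := mul_le_mul_of_nonneg_right (by linarith) hx.le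
  have e3 : -3 / D = -(3 * (1 / D)) := by ring
  rw [e3] at h4
  have e1 : (1 + τ * T) * (n * (1 + E)) + K * (C - τ * j * K) + (1 + τ * T) * P =
    (1 + τ * T) * n + (1 + τ * T) * (n * E) + K * C - K ^ 2 * (τ * j) + (1 + τ * T) * P := by ring
  have e2 : (1 + τ * T) * (1 / D + τ * i * D) =
    (1 + τ * T) * (1 / D) + (1 + τ * T) * (τ * (i * D)) := by ring
  rw [e1]
  rw [e2] at h5
  linarith

/-- inner inequality -/
private theorem LCW_inn {D T K τ E C A i j n : ℝ} (hD : 100 ≤ D) (hT0 : 0 < T) (hT : T ≤ 1 / D)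
    (hK1 : 1 ≤ K) (hK : K ^ 2 = 1 + T ^ 2) (hK2 : K ≤ 1 + 1 / (2 * D ^ 2))
    (hτ : 0 < τ) (hτ1 : τ ≤ 1 / D ^ 2) (hC1 : -6 / D ≤ C)
    (hj0 : 0 ≤ j) (hi0 : 0 ≤ i) (hj : j ≤ (i + 1) * D) (hiD : i + 1 ≤ D)
    (hA : A = 1 / D + τ * i * D) (hn : A - E ≤ n * E) (hE0 : 0 ≤ E) (hE : E ≤ 1 / (2 * D ^ 2)) :
    (1 + τ * T) * (n + T) ≤
      (1 + τ * T) * (n * (1 + E)) + K * (C - τ * j * K) + (1 + τ * T) * (10 / D) := by
  have hD0 : 0 < D := by linarith
  have hDp : 0 < 1 + τ * T := by positivity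
  have hKsq : K ^ 2 ≤ 1 + 1 / D ^ 2 := by
    rw [hK]
    have : T ^ 2 ≤ (1 / D) ^ 2 := pow_le_pow_left₀ hT0.le hT 2
    rw [div_pow, one_pow] at this
    linarith
  -- everything in terms of x = 1/D
  set x : ℝ := 1 / D with hx
  have hx0 : 0 < x := by positivity
  have hxD : x * D = 1 := by rw [hx]; field_simp
  have hx1 : x ≤ 1 / 100 := one_div_le_one_div_of_le (by norm_num) hD
  have hx2 : 1 / D ^ 2 = x ^ 2 := by rw [hx, div_pow, one_pow]
  have hE' : E ≤ x ^ 2 := by
    refine hE.trans ?_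
    rw [← hx2]
    exact one_div_le_one_div_of_le (by positivity) (by nlinarith [sq_nonneg D])
  rw [hx2] at hτ1 hKsq
  have hK2' : K ≤ 1 + x ^ 2 := by
    refine hK2.trans ?_
    rw [← hx2]
    have : 1 / (2 * D ^ 2) ≤ 1 / D ^ 2 :=
      one_div_le_one_div_of_le (by positivity) (by nlinarith [sq_nonneg D])
    linarith
  have e6 : -6 / D = -(6 * x) := by rw [hx]; ring
  have e10 : 10 / D = 10 * x := by rw [hx]; ring
  rw [e6] at hC1
  rw [e10]
  -- K * C
  have h4 : -(6 * x) * (1 + x ^ 2) ≤ K * C := by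
    have h5 : K * (-(6 * x)) ≤ K * C := mul_le_mul_of_nonneg_left hC1 (by linarith)
    have h6 : (1 + x ^ 2) * (-(6 * x)) ≤ K * (-(6 * x)) :=
      mul_le_mul_of_nonpos_right hK2' (by linarith)
    linarith
  -- K^2 τ j
  have h7 : K ^ 2 * (τ * j) ≤ τ * i * D + x + x ^ 2 := by
    have h8 : τ * j ≤ τ * ((i + 1) * D) := mul_le_mul_of_nonneg_left hj hτ.le
    have h9 : K ^ 2 * (τ * j) ≤ (1 + x ^ 2) * (τ * ((i + 1) * D)) :=
      mul_le_mul hKsq h8 (by positivity) (by positivity)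
    have h10 : τ * D ≤ x := by
      have : τ * D ≤ x ^ 2 * D := mul_le_mul_of_nonneg_right hτ1 hD0.le
      have e : x ^ 2 * D = x * (x * D) := by ring
      rw [e, hxD, mul_one] at this
      exact this
    have h11 : τ * ((i + 1) * D) ≤ 1 := by
      have h12 : (i + 1) * D ≤ D * D := mul_le_mul_of_nonneg_right hiD hD0.le
      have h13 : τ * ((i + 1) * D) ≤ x ^ 2 * (D * D) :=
        mul_le_mul hτ1 h12 (by positivity) (by positivity)
      have e : x ^ 2 * (D * D) = (x * D) * (x * D) := by ring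
      rw [e, hxD, one_mul] at h13
      exact h13
    have h14 : x ^ 2 * (τ * ((i + 1) * D)) ≤ x ^ 2 * 1 :=
      mul_le_mul_of_nonneg_left h11 (by positivity)
    have e : (1 + x ^ 2) * (τ * ((i + 1) * D)) =
      τ * i * D + τ * D + x ^ 2 * (τ * ((i + 1) * D)) := by ring
    linarith
  have h15 : (1 + τ * T) * (n * E) ≥ (1 + τ * T) * (x + τ * i * D - E) := by
    rw [← hA]
    exact mul_le_mul_of_nonneg_left hn hDp.le
  have h16 : (1 + τ * T) * T ≤ (1 + τ * T) * x := mul_le_mul_of_nonneg_left hT hDp.le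
  -- (1+τT)(10 x - E + τ i D) ≥ 10 x - E + τ i D
  have h17 : 0 ≤ τ * T * (10 * x - E + τ * i * D) := by
    have h18 : E ≤ 10 * x := by nlinarith
    have h19 : 0 ≤ τ * i * D := by positivity
    exact mul_nonneg (by positivity) (by linarith)
  have e1 : (1 + τ * T) * (n * (1 + E)) + K * (C - τ * j * K) + (1 + τ * T) * (10 * x) =
    (1 + τ * T) * n + (1 + τ * T) * (n * E) + K * C - K ^ 2 * (τ * j) +
      (1 + τ * T) * (10 * x) := by ring
  have e2 : (1 + τ * T) * (n + T) = (1 + τ * T) * n + (1 + τ * T) * T := by ring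
  rw [e1, e2]
  have e3 : (1 + τ * T) * (x + τ * i * D - E) + (1 + τ * T) * (10 * x) - (1 + τ * T) * x =
    10 * x - E + τ * i * D + τ * T * (10 * x - E + τ * i * D) := by ring
  have h20 : x ^ 2 ≤ x / 100 := by nlinarith
  have h21 : x * x ^ 2 ≤ x / 100 := by nlinarith
  nlinarith

/-- the outer rectangle -/
private theorem LCW_geo_out {T K τ S P B0 j N : ℝ} (hT0 : 0 < T) (hK0 : 0 < K)
    (hK : K ^ 2 = 1 + T ^ 2) (hτ : 0 < τ) (hτT : τ ≤ T) (hP : (1 + τ * T) * P = T - τ)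
    (v : ℝ) (hv : (1 + τ * T) * v = K * N * S + (T - τ) * (B0 / K + j)) (z : ℝ × ℝ)
    (hz : z ∈ {z : ℝ × ℝ | j * K ≤ z.1 - B0 - T * z.2 ∧ z.1 - B0 - T * z.2 < (j + 1) * K ∧
      0 ≤ z.2 ∧ z.2 + τ * z.1 < N * S}) :
    B0 / K + j ≤ ax (1 / K) (-T / K) z ∧ ax (1 / K) (-T / K) z ≤ B0 / K + j + 1 ∧
      T * (B0 / K + j) ≤ al (1 / K) (-T / K) z ∧ al (1 / K) (-T / K) z ≤ v + P := by
  have hD : 0 < 1 + τ * T := by positivity
  have hX : ax (1 / K) (-T / K) z = (z.1 - T * z.2) / K := by unfold ax; ring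
  have hY : al (1 / K) (-T / K) z = (T * z.1 + z.2) / K := by unfold al; ring
  have e1 : z.1 - T * z.2 = K * ax (1 / K) (-T / K) z := by rw [hX]; field_simp
  have e2 : T * z.1 + z.2 = K * al (1 / K) (-T / K) z := by rw [hY]; field_simp
  have hKK : K * K = 1 + T ^ 2 := by rw [← hK]; ring
  have e3 : K * z.2 = al (1 / K) (-T / K) z - T * ax (1 / K) (-T / K) z := by
    have : K * (K * z.2) = K * (al (1 / K) (-T / K) z - T * ax (1 / K) (-T / K) z) := by
      linear_combination z.2 * hKK + e2 - T * e1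
    exact mul_left_cancel₀ hK0.ne' this
  have e4 : K * z.1 = ax (1 / K) (-T / K) z + T * al (1 / K) (-T / K) z := by
    have : K * (K * z.1) = K * (ax (1 / K) (-T / K) z + T * al (1 / K) (-T / K) z) := by
      linear_combination z.1 * hKK + e1 + T * e2
    exact mul_left_cancel₀ hK0.ne' this
  obtain ⟨h1, h2, h3, h4⟩ := hz
  set p : ℝ := B0 / K + j with hp
  have hKp : K * p = B0 + j * K := by rw [hp]; field_simp
  generalize ax (1 / K) (-T / K) z = X at *
  generalize al (1 / K) (-T / K) z = Y at *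
  have g1 : K * p ≤ K * X := by linarith
  have g2 : K * X ≤ K * (p + 1) := by linarith
  have g1' : p ≤ X := le_of_mul_le_mul_left g1 hK0
  have g2' : X ≤ p + 1 := le_of_mul_le_mul_left g2 hK0
  refine ⟨g1', g2', ?_, ?_⟩
  · have h5 : 0 ≤ K * z.2 := by positivity
    rw [e3] at h5
    have g3 : T * p ≤ T * X := mul_le_mul_of_nonneg_left g1' hT0.le
    linarith
  · have h7 : K * (z.2 + τ * z.1) ≤ K * (N * S) := mul_le_mul_of_nonneg_left h4.le hK0.le
    have h8 : K * (z.2 + τ * z.1) = (1 + τ * T) * Y - (T - τ) * X := by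
      linear_combination e3 + τ * e4
    have h6 : (T - τ) * X ≤ (T - τ) * (p + 1) := mul_le_mul_of_nonneg_left g2' (by linarith)
    have h9 : (1 + τ * T) * Y ≤ (1 + τ * T) * (v + P) := by
      rw [mul_add, hv, hP]; linarith
    exact le_of_mul_le_mul_left h9 hD

/-- the inner rectangle -/
private theorem LCW_geo_in {T K τ S B0 j N : ℝ} (hT0 : 0 < T) (hK0 : 0 < K)
    (hK : K ^ 2 = 1 + T ^ 2) (hτ : 0 < τ) (hτT : τ ≤ T)
    (v : ℝ) (hv : (1 + τ * T) * v = K * N * S + (T - τ) * (B0 / K + j)) (z : ℝ × ℝ)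
    (h1 : B0 / K + j < ax (1 / K) (-T / K) z) (h2 : ax (1 / K) (-T / K) z < B0 / K + j + 1)
    (h3 : T * (B0 / K + j + 1) < al (1 / K) (-T / K) z) (h4 : al (1 / K) (-T / K) z < v) :
    z ∈ {z : ℝ × ℝ | j * K ≤ z.1 - B0 - T * z.2 ∧ z.1 - B0 - T * z.2 < (j + 1) * K ∧
      0 ≤ z.2 ∧ z.2 + τ * z.1 < N * S} := by
  have hD : 0 < 1 + τ * T := by positivity
  have hX : ax (1 / K) (-T / K) z = (z.1 - T * z.2) / K := by unfold ax; ring
  have hY : al (1 / K) (-T / K) z = (T * z.1 + z.2) / K := by unfold al; ring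
  have e1 : z.1 - T * z.2 = K * ax (1 / K) (-T / K) z := by rw [hX]; field_simp
  have e2 : T * z.1 + z.2 = K * al (1 / K) (-T / K) z := by rw [hY]; field_simp
  have hKK : K * K = 1 + T ^ 2 := by rw [← hK]; ring
  have e3 : K * z.2 = al (1 / K) (-T / K) z - T * ax (1 / K) (-T / K) z := by
    have : K * (K * z.2) = K * (al (1 / K) (-T / K) z - T * ax (1 / K) (-T / K) z) := by
      linear_combination z.2 * hKK + e2 - T * e1
    exact mul_left_cancel₀ hK0.ne' this
  have e4 : K * z.1 = ax (1 / K) (-T / K) z + T * al (1 / K) (-T / K) z := by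
    have : K * (K * z.1) = K * (ax (1 / K) (-T / K) z + T * al (1 / K) (-T / K) z) := by
      linear_combination z.1 * hKK + e1 + T * e2
    exact mul_left_cancel₀ hK0.ne' this
  set p : ℝ := B0 / K + j with hp
  have hKp : K * p = B0 + j * K := by rw [hp]; field_simp
  generalize ax (1 / K) (-T / K) z = X at *
  generalize al (1 / K) (-T / K) z = Y at *
  have g1 : K * p < K * X := mul_lt_mul_of_pos_left h1 hK0
  have g2 : K * X < K * (p + 1) := mul_lt_mul_of_pos_left h2 hK0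
  refine ⟨by linarith, by linarith, ?_, ?_⟩
  · have g3 : T * X < T * (p + 1) := mul_lt_mul_of_pos_left h2 hT0
    have : 0 < K * z.2 := by rw [e3]; linarith
    exact ((mul_pos_iff_of_pos_left hK0).1 this).le
  · have h5 : (1 + τ * T) * Y < (1 + τ * T) * v := mul_lt_mul_of_pos_left h4 hD
    rw [hv] at h5
    have h6 : (T - τ) * p ≤ (T - τ) * X := mul_le_mul_of_nonneg_left h1.le (by linarith)
    have h7 : K * (z.2 + τ * z.1) < K * (N * S) := by
      have : K * (z.2 + τ * z.1) = (1 + τ * T) * Y - (T - τ) * X := by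
        linear_combination e3 + τ * e4
      rw [this]; linarith
    exact lt_of_mul_lt_mul_left h7 hK0.le

/-- all the data for the column -/
private theorem LCW_main {d : ℕ} (hd : 100 ≤ d) {q j : ℕ} (hq : q < d) (hj : j < d ^ 2) :
    ∃ p v P : ℝ, (1 / kap d q) ^ 2 + (-tau d q / kap d q) ^ 2 = 1 ∧
      (∀ z ∈ LC0 d q j, p ≤ ax (1 / kap d q) (-tau d q / kap d q) z ∧
        ax (1 / kap d q) (-tau d q / kap d q) z ≤ p + 1 ∧
        tau d q * p ≤ al (1 / kap d q) (-tau d q / kap d q) z ∧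
        al (1 / kap d q) (-tau d q / kap d q) z ≤ v + P) ∧
      (∀ z, p < ax (1 / kap d q) (-tau d q / kap d q) z →
        ax (1 / kap d q) (-tau d q / kap d q) z < p + 1 →
        tau d q * (p + 1) < al (1 / kap d q) (-tau d q / kap d q) z →
        al (1 / kap d q) (-tau d q / kap d q) z < v → z ∈ LC0 d q j) ∧
      v + P - tau d q * p ≤ (r d q (j / d) : ℕ) ∧
      ((r d q (j / d) : ℕ) : ℝ) ≤ v - tau d q * (p + 1) + 10 / d := by
  have hdR : (100 : ℝ) ≤ d := by exact_mod_cast hd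
  have hd0 : (0 : ℝ) < d := by linarith
  obtain ⟨ht0, ht1, ht2⟩ := t_bounds hd
  obtain ⟨hta1, hta2⟩ := tau_bounds hd hq.le
  obtain ⟨hk1, hk2, hk3⟩ := kap_bounds hd hq.le
  obtain ⟨hp1, hp2⟩ := phi_bounds hd hq.le
  obtain ⟨he0, he00, he1, he2⟩ := eps_bounds hd hq.le
  obtain ⟨hc1, hc2⟩ := cc_bounds hd hq.le
  obtain ⟨hr1, hr2⟩ := r_bounds (i := j / d) hd hq.le
  have hepsdef : eps d q = kap d q * s d / (1 + t d * tau d q) - 1 := rfl
  have hphidef : phi d q = (tau d q - t d) / (1 + t d * tau d q) := rfl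
  have hccdef : cc d q = q * s d - t d * B d q := rfl
  have haadef : aa d (j / d) = 1 / d + t d * ((j / d : ℕ) : ℝ) * d := rfl
  have hdN : 0 < d := by omega
  have hj1 : (j : ℝ) ≤ (((j / d : ℕ) : ℝ) + 1) * d := by
    have h := Nat.lt_div_mul_add (a := j) hdN
    have h2 : j ≤ (j / d + 1) * d := by nlinarith [h]
    exact_mod_cast h2
  have hj2 : ((j / d : ℕ) : ℝ) * d ≤ j := by exact_mod_cast Nat.div_mul_le_self j d
  have hj3 : ((j / d : ℕ) : ℝ) + 1 ≤ d := by
    have h : j / d < d := Nat.div_lt_of_lt_mul (by nlinarith [hj])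
    exact_mod_cast h
  have hT0 : 0 < tau d q := lt_of_lt_of_le (by positivity) hta1
  have hK0 : 0 < kap d q := by linarith
  have hD : 0 < 1 + t d * tau d q := by positivity
  have htT : t d ≤ tau d q := by
    refine le_trans ht1 (le_trans ?_ hta1)
    rw [div_le_div_iff₀ (by positivity) (by positivity)]
    nlinarith
  have heps0 : 0 ≤ eps d q := le_trans (by positivity) he1
  have hden : (1 + t d * tau d q) * phi d q = tau d q - t d := by
    rw [hphidef]; field_simp
  have hden2 : (1 + t d * tau d q) * (eps d q + 1) = kap d q * s d := by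
    rw [hepsdef]; field_simp; ring
  have hKp : kap d q * (B d q / kap d q + j) = B d q + j * kap d q := by field_simp
  have hvm : (1 + t d * tau d q) * ((kap d q * ((q + r d q (j / d) : ℕ) : ℝ) * s d +
      (tau d q - t d) * (B d q / kap d q + j)) / (1 + t d * tau d q)) =
      kap d q * ((q + r d q (j / d) : ℕ) : ℝ) * s d +
      (tau d q - t d) * (B d q / kap d q + j) := by
    field_simp
  generalize (kap d q * ((q + r d q (j / d) : ℕ) : ℝ) * s d +
      (tau d q - t d) * (B d q / kap d q + j)) / (1 + t d * tau d q) = v at hvm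
  have key : (1 + t d * tau d q) * (v - tau d q * (B d q / kap d q + j)) =
      (1 + t d * tau d q) * (r d q (j / d) * (1 + eps d q)) +
        kap d q * (cc d q - t d * j * kap d q) := by
    have h1 : (1 + t d * tau d q) * (r d q (j / d) * (1 + eps d q)) =
        r d q (j / d) * (kap d q * s d) := by rw [← hden2]; ring
    have h2 : (1 + t d * tau d q) * (v - tau d q * (B d q / kap d q + j)) =
      (1 + t d * tau d q) * v -
        (1 + t d * tau d q) * (tau d q * (B d q / kap d q + j)) := by ring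
    rw [h2, hvm, h1, hccdef]
    push_cast
    have h3 : (tau d q - t d) * (B d q / kap d q + j) -
      (1 + t d * tau d q) * (tau d q * (B d q / kap d q + j)) =
        - t d * (kap d q ^ 2 * (B d q / kap d q + j)) := by rw [hk3]; ring
    have h4 : kap d q ^ 2 * (B d q / kap d q + j) = kap d q * (B d q + j * kap d q) := by
      rw [← hKp]; ring
    rw [h4] at h3
    linear_combination h3
  refine ⟨B d q / kap d q + j, v, phi d q, ?_, ?_, ?_, ?_, ?_⟩
  · rw [div_pow, div_pow, ← add_div, hk3, div_eq_one_iff_eq (by positivity)]; ring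
  · intro z hz
    exact LCW_geo_out hT0 hK0 hk3 ht0 htT hden v hvm z hz
  · intro z h1 h2 h3 h4
    exact LCW_geo_in hT0 hK0 hk3 ht0 htT v hvm z h1 h2 h3 h4
  · have h1 := LCW_out hdR hT0 hta2 hk1.le hk3 ht0 ht1 htT hc2 (Nat.cast_nonneg j)
      (Nat.cast_nonneg (j / d)) hj2 haadef hr2 hp2
    rw [← key, ← mul_add] at h1
    have h2 := le_of_mul_le_mul_left h1 hD
    linarith
  · have h1 := LCW_inn hdR hT0 hta2 hk1.le hk3 hk2 ht0 ht1 hc1 (Nat.cast_nonneg j)
      (Nat.cast_nonneg (j / d)) hj1 hj3 haadef hr1 heps0 he2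
    rw [← key, ← mul_add] at h1
    have h2 := le_of_mul_le_mul_left h1 hD
    linarith

theorem LC_wc {d : ℕ} (hd : 100 ≤ d) {q j : ℕ} (hq : q < d) (hj : j < d ^ 2) (h : 1 ≤ j ∨ q = 0) :
    Wc (LC d q j) (10 / d) := by
  have hset : LC d q j = LC0 d q j := by
    unfold LC
    refine Set.inter_eq_left.2 ?_
    intro z hz hq1
    rcases h with h | h
    · exact LC_right hd hq1 hq hj h hz
    · omega
  rw [hset]
  obtain ⟨p, v, P, hab, hout, hin, h1, h2⟩ := LCW_main hd hq hj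
  have hr := r_ge (i := j / d) hd hq.le
  refine rect_wc _ _ p (tau d q * (p + 1)) v (tau d q * p) (v + P) (10 / d) (r d q (j / d)) _ hab
    hin hout h1 ?_ h2 (by positivity)
  intro h0
  omega

theorem LC_wc0 {d : ℕ} (hd : 100 ≤ d) {q : ℕ} (hq : q < d) : Wc (LC d q 0) (6 * d) := by
  have hd0 : 0 < d ^ 2 := by positivity
  obtain ⟨p, v, P, hab, hout, hin, h1, h2⟩ := LCW_main hd hq hd0
  have hr := r_ge (i := 0 / d) hd hq.le
  have hr6 : r d q (0 / d) ≤ 6 * d := by
    rw [Nat.zero_div]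
    exact r_zero_le hd hq.le
  refine ⟨by positivity, r d q (0 / d), ?_, ?_⟩
  · refine rect_covs _ _ p (tau d q * p) (v + P) (r d q (0 / d)) _ hab ?_ h1 ?_
    · intro z hz
      exact hout z hz.1
    · intro h0
      omega
  · have h3 : ((r d q (0 / d) : ℕ) : ℝ≥0∞) ≤ ENNReal.ofReal (6 * d) := by
      rw [← ENNReal.ofReal_natCast]
      refine ENNReal.ofReal_le_ofReal ?_
      exact_mod_cast hr6
    exact h3.trans le_add_self

end H282R5.PD
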