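import Pool.Agent.H282R5.PD.Defs
import Pool.Agent.H282R5.PD.RectW
import Pool.Agent.H282R4.PU.Par

/-! Module RowW (helper311). -/

namespace H282R5.PD

open MeasureTheory
open scoped ENNReal
open H282R3.SQ (USq)
open H282R4.PU (ax al t s tau kap eps phi Z SP Row T1 t_bounds s_bounds)

theorem row_wc {d M R : ℕ} (hd : 100 ≤ d) {A : ℝ} (hA : 0 ≤ A) (h1 : A * s d + t d ≤ M)
    (h2 : M ≤ A * s d + t d + 1 / (d : ℝ) ^ 2) :
    Wc {z : ℝ × ℝ | 0 ≤ z.1 ∧ z.1 < A ∧ z ∈ Row d R} (4 / (d : ℝ) ^ 2) := by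
  obtain ⟨ht0, ht1, -⟩ := t_bounds hd
  obtain ⟨hs1, -, hss, -⟩ := s_bounds hd
  have hs0 : 0 < s d := by linarith
  have hsne : s d ≠ 0 := hs0.ne'
  -- coordinates
  have hax : ∀ z : ℝ × ℝ, ax (t d / s d) (1 / s d) z = (z.2 + t d * z.1) / s d := by
    intro z; unfold ax; field_simp; ring
  have hal : ∀ z : ℝ × ℝ, al (t d / s d) (1 / s d) z = (t d * z.2 - z.1) / s d := by
    intro z; unfold al; field_simp; ring
  -- `z.1 * s = t X - Y`
  have hz1 : ∀ z : ℝ × ℝ, t d * ax (t d / s d) (1 / s d) z - al (t d / s d) (1 / s d) z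
      = z.1 * s d := by
    intro z
    rw [hax, hal]
    field_simp
    rw [hss]
    ring
  refine rect_wc (t d / s d) (1 / s d) R (t d * (R + 1) - s d * A) (t d * R)
    (t d * R - s d * A) (t d * (R + 1)) (4 / (d : ℝ) ^ 2) M _ ?_ ?_ ?_ ?_ ?_ ?_ (by positivity)
  · rw [div_pow, div_pow, ← add_div, hss, one_pow, add_comm]
    exact div_self (by positivity)
  · intro z hz hz' hu hv
    have h3 := hz1 z
    refine ⟨?_, ?_, ?_, ?_⟩
    · by_contra hneg
      push Not at hneg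
      have : z.1 * s d < 0 := mul_neg_of_neg_of_pos hneg hs0
      nlinarith
    · by_contra hneg
      push Not at hneg
      have : A * s d ≤ z.1 * s d := mul_le_mul_of_nonneg_right hneg hs0.le
      nlinarith
    · rw [hax, lt_div_iff₀ hs0] at hz
      linarith
    · rw [hax, div_lt_iff₀ hs0] at hz'
      linarith
  · rintro z ⟨ha, hb, hc, he⟩
    have h3 := hz1 z
    have h4 : (R : ℝ) ≤ ax (t d / s d) (1 / s d) z := by
      rw [hax, le_div_iff₀ hs0]; exact hc
    have h5 : ax (t d / s d) (1 / s d) z ≤ R + 1 := by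
      rw [hax, div_le_iff₀ hs0]; exact he.le
    have h6 : 0 ≤ z.1 * s d := mul_nonneg ha hs0.le
    have h7 : z.1 * s d ≤ A * s d := mul_le_mul_of_nonneg_right hb.le hs0.le
    refine ⟨h4, h5, ?_, ?_⟩
    · nlinarith
    · nlinarith
  · nlinarith
  · intro hM
    exfalso
    rw [hM] at h1
    have : 0 ≤ A * s d := mul_nonneg hA hs0.le
    push_cast at h1
    linarith
  · have h8 : (4 : ℝ) / (d : ℝ) ^ 2 = 4 * (1 / (d : ℝ) ^ 2) := by ring
    have h9 : 0 ≤ 1 / (d : ℝ) ^ 2 := by positivity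
    rw [h8]
    nlinarith

end H282R5.PD
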