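import Pool.Agent.H282R5.PD.Defs
import Pool.Agent.H282R4.PU.Par
import Pool.Agent.H282R5.PD.Par2
import Pool.Agent.H282R5.PD.RectW
import Pool.Agent.H282R5.PD.Order

/-! SegAny: covering of an arbitrary segment (helper778 for helper282). -/

namespace H282R5.PD

open MeasureTheory
open scoped ENNReal
open H282R3.SQ (USq)
open H282R4.PU (ax al t s tau kap eps phi Z SP Row T1 s_bounds t_bounds phi_bounds tau_bounds
  kap_bounds)

private theorem segAny_frame (a b : ℝ) (hab : a ^ 2 + b ^ 2 = 1) (z : ℝ × ℝ) :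
    z.1 = a * ax a b z - b * al a b z ∧ z.2 = b * ax a b z + a * al a b z := by
  unfold ax al
  constructor
  · linear_combination (-z.1) * hab
  · linear_combination (-z.2) * hab

/-- A condition `x < K + τ y` in the frame. -/
private theorem segAny_right (t s τ K : ℝ) (hs : 0 < s) (hs2 : s ^ 2 = 1 + t ^ 2)
    (h1 : 0 < 1 + t * τ) (p : ℝ) (z : ℝ × ℝ) :
    z.1 < K + τ * z.2 ↔
      (-(s * K) / (1 + t * τ) - (τ - t) / (1 + t * τ) * p) +
        (-((τ - t) / (1 + t * τ))) * (ax (t / s) (1 / s) z - p) < al (t / s) (1 / s) z := by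
  have hs0 := hs.ne'
  have h10 := h1.ne'
  have e : al (t / s) (1 / s) z - ((-(s * K) / (1 + t * τ) - (τ - t) / (1 + t * τ) * p) +
        (-((τ - t) / (1 + t * τ))) * (ax (t / s) (1 / s) z - p)) =
      s / (1 + t * τ) * (K + τ * z.2 - z.1) := by
    unfold ax al
    field_simp
    linear_combination (z.1 - τ * z.2) * hs2
  have hpos : 0 < s / (1 + t * τ) := by positivity
  constructor
  · intro h
    have : 0 < s / (1 + t * τ) * (K + τ * z.2 - z.1) := mul_pos hpos (by linarith)
    linarith
  · intro h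
    have h2 : 0 < s / (1 + t * τ) * (K + τ * z.2 - z.1) := by linarith
    have := (mul_pos_iff_of_pos_left hpos).mp h2
    linarith

private theorem segAny_row (d : ℕ) (hd : 100 ≤ d) (R : ℕ) (z : ℝ × ℝ) :
    z ∈ Row d R ↔ (R : ℝ) ≤ ax (t d / s d) (1 / s d) z ∧
      ax (t d / s d) (1 / s d) z < R + 1 := by
  have hs := (s_bounds hd).1
  have hs0 : 0 < s d := by linarith
  have e : ax (t d / s d) (1 / s d) z = (z.2 + t d * z.1) / s d := by
    unfold ax
    field_simp
    ring
  rw [e, le_div_iff₀ hs0, div_lt_iff₀ hs0]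
  rfl

theorem seg_any {d H : ℕ} (hd : 100 ≤ d) {q R : ℕ} (hq : q ≤ d) (h : Active d H q R)
    (h0 : ¬ (q = 0 ∧ R = 0)) : Wc (Seg d H q R) 3 := by
  obtain ⟨hs1, -, hs2, -⟩ := s_bounds hd
  obtain ⟨ht0, ht1, -⟩ := t_bounds hd
  have hs0 : 0 < s d := by linarith
  have hd' : (100 : ℝ) ≤ d := by exact_mod_cast hd
  have hdinv : 1 / (d : ℝ) ≤ 1 := by
    rw [div_le_one (by linarith)]; linarith
  have ht1' : t d ≤ 1 := by
    refine ht1.trans ?_
    rw [div_le_one (by positivity)]
    nlinarith
  have hab : (t d / s d) ^ 2 + (1 / s d) ^ 2 = 1 := by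
    field_simp
    linarith
  have hslope : ∀ q' : ℕ, q' ≤ d → |(-((tau d q' - t d) / (1 + t d * tau d q')))| ≤ 1 := by
    intro q' hq'
    have h1 := phi_bounds hd hq'
    have h2 := tau_bounds hd hq'
    unfold phi at h1
    have h3 : 0 ≤ 7 / (10 * (d : ℝ)) := by positivity
    rw [abs_neg, abs_le]
    constructor <;> linarith
  have htau : ∀ q' : ℕ, q' ≤ d → 0 < tau d q' := by
    intro q' hq'
    have h2 := tau_bounds hd hq'
    have h3 : 0 < 3 / (4 * (d : ℝ)) := by positivity
    linarith
  -- the right condition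
  obtain ⟨f0, f1, hf1, hf⟩ : ∃ f0 f1 : ℝ, |f1| ≤ 1 ∧ ∀ z : ℝ × ℝ, z ∈ RightC d q R ↔
      f0 + f1 * (ax (t d / s d) (1 / s d) z - R) < al (t d / s d) (1 / s d) z := by
    rcases hq.lt_or_eq with hlt | heq
    · refine ⟨(-(s d * (B d q + kap d q * d * gg d q (R - q))) / (1 + t d * tau d q) -
          (tau d q - t d) / (1 + t d * tau d q) * R), _, hslope q hq, fun z => ?_⟩
      · rw [← segAny_right (t d) (s d) (tau d q) (B d q + kap d q * d * gg d q (R - q)) hs0 hs2
          (by have := htau q hq; positivity) R z]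
        constructor
        · intro hz
          exact hz.1 hlt
        · intro hz
          exact ⟨fun _ => hz, fun h' => absurd h' hlt.ne⟩
    · refine ⟨-(s d * Z d) / (1 + t d * 0) - (0 - t d) / (1 + t d * 0) * R,
        -((0 - t d) / (1 + t d * 0)), ?_, fun z => ?_⟩
      · have : -((0 - t d) / (1 + t d * 0)) = t d := by simp
        rw [this, abs_le]
        constructor <;> linarith
      · rw [← segAny_right (t d) (s d) 0 (Z d) hs0 hs2 (by simp) R z]
        constructor
        · intro hz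
          have := hz.2 heq
          simpa using this
        · intro hz
          exact ⟨fun h' => absurd heq h'.ne, fun _ => by simpa using hz⟩
  -- the left condition
  obtain ⟨g0, g1, hg1, hg⟩ : ∃ g0 g1 : ℝ, |g1| ≤ 1 ∧ ∀ z : ℝ × ℝ, z ∈ Row d R →
      (z ∈ LeftC d H q R ↔
      al (t d / s d) (1 / s d) z ≤ g0 + g1 * (ax (t d / s d) (1 / s d) z - R)) := by
    by_cases hL : 1 ≤ q ∧ Active d H (q - 1) R
    · have hq1 : q - 1 ≤ d := by omega
      refine ⟨(-(s d * (B d (q - 1) + (d : ℝ) ^ 2 * kap d (q - 1))) / (1 + t d * tau d (q - 1)) -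
          (tau d (q - 1) - t d) / (1 + t d * tau d (q - 1)) * R), _, hslope (q - 1) hq1,
          fun z hz => ?_⟩
      · have hτ := htau (q - 1) hq1
        have key := segAny_right (t d) (s d) (tau d (q - 1))
          (B d (q - 1) + (d : ℝ) ^ 2 * kap d (q - 1)) hs0 hs2 (by positivity) R z
        rw [← not_lt, ← key, not_lt]
        constructor
        · intro h'
          exact h'.1 hL
        · intro h'
          refine ⟨fun _ => h', ?_⟩
          have hB := (B_bounds hd hq1).1
          have hk := (kap_bounds hd hq1).1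
          have hz1 := hz.1
          have hB0 : 0 ≤ B d (q - 1) := le_trans (by positivity) hB
          have h2 : 0 ≤ (d : ℝ) ^ 2 * kap d (q - 1) := by positivity
          have h3 : tau d (q - 1) * (R * s d - t d * z.1) ≤ tau d (q - 1) * z.2 :=
            mul_le_mul_of_nonneg_left (by linarith) hτ.le
          have h4 : 0 ≤ tau d (q - 1) * (R * s d) := by positivity
          have h5 : 0 ≤ z.1 * (1 + t d * tau d (q - 1)) := by nlinarith
          exact nonneg_of_mul_nonneg_left h5 (by positivity)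
    · refine ⟨-(s d * 0) / (1 + t d * 0) - (0 - t d) / (1 + t d * 0) * R,
        -((0 - t d) / (1 + t d * 0)), ?_, fun z _ => ?_⟩
      · have : -((0 - t d) / (1 + t d * 0)) = t d := by simp
        rw [this, abs_le]
        constructor <;> linarith
      · have key := segAny_right (t d) (s d) 0 0 hs0 hs2 (by simp) R z
        rw [← not_lt, ← key, not_lt]
        constructor
        · intro h'
          have := h'.2
          simpa using this
        · intro h'
          exact ⟨fun h'' => absurd h'' hL, by simpa using h'⟩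
  refine strip_wc3 (t d / s d) (1 / s d) R f0 f1 g0 g1 (Seg d H q R) hab hf1 hg1 ?_ ?_
  · intro z h1 h2 h3 h4
    have hrow : z ∈ Row d R := (segAny_row d hd R z).mpr ⟨h1.le, h2⟩
    have hz : z ∈ Row d R ∩ LeftC d H q R ∩ RightC d q R :=
      ⟨⟨hrow, (hg z hrow).mpr h4.le⟩, (hf z).mpr h3⟩
    exact ⟨hz, seg_floor hd hq h h0 hz⟩
  · rintro z ⟨⟨⟨hrow, hl⟩, hr⟩, -⟩
    have h1 := (segAny_row d hd R z).mp hrow
    exact ⟨h1.1, h1.2.le, ((hf z).mp hr).le, (hg z hrow).mp hl⟩

theorem seg_00 {d H : ℕ} (hd : 100 ≤ d) (h : Active d H 0 0) : Wc (Seg d H 0 0) (8 * d) := by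
  obtain ⟨hs1, hsu, hs2, -⟩ := s_bounds hd
  obtain ⟨ht0, ht1, ht2⟩ := t_bounds hd
  have hs0 : 0 < s d := by linarith
  have hd' : (100 : ℝ) ≤ d := by exact_mod_cast hd
  have hd0 : (0 : ℝ) < d := by linarith
  have hab : (t d / s d) ^ 2 + (1 / s d) ^ 2 = 1 := by
    field_simp
    linarith
  have ht1' : t d ≤ 1 / 10000 := by
    refine ht1.trans ?_
    rw [div_le_div_iff₀ (by positivity) (by norm_num)]
    nlinarith
  have hs3 : s d ≤ 2 := by nlinarith
  have hgg : gg d 0 0 = 0 := by
    unfold gg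
    rw [Finset.card_eq_zero, Finset.filter_eq_empty_iff]
    intro i hi hr
    have := r_ge hd (q := 0) (i := i) (Nat.zero_le d)
    omega
  have hB : B d 0 = 6 * d + 12 / d := by
    have h1 : t d * ((d : ℝ) ^ 2 + 2) = 1 := ht2
    unfold B
    rw [div_eq_iff (by positivity)]
    have h2 : (6 * (d : ℝ) + 12 / d) * (d * t d) = 6 * (t d * ((d : ℝ) ^ 2 + 2)) := by
      field_simp
      ring
    rw [h2, h1]; norm_num
  have hτ := tau_bounds hd (q := 0) (Nat.zero_le d)
  have hτ1 : tau d 0 ≤ 1 / 100 := hτ.2.trans (one_div_le_one_div_of_le (by norm_num) hd')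
  have hτ0 : 0 < tau d 0 := lt_of_lt_of_le (by positivity) hτ.1
  have h12 : 12 / (d : ℝ) ≤ 1 := by
    rw [div_le_one hd0]; linarith
  refine ⟨by positivity, 8 * d, ?_, ?_⟩
  · refine rect_covs (t d / s d) (1 / s d) 0 (-(B d 0 + 1)) 1 (8 * d) _ hab ?_ ?_ ?_
    · rintro z ⟨⟨⟨⟨hr1, hr2⟩, hl, hl0⟩, hr, -⟩, hz2⟩
      have hz2' : 0 ≤ z.2 := hz2
      have hr' := hr (by omega)
      rw [Nat.sub_zero, hgg] at hr'
      have hax : ax (t d / s d) (1 / s d) z = (z.2 + t d * z.1) / s d := by
        unfold ax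
        field_simp
        ring
      have hal : al (t d / s d) (1 / s d) z = (t d * z.2 - z.1) / s d := by
        unfold al
        field_simp
        ring
      have hz2s : z.2 < 2 := by
        have : 0 ≤ t d * z.1 := by positivity
        push_cast at hr2
        linarith
      push_cast at hr1 hr2 hr'
      rw [hax, hal]
      refine ⟨?_, ?_, ?_, ?_⟩
      · rw [le_div_iff₀ hs0]; linarith
      · rw [div_le_iff₀ hs0]; linarith
      · rw [le_div_iff₀ hs0]
        have h3 : tau d 0 * z.2 ≤ 1 := by nlinarith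
        have h4 : z.1 ≤ B d 0 + 1 := by linarith
        have h5 : (B d 0 + 1) * 1 ≤ (B d 0 + 1) * s d :=
          mul_le_mul_of_nonneg_left hs1.le (by linarith)
        have h6 : 0 ≤ t d * z.2 := by positivity
        linarith
      · rw [div_le_iff₀ hs0]
        have h6 : t d * z.2 ≤ 1 := by nlinarith
        linarith
    · push_cast
      rw [hB]
      linarith
    · intro h0
      omega
  · rw [show (8 * (d : ℝ)) = ((8 * d : ℕ) : ℝ) by push_cast; ring, ENNReal.ofReal_natCast]
    exact le_add_self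

end H282R5.PD
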