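import Mathlib
import Pool.Agent.H282R5.PD.Defs
import Pool.Agent.H282R4.PU.Par
import Pool.Agent.H282R5.PD.Par2
import Pool.Agent.H282R5.PD.RectW
import Pool.Agent.H282R5.PD.Order

namespace H282R5.PD

open MeasureTheory
open scoped ENNReal
open H282R3.SQ (USq)
open H282R4.PU (ax al t s tau kap eps phi Z SP Row T1 t_bounds s_bounds tau_bounds eps_bounds
  phi_bounds kap_bounds)

/-- bounds for the normalised difference of the tangents -/
private theorem segShort_De {u T De A C q4 : ℝ} (hu : 0 < u) (hu' : u ≤ 1 / 100)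
    (hT4p : 0 < T) (hA : 0 < A) (hA' : A ≤ u ^ 3) (hC : 0 < C) (hC' : C ≤ u ^ 3)
    (hq0 : 0 ≤ q4) (hq : q4 ≤ u ^ 4)
    (hD : De * ((1 + A) * (1 + C)) = T / 4 * (1 + q4)) :
    0 ≤ De ∧ De ≤ T / 4 * (1 + u ^ 4) ∧ T / 4 * (1 - 2 * u ^ 3) ≤ De := by
  have hu3 : 0 < u ^ 3 := by positivity
  have hu3' : u ^ 3 ≤ 1 / 100 := by
    have : u ^ 3 ≤ (1 / 100) ^ 3 := pow_le_pow_left₀ hu.le hu' 3
    linarith
  have hP1 : 1 ≤ (1 + A) * (1 + C) := by nlinarith [mul_pos hA hC]
  have hP2 : (1 + A) * (1 + C) ≤ (1 + u ^ 3) * (1 + u ^ 3) := by gcongr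
  have hR : 0 ≤ T / 4 * (1 + q4) := by positivity
  have hDe0 : 0 ≤ De := by
    by_contra h
    push Not at h
    have : De * ((1 + A) * (1 + C)) < 0 := mul_neg_of_neg_of_pos h (by positivity)
    linarith
  refine ⟨hDe0, ?_, ?_⟩
  · have h1 : T / 4 * (1 + q4) ≤ T / 4 * (1 + u ^ 4) := by gcongr
    have h2 : De * 1 ≤ De * ((1 + A) * (1 + C)) := by gcongr
    linarith
  · by_contra h
    push Not at h
    have h1 : De * ((1 + A) * (1 + C)) ≤ De * ((1 + u ^ 3) * (1 + u ^ 3)) := by gcongr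
    have h2 : De * ((1 + u ^ 3) * (1 + u ^ 3)) < T / 4 * (1 - 2 * u ^ 3) *
        ((1 + u ^ 3) * (1 + u ^ 3)) := by gcongr
    have h3 : (1 - 2 * u ^ 3) * ((1 + u ^ 3) * (1 + u ^ 3)) ≤ 1 := by
      have e : (1 - 2 * u ^ 3) * ((1 + u ^ 3) * (1 + u ^ 3)) =
        1 - 3 * (u ^ 3) ^ 2 - 2 * (u ^ 3) ^ 3 := by ring
      rw [e]
      have : 0 ≤ (u ^ 3) ^ 2 := by positivity
      have : 0 ≤ (u ^ 3) ^ 3 := by positivity
      linarith
    have h4 : T / 4 * ((1 - 2 * u ^ 3) * ((1 + u ^ 3) * (1 + u ^ 3))) ≤ T / 4 * 1 := by gcongr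
    have h5 : T / 4 * 1 ≤ T / 4 * (1 + q4) := by
      gcongr
      linarith
    have h6 : T / 4 * (1 - 2 * u ^ 3) * ((1 + u ^ 3) * (1 + u ^ 3)) =
      T / 4 * ((1 - 2 * u ^ 3) * ((1 + u ^ 3) * (1 + u ^ 3))) := by ring
    linarith

/-- bounds for the normalised tangent -/
private theorem segShort_Y {u T k th Y A : ℝ} (hu : 0 < u) (hu' : u ≤ 1 / 100)
    (hT : 3 / 4 ≤ T) (hT' : T ≤ 1) (hk0 : 1 - 2 * u ^ 2 ≤ k) (hk1 : k ≤ 1)
    (hth2 : T - u / 4 ≤ th) (hth1 : th ≤ T) (hA : 0 < A) (hA' : A ≤ u ^ 3)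
    (hY : Y * (1 + A) = th - u * k) : 0 ≤ Y ∧ Y ≤ T ∧ T - 126 / 100 * u ≤ Y := by
  have hu3 : 0 < u ^ 3 := by positivity
  have hu3' : u ^ 3 ≤ u / 1000 := by
    have h1 : u ^ 2 ≤ (1 / 100) ^ 2 := pow_le_pow_left₀ hu.le hu' 2
    have h2 : u ^ 3 = u ^ 2 * u := by ring
    rw [h2]
    nlinarith
  have huk : u * k ≤ u := by nlinarith
  have huk0 : 0 ≤ u * k := by
    have : 0 ≤ k := by nlinarith
    positivity
  have hY0 : 0 ≤ Y := by
    by_contra h
    push Not at h
    have : Y * (1 + A) < 0 := mul_neg_of_neg_of_pos h (by positivity)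
    linarith
  refine ⟨hY0, ?_, ?_⟩
  · have : 0 ≤ Y * A := by positivity
    nlinarith
  · have h1 : th - u - u ^ 3 ≤ Y := by
      by_contra h
      push Not at h
      have h2 : Y * (1 + A) < (th - u - u ^ 3) * (1 + A) := by gcongr
      have h3 : (th - u - u ^ 3) * A ≤ 1 * u ^ 3 := by
        apply mul_le_mul _ hA' hA.le zero_le_one
        linarith
      linarith
    linarith

private theorem segShort_E {u T Y E : ℝ} (hu : 0 < u) (hu' : u ≤ 1 / 100)
    (hT : 3 / 4 ≤ T) (hT' : T ≤ 1) (hY0 : 0 ≤ Y) (hYT : Y ≤ T) (hYl : T - 126 / 100 * u ≤ Y)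
    (he1 : Y ^ 2 / 2 - u ^ 2 * Y ^ 4 / 8 ≤ E) (he2 : E ≤ Y ^ 2 / 2) :
    T ^ 2 / 2 - 1265 / 1000 * u * T ≤ E ∧ E ≤ T ^ 2 / 2 ∧ 48 / 100 * T ^ 2 ≤ E := by
  have hY4 : Y ^ 4 ≤ 1 := pow_le_one₀ hY0 (hYT.trans hT')
  have hE2 : Y ^ 2 ≤ T ^ 2 := pow_le_pow_left₀ hY0 hYT 2
  have hu2 : u ^ 2 * Y ^ 4 ≤ u ^ 2 * 1 := by gcongr
  have hu2' : u ^ 2 ≤ u / 100 := by nlinarith
  have h1 : (T - 126 / 100 * u) ^ 2 ≤ Y ^ 2 := by
    apply pow_le_pow_left₀ _ hYl
    linarith
  have hE1 : T ^ 2 / 2 - 1265 / 1000 * u * T ≤ E := by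
    have : u * (3 / 4) ≤ u * T := by gcongr
    nlinarith
  refine ⟨hE1, by linarith, ?_⟩
  have : u * T ≤ T / 100 := by nlinarith
  nlinarith

/-- normalised core estimate -/
private theorem segShort_core0 {u T k th Y E De : ℝ} (hu : 0 < u) (hu' : u ≤ 1 / 100)
    (hT : 3 / 4 ≤ T) (hT' : T ≤ 1) (hk : k * (1 + 2 * u ^ 2) = 1) (hth : th = T - u * T ^ 4 / 4)
    (hY : Y * (1 + u ^ 3 * k * th) = th - u * k) (he1 : Y ^ 2 / 2 - u ^ 2 * Y ^ 4 / 8 ≤ E)
    (he2 : E ≤ Y ^ 2 / 2)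
    (hD : De * ((1 + u ^ 3 * k * th) * (1 + u ^ 3 * k * T)) = T ^ 4 / 4 * (1 + u ^ 4 * k ^ 2)) :
    0 ≤ De ∧ De ≤ 3 / 5 * E ∧ k * De * (1 + u ^ 2) ≤ E ^ 2 + 3 * u * E ∧
      E ^ 2 ≤ k * De + 5 * u * E := by
  have hu2 : 0 < u ^ 2 := by positivity
  have hu3 : 0 < u ^ 3 := by positivity
  have hu4 : 0 < u ^ 4 := by positivity
  have hu2' : u ^ 2 ≤ u / 100 := by
    have : u ^ 2 = u * u := by ring
    rw [this]
    nlinarith
  have hu3' : u ^ 3 ≤ u ^ 2 / 100 := by
    have : u ^ 3 = u ^ 2 * u := by ring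
    rw [this]
    nlinarith
  have hu4' : u ^ 4 ≤ u ^ 3 / 100 := by
    have : u ^ 4 = u ^ 3 * u := by ring
    rw [this]
    nlinarith
  have hkp : 0 < k := by
    by_contra h
    push Not at h
    have : k * (1 + 2 * u ^ 2) ≤ 0 := mul_nonpos_of_nonpos_of_nonneg h (by positivity)
    linarith
  have hk1 : k ≤ 1 := by
    have : 0 < k * u ^ 2 := by positivity
    linarith
  have hk0 : 1 - 2 * u ^ 2 ≤ k := by
    have : k * u ^ 2 ≤ 1 * u ^ 2 := by gcongr
    linarith
  have hT0 : 0 < T := by linarith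
  have hT4p : 0 < T ^ 4 := by positivity
  have hT4 : T ^ 4 ≤ T ^ 2 := pow_le_pow_of_le_one hT0.le hT' (by norm_num)
  have hT4' : T ^ 4 ≤ 1 := pow_le_one₀ hT0.le hT'
  have hT3 : T ^ 3 ≤ T ^ 2 := pow_le_pow_of_le_one hT0.le hT' (by norm_num)
  have hT2 : T ^ 2 ≤ 1 := pow_le_one₀ hT0.le hT'
  have hT2' : 9 / 16 ≤ T ^ 2 := by nlinarith
  have huT4 : u * T ^ 4 ≤ u * 1 := by gcongr
  have huT40 : 0 < u * T ^ 4 := by positivity
  have hth1 : th ≤ T := by rw [hth]; linarith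
  have hth2 : T - u / 4 ≤ th := by rw [hth]; linarith
  have hth0 : 0 < th := by linarith
  have hA : 0 < u ^ 3 * k * th := by positivity
  have hA' : u ^ 3 * k * th ≤ u ^ 3 := by
    have h1 : u ^ 3 * k * th ≤ u ^ 3 * 1 * 1 := by
      gcongr
      linarith
    linarith
  have hC : 0 < u ^ 3 * k * T := by positivity
  have hC' : u ^ 3 * k * T ≤ u ^ 3 := by
    have h1 : u ^ 3 * k * T ≤ u ^ 3 * 1 * 1 := by
      gcongr
    linarith
  have hq0 : 0 ≤ u ^ 4 * k ^ 2 := by positivity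
  have hq : u ^ 4 * k ^ 2 ≤ u ^ 4 := by
    have : k ^ 2 ≤ 1 := pow_le_one₀ hkp.le hk1
    have : u ^ 4 * k ^ 2 ≤ u ^ 4 * 1 := by gcongr
    linarith
  obtain ⟨hDe0, hDe1, hDe2⟩ := segShort_De hu hu' hT4p hA hA' hC hC' hq0 hq hD
  obtain ⟨hY0, hYT, hYl⟩ := segShort_Y hu hu' hT hT' hk0 hk1 hth2 hth1 hA hA' hY
  obtain ⟨hE1, hE2, hE3⟩ := segShort_E hu hu' hT hT' hY0 hYT hYl he1 he2
  clear hY he1 he2 hD hA hA' hC hC' hq0 hq hth1 hth2 hth0 hth hY0 hYT hYl
  have hE0 : 0 < E := by linarith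
  have hTT : T ^ 4 = T ^ 2 * T ^ 2 := by ring
  have huu : T ^ 4 * u ^ 4 ≤ T ^ 2 * (u / 10000) := by
    apply mul_le_mul hT4 _ hu4.le (by positivity)
    linarith
  refine ⟨hDe0, ?_, ?_, ?_⟩
  · have : u / 10000 ≤ 1 / 10000 := by linarith
    have : T ^ 2 * (u / 10000) ≤ T ^ 2 * (1 / 10000) := by gcongr
    linarith
  · have h1 : k * (1 + u ^ 2) ≤ 1 := by
      have : 0 < k * u ^ 2 := by positivity
      linarith
    have h2 : De * (k * (1 + u ^ 2)) ≤ De * 1 := by gcongr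
    have h3 : (T ^ 2 / 2 - 1265 / 1000 * u * T) ^ 2 ≤ E ^ 2 := by
      apply pow_le_pow_left₀ _ hE1
      have : u * T ≤ 1 / 100 * T := by gcongr
      nlinarith
    have h4 : T ^ 4 / 4 - 1265 / 1000 * u * T ^ 3 ≤ E ^ 2 := by
      have e : (T ^ 2 / 2 - 1265 / 1000 * u * T) ^ 2 =
        T ^ 4 / 4 - 1265 / 1000 * u * T ^ 3 + (1265 / 1000 * u * T) ^ 2 := by ring
      rw [e] at h3
      have : 0 ≤ (1265 / 1000 * u * T) ^ 2 := by positivity
      linarith
    have h5 : u * (48 / 100 * T ^ 2) ≤ u * E := by gcongr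
    have h6 : u * T ^ 3 ≤ u * T ^ 2 := by gcongr
    have h8 : 0 < u * T ^ 2 := by positivity
    have e1 : k * De * (1 + u ^ 2) = De * (k * (1 + u ^ 2)) := by ring
    rw [e1]
    linarith
  · have h1 : E ^ 2 ≤ T ^ 4 / 4 := by
      have : E ^ 2 ≤ (T ^ 2 / 2) ^ 2 := pow_le_pow_left₀ hE0.le hE2 2
      have e : (T ^ 2 / 2) ^ 2 = T ^ 4 / 4 := by ring
      linarith
    have h2 : (1 - 2 * u ^ 2) * (T ^ 4 / 4 * (1 - 2 * u ^ 3)) ≤ k * De := by
      apply mul_le_mul hk0 hDe2 _ hkp.le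
      have : 0 ≤ 1 - 2 * u ^ 3 := by linarith
      positivity
    have h3 : T ^ 4 * (u ^ 2 + u ^ 3) ≤ 1 * (u ^ 2 + u ^ 3) := by gcongr
    have h4 : u * (48 / 100 * T ^ 2) ≤ u * E := by gcongr
    have h5 : 0 < T ^ 4 * u ^ 2 * u ^ 3 := by positivity
    have h6 : u * (9 / 16) ≤ u * T ^ 2 := by gcongr
    have e : (1 - 2 * u ^ 2) * (T ^ 4 / 4 * (1 - 2 * u ^ 3)) =
      T ^ 4 / 4 - T ^ 4 * (u ^ 2 + u ^ 3) / 2 + T ^ 4 * u ^ 2 * u ^ 3 := by ring
    rw [e] at h2
    linarith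


/-- core estimate -/
private theorem segShort_core {d p : ℕ} (hd : 100 ≤ d) (hp : p + 1 < d) :
    0 ≤ phi d p - phi d (p + 1) ∧ phi d p - phi d (p + 1) ≤ 3 / 5 * eps d (p + 1) ∧
    t d * (phi d p - phi d (p + 1)) * (1 + (1 / (d : ℝ)) ^ 2) ≤
      eps d (p + 1) ^ 2 + 3 * (1 / (d : ℝ)) ^ 3 * eps d (p + 1) ∧
    eps d (p + 1) ^ 2 ≤ t d * (phi d p - phi d (p + 1)) +
      5 * (1 / (d : ℝ)) ^ 3 * eps d (p + 1) := by
  have hdR : (100 : ℝ) ≤ d := by exact_mod_cast hd
  have hd0 : (0 : ℝ) < d := by linarith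
  have hdne : (d : ℝ) ≠ 0 := hd0.ne'
  obtain ⟨ht0, _, ht⟩ := t_bounds hd
  obtain ⟨hτ1, hτ2⟩ := tau_bounds hd (q := p) (by omega)
  obtain ⟨hτ3, hτ4⟩ := tau_bounds hd (q := p + 1) (by omega)
  obtain ⟨he1, he2, _, _⟩ := eps_bounds hd (q := p + 1) (by omega)
  have hrec : tau d (p + 1) = tau d p - (d : ℝ) ^ 2 / 4 * tau d p ^ 4 := rfl
  have hτ0 : 0 < tau d p := lt_of_lt_of_le (by positivity) hτ1
  have hτ0' : 0 < tau d (p + 1) := lt_of_lt_of_le (by positivity) hτ3
  have hn1 : (1 + t d * tau d p) ≠ 0 := by positivity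
  have hn2 : (1 + t d * tau d (p + 1)) ≠ 0 := by positivity
  have hu1 : (1 : ℝ) / d * d = 1 := by field_simp
  have hphi : phi d (p + 1) * (1 + t d * tau d (p + 1)) = tau d (p + 1) - t d := by
    unfold phi; field_simp
  have hphi' : phi d p * (1 + t d * tau d p) = tau d p - t d := by
    unfold phi; field_simp
  have hDD : (phi d p - phi d (p + 1)) * ((1 + t d * tau d (p + 1)) * (1 + t d * tau d p)) =
      (tau d p - tau d (p + 1)) * (1 + t d ^ 2) := by
    have e : (phi d p - phi d (p + 1)) * ((1 + t d * tau d (p + 1)) * (1 + t d * tau d p)) =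
      (phi d p * (1 + t d * tau d p)) * (1 + t d * tau d (p + 1)) -
      (phi d (p + 1) * (1 + t d * tau d (p + 1))) * (1 + t d * tau d p) := by ring
    rw [e, hphi, hphi']; ring
  obtain ⟨c1, c2, c3, c4⟩ := segShort_core0 (u := 1 / d) (T := tau d p * d) (k := t d * (d : ℝ) ^ 2)
    (th := tau d (p + 1) * d) (Y := phi d (p + 1) * d) (E := eps d (p + 1) * (d : ℝ) ^ 2)
    (De := (phi d p - phi d (p + 1)) * (d : ℝ) ^ 2) (by positivity)
    (one_div_le_one_div_of_le (by norm_num) hdR)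
    (by
      have : 3 / (4 * (d : ℝ)) * d ≤ tau d p * d := by gcongr
      have e : 3 / (4 * (d : ℝ)) * d = 3 / 4 := by field_simp
      linarith)
    (by
      have : tau d p * d ≤ 1 / d * d := by gcongr
      linarith)
    (by
      have e : t d * (d : ℝ) ^ 2 * (1 + 2 * (1 / (d : ℝ)) ^ 2) = t d * ((d : ℝ) ^ 2 + 2) := by
        field_simp
      rw [e, ht])
    (by rw [hrec]; field_simp)
    (by
      have e : 1 + (1 / (d : ℝ)) ^ 3 * (t d * (d : ℝ) ^ 2) * (tau d (p + 1) * d) =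
        1 + t d * tau d (p + 1) := by field_simp
      have e2 : (1 / (d : ℝ)) * (t d * (d : ℝ) ^ 2) = t d * d := by field_simp
      rw [e, e2, mul_right_comm, hphi]; ring)
    (by
      have e : (phi d (p + 1) * d) ^ 2 / 2 - (1 / (d : ℝ)) ^ 2 * (phi d (p + 1) * d) ^ 4 / 8 =
        (phi d (p + 1) ^ 2 / 2 - phi d (p + 1) ^ 4 / 8) * (d : ℝ) ^ 2 := by field_simp
      rw [e]
      gcongr)
    (by
      have e : (phi d (p + 1) * d) ^ 2 / 2 = (phi d (p + 1) ^ 2 / 2) * (d : ℝ) ^ 2 := by ring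
      rw [e]
      gcongr)
    (by
      have e : 1 + (1 / (d : ℝ)) ^ 3 * (t d * (d : ℝ) ^ 2) * (tau d (p + 1) * d) =
        1 + t d * tau d (p + 1) := by field_simp
      have e' : 1 + (1 / (d : ℝ)) ^ 3 * (t d * (d : ℝ) ^ 2) * (tau d p * d) =
        1 + t d * tau d p := by field_simp
      have e2 : 1 + (1 / (d : ℝ)) ^ 4 * (t d * (d : ℝ) ^ 2) ^ 2 = 1 + t d ^ 2 := by field_simp
      rw [e, e', e2, mul_right_comm, hDD, hrec]; ring)
  have hd2 : (0 : ℝ) < (d : ℝ) ^ 2 := by positivity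
  have hd4 : (0 : ℝ) < (d : ℝ) ^ 4 := by positivity
  refine ⟨?_, ?_, ?_, ?_⟩
  · exact nonneg_of_mul_nonneg_left c1 hd2
  · refine le_of_mul_le_mul_right ?_ hd2
    linarith
  · refine le_of_mul_le_mul_right ?_ hd4
    have e1 : t d * (phi d p - phi d (p + 1)) * (1 + (1 / (d : ℝ)) ^ 2) * (d : ℝ) ^ 4 =
      t d * (d : ℝ) ^ 2 * ((phi d p - phi d (p + 1)) * (d : ℝ) ^ 2) * (1 + (1 / (d : ℝ)) ^ 2) := by
      ring
    have e2 : (eps d (p + 1) ^ 2 + 3 * (1 / (d : ℝ)) ^ 3 * eps d (p + 1)) * (d : ℝ) ^ 4 =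
      (eps d (p + 1) * (d : ℝ) ^ 2) ^ 2 + 3 * (1 / (d : ℝ)) * (eps d (p + 1) * (d : ℝ) ^ 2) := by
      field_simp
    rw [e1, e2]
    exact c3
  · refine le_of_mul_le_mul_right ?_ hd4
    have e1 : eps d (p + 1) ^ 2 * (d : ℝ) ^ 4 = (eps d (p + 1) * (d : ℝ) ^ 2) ^ 2 := by ring
    have e2 : (t d * (phi d p - phi d (p + 1)) + 5 * (1 / (d : ℝ)) ^ 3 * eps d (p + 1)) *
        (d : ℝ) ^ 4 = t d * (d : ℝ) ^ 2 * ((phi d p - phi d (p + 1)) * (d : ℝ) ^ 2) +
        5 * (1 / (d : ℝ)) * (eps d (p + 1) * (d : ℝ) ^ 2) := by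
      field_simp
    rw [e1, e2]
    exact c4

/-- the two estimates of the length of a segment -/
private theorem segShort_len {D u t e De w0 G x y Ga : ℝ} (hD : 100 ≤ D) (hu : u * D = 1)
    (he0 : 0 < e) (he : e ≤ u ^ 2 / 2) (hG : 0 ≤ G) (hGD : G ≤ D) (ht : 0 < t)
    (hx : x ≤ u) (hy : y ≤ u) (hGa : Ga ≤ -(158 / 10 * u)) (hGa' : -(162 / 10 * u) ≤ Ga)
    (hDe : 0 ≤ De) (hDe' : De ≤ 3 / 5 * e) (h1 : t * De * (1 + u ^ 2) ≤ e ^ 2 + 3 * u ^ 3 * e)
    (h2 : e ^ 2 ≤ t * De + 5 * u ^ 3 * e)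
    (hw1 : w0 * e ≤ u + t * G * D)
    (hw2 : t * G * D - e - 6 * u * e ≤ w0 * e) :
    D * G * e - w0 * De + y + Ga < 0 ∧ 0 ≤ D * G * e - w0 * De - x + Ga + 40 * u := by
  have hD0 : 0 < D := by linarith
  have hu0 : 0 < u := by
    by_contra h
    push Not at h
    have : u * D ≤ 0 := mul_nonpos_of_nonpos_of_nonneg h hD0.le
    linarith
  have hu1 : u ≤ 1 / 100 := by
    have : u * 100 ≤ u * D := by gcongr
    linarith
  have hGe : 0 ≤ G * D := by positivity
  have hGD2 : G * D * u ^ 3 ≤ u := by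
    have a1 : G * D * u ^ 3 ≤ D * D * u ^ 3 := by gcongr
    have a2 : D * D * u ^ 3 = (u * D) * (u * D) * u := by ring
    rw [a2, hu] at a1
    linarith
  have hue : 0 < u * e := by positivity
  constructor
  · have b1 : (t * G * D - e - 6 * u * e) * De ≤ w0 * e * De := by gcongr
    have b2 : (G * D) * e ^ 2 ≤ (G * D) * (t * De + 5 * u ^ 3 * e) := by gcongr
    have b3 : (G * D) * (t * De + 5 * u ^ 3 * e) = t * G * D * De + 5 * (G * D * u ^ 3) * e := by
      ring
    have b4 : 5 * (G * D * u ^ 3) * e ≤ 5 * u * e := by gcongr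
    have b5 : y * e ≤ u * e := by gcongr
    have b6 : Ga * e ≤ -(158 / 10 * u) * e := by gcongr
    have b7 : (t * G * D - e - 6 * u * e) * De = t * G * D * De - (1 + 6 * u) * (e * De) := by ring
    have b12 : e * De ≤ e * (3 / 5 * e) := by gcongr
    have b13 : e * e ≤ u * e / 100 := by
      have c1 : e * e ≤ (u ^ 2 / 2) * e := by gcongr
      have c2 : u * (u * e) ≤ 1 / 100 * (u * e) := by gcongr
      have c3 : (u ^ 2 / 2) * e = u * (u * e) / 2 := by ring
      linarith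
    have b14 : (1 + 6 * u) * (e * De) ≤ 2 * (e * De) := by
      have : 0 ≤ e * De := by positivity
      gcongr
      linarith
    have e0 : (D * G * e - w0 * De + y + Ga) * e =
        (G * D) * e ^ 2 - w0 * e * De + y * e + Ga * e := by ring
    have key : (D * G * e - w0 * De + y + Ga) * e < 0 := by
      rw [e0]
      linarith
    by_contra hc
    push Not at hc
    have : 0 ≤ (D * G * e - w0 * De + y + Ga) * e := mul_nonneg hc he0.le
    linarith
  · refine le_of_mul_le_mul_right ?_ he0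
    have b1 : w0 * e * De ≤ (u + t * G * D) * De := by gcongr
    have b2 : (u + t * G * D) * De = u * De + (G * D) * (t * De) := by ring
    have b0 : t * De ≤ e ^ 2 + 3 * u ^ 3 * e := by
      have : 0 ≤ t * De * u ^ 2 := by positivity
      linarith
    have b3 : (G * D) * (t * De) ≤ (G * D) * (e ^ 2 + 3 * u ^ 3 * e) := by gcongr
    have b5 : (G * D) * (e ^ 2 + 3 * u ^ 3 * e) = D * G * e * e + 3 * (G * D * u ^ 3) * e := by ring
    have b6 : 3 * (G * D * u ^ 3) * e ≤ 3 * u * e := by gcongr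
    have b10 : u * De ≤ u * (3 / 5 * e) := by gcongr
    have b15 : x * e ≤ u * e := by gcongr
    have b16 : -(162 / 10 * u) * e ≤ Ga * e := by gcongr
    have e0 : (D * G * e - w0 * De - x + Ga + 40 * u) * e =
        D * G * e * e - w0 * e * De - x * e + Ga * e + 40 * (u * e) := by ring
    rw [zero_mul, e0]
    linarith

/-- coordinates in the frame of the rows -/
private theorem segShort_coord {s t : ℝ} (hs : 0 < s) (hst : s ^ 2 = 1 + t ^ 2) (z : ℝ × ℝ) :
    s * z.1 = t * ax (t / s) (1 / s) z - al (t / s) (1 / s) z ∧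
    s * z.2 = ax (t / s) (1 / s) z + t * al (t / s) (1 / s) z ∧
    s * ax (t / s) (1 / s) z = z.2 + t * z.1 := by
  unfold ax al
  have hne : s ≠ 0 := hs.ne'
  refine ⟨?_, ?_, ?_⟩
  · field_simp
    linear_combination z.1 * hst
  · field_simp
    linear_combination z.2 * hst
  · field_simp
    ring

theorem seg_short {d H : ℕ} (hd : 100 ≤ d) {q R : ℕ} (h1 : 1 ≤ q) (hq : q < d)
    (h : Active d H q R) (h' : Active d H (q - 1) R) : Wc (Seg d H q R) (40 / d) := by
  obtain ⟨p, rfl⟩ : ∃ p, q = p + 1 := ⟨q - 1, by omega⟩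
  rw [Nat.add_sub_cancel] at h'
  have hdR : (100 : ℝ) ≤ d := by exact_mod_cast hd
  have hd0 : (0 : ℝ) < d := by linarith
  obtain ⟨ht0, ht1, ht⟩ := t_bounds hd
  obtain ⟨hs1, hs2, hs3, _⟩ := s_bounds hd
  obtain ⟨hτ1, hτ2⟩ := tau_bounds hd (q := p) (by omega)
  obtain ⟨hτ3, hτ4⟩ := tau_bounds hd (q := p + 1) (by omega)
  obtain ⟨_, _, he3, he4⟩ := eps_bounds hd (q := p + 1) (by omega)
  obtain ⟨_, hph⟩ := phi_bounds hd (q := p) (by omega)
  obtain ⟨_, hph'⟩ := phi_bounds hd (q := p + 1) (by omega)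
  obtain ⟨hc1, hc2⟩ := cc_bounds hd (q := p + 1) (by omega)
  obtain ⟨k1, k2, k3, k4⟩ := segShort_core hd hq
  obtain ⟨hB, _⟩ := B_bounds hd (q := p) (by omega)
  obtain ⟨hkap, _, _⟩ := kap_bounds hd (q := p) (by omega)
  have hτ0 : 0 < tau d p := lt_of_lt_of_le (by positivity) hτ1
  have hτ0' : 0 < tau d (p + 1) := lt_of_lt_of_le (by positivity) hτ3
  have hs0 : 0 < s d := by linarith
  have hn1 : 0 < 1 + t d * tau d p := by positivity
  have hn2 : 0 < 1 + t d * tau d (p + 1) := by positivity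
  -- rows
  have hR : p + 1 ≤ R ∧ R < top d (p + 1) := by
    rcases h with h | h
    · exact h.2
    · omega
  obtain ⟨hR1, hR2⟩ := hR
  set g := gg d (p + 1) (R - (p + 1)) with hg
  have hgd : g < d := by
    by_contra hc
    have h3 := (gg_iff hd (q := p + 1) (by omega) (R - (p + 1)) (d - 1) (by omega)).1 (by omega)
    unfold top at hR2
    omega
  have hrho : R - (p + 1) ≤ r d (p + 1) g := by
    by_contra hc
    have h3 := (gg_iff hd (q := p + 1) (by omega) (R - (p + 1)) g hgd).2 (by omega)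
    omega
  have hrc : ((R - (p + 1) : ℕ) : ℝ) = R - ((p + 1 : ℕ) : ℝ) := by
    rw [Nat.cast_sub hR1]
  have he0 : 0 < eps d (p + 1) := lt_of_lt_of_le (by positivity) he3
  have htd : t d * d ≤ 1 / d := by
    have : t d * d ≤ 1 / (d : ℝ) ^ 2 * d := by gcongr
    have e : 1 / (d : ℝ) ^ 2 * d = 1 / d := by field_simp
    linarith
  have hrhoR : ((R - (p + 1) : ℕ) : ℝ) ≤ r d (p + 1) g := by exact_mod_cast hrho
  obtain ⟨_, hr2⟩ := r_bounds hd (q := p + 1) (i := g) (by omega)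
  set w0 : ℝ := ((R - (p + 1) : ℕ) : ℝ) + cc d (p + 1) / s d with hw0
  have hw0' : s d * w0 = R * s d - t d * B d (p + 1) := by
    rw [hw0, hrc]
    have : s d * (cc d (p + 1) / s d) = cc d (p + 1) := by field_simp
    rw [mul_add, this]
    unfold cc
    ring
  have hcs : cc d (p + 1) / s d ≤ 0 := by
    apply div_nonpos_of_nonpos_of_nonneg _ hs0.le
    have : 0 < 3 / (d : ℝ) := by positivity
    have e : -3 / (d : ℝ) = -(3 / d) := by ring
    linarith
  have hcs0 : -(6 * (1 / (d : ℝ))) ≤ cc d (p + 1) / s d := by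
    rw [le_div_iff₀ hs0]
    have a1 : (1 / (d : ℝ)) * 1 ≤ (1 / (d : ℝ)) * s d := by gcongr
    have e : -6 / (d : ℝ) = -(6 * (1 / d)) := by ring
    rw [e] at hc1
    linarith
  have hw1 : w0 * eps d (p + 1) ≤ 1 / d + t d * g * d := by
    have e1 : w0 * eps d (p + 1) = ((R - (p + 1) : ℕ) : ℝ) * eps d (p + 1) +
      cc d (p + 1) / s d * eps d (p + 1) := by rw [hw0]; ring
    have e2 : ((R - (p + 1) : ℕ) : ℝ) * eps d (p + 1) ≤ r d (p + 1) g * eps d (p + 1) := by gcongr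
    have e3 : cc d (p + 1) / s d * eps d (p + 1) ≤ 0 * eps d (p + 1) := by gcongr
    have e5 : aa d g = 1 / d + t d * g * d := rfl
    linarith
  have hw2 : t d * g * d - eps d (p + 1) - 6 * (1 / d) * eps d (p + 1) ≤ w0 * eps d (p + 1) := by
    have e1 : w0 * eps d (p + 1) = ((R - (p + 1) : ℕ) : ℝ) * eps d (p + 1) +
      cc d (p + 1) / s d * eps d (p + 1) := by rw [hw0]; ring
    have e3 : -(6 * (1 / (d : ℝ))) * eps d (p + 1) ≤ cc d (p + 1) / s d * eps d (p + 1) := by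
      gcongr
    rcases Nat.eq_zero_or_pos g with h0 | h0
    · rw [e1, h0]
      have : 0 ≤ ((R - (p + 1) : ℕ) : ℝ) * eps d (p + 1) := by positivity
      push_cast
      linarith
    · have h3 := (gg_iff hd (q := p + 1) (by omega) (R - (p + 1)) (g - 1) (by omega)).1 (by omega)
      have h4 : (r d (p + 1) (g - 1) : ℝ) ≤ ((R - (p + 1) : ℕ) : ℝ) := by exact_mod_cast h3
      obtain ⟨hr3, _⟩ := r_bounds hd (q := p + 1) (i := g - 1) (by omega)
      have h5 : (r d (p + 1) (g - 1) : ℝ) * eps d (p + 1) ≤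
        ((R - (p + 1) : ℕ) : ℝ) * eps d (p + 1) := by gcongr
      have h6 : t d * g * d ≤ aa d (g - 1) := by
        have e5 : aa d (g - 1) = 1 / d + t d * ((g - 1 : ℕ) : ℝ) * d := rfl
        have e6 : ((g - 1 : ℕ) : ℝ) = g - 1 := by
          rw [Nat.cast_sub h0]; push_cast; ring
        rw [e5, e6]
        linarith
      linarith
  have hud : (1 : ℝ) / d * d = 1 := by field_simp
  have hu1 : (1 : ℝ) / d ≤ 1 / 100 := one_div_le_one_div_of_le (by norm_num) hdR
  have hu0 : (0 : ℝ) < 1 / d := by positivity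
  have ht2 : t d ≤ 1 / 10000 := by
    have e : 1 / (d : ℝ) ^ 2 = (1 / d) ^ 2 := by rw [one_div_pow]
    have : (1 / (d : ℝ)) ^ 2 ≤ (1 / 100) ^ 2 := pow_le_pow_left₀ hu0.le hu1 2
    rw [e] at ht1
    linarith
  have htt : t d * tau d p ≤ 1 / 10000 := by
    have : t d * tau d p ≤ 1 / 10000 * 1 := by
      apply mul_le_mul ht2 (by linarith) hτ0.le (by norm_num)
    linarith
  have hs4 : s d ≤ 101 / 100 := by
    have : t d ^ 2 ≤ (1 / 10000) ^ 2 := pow_le_pow_left₀ ht0.le ht2 2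
    linarith
  set Ga : ℝ := s d * gam d / (1 + t d * tau d p) with hGa
  have hgam : gam d = -(16 * (1 / d)) := by unfold gam; ring
  have hGa1 : Ga ≤ -(158 / 10 * (1 / (d : ℝ))) := by
    rw [hGa, div_le_iff₀ hn1, hgam]
    have a1 : 1 * (16 * (1 / (d : ℝ))) ≤ s d * (16 * (1 / d)) := by gcongr
    have a2 : 1 / (d : ℝ) * (t d * tau d p) ≤ 1 / d * (1 / 10000) := by gcongr
    linarith
  have hGa2 : -(162 / 10 * (1 / (d : ℝ))) ≤ Ga := by
    rw [hGa, le_div_iff₀ hn1, hgam]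
    have a1 : s d * (16 * (1 / (d : ℝ))) ≤ 101 / 100 * (16 * (1 / d)) := by gcongr
    have a2 : 0 ≤ 1 / (d : ℝ) * (t d * tau d p) := by positivity
    linarith
  have he4' : eps d (p + 1) ≤ (1 / (d : ℝ)) ^ 2 / 2 := by
    have e : (1 / (d : ℝ)) ^ 2 / 2 = 1 / (2 * (d : ℝ) ^ 2) := by field_simp
    rw [e]; exact he4
  obtain ⟨L1, L2⟩ := segShort_len (D := d) (u := 1 / d) (t := t d) (e := eps d (p + 1))
    (De := phi d p - phi d (p + 1)) (w0 := w0) (G := g) (x := phi d p) (y := phi d (p + 1))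
    (Ga := Ga) hdR hud he0 he4' (by positivity) (by exact_mod_cast hgd.le) ht0
    (hph.trans hτ2) (hph'.trans hτ4) hGa1 hGa2 k1 k2 k3 k4 hw1 hw2
  -- the numbers
  set K : ℝ := B d (p + 1) + kap d (p + 1) * d * g with hK
  set M : ℝ := B d (p + 1) - gam d with hM
  have hphi : tau d (p + 1) - t d = phi d (p + 1) * (1 + t d * tau d (p + 1)) := by
    unfold phi; field_simp
  have hphi' : tau d p - t d = phi d p * (1 + t d * tau d p) := by
    unfold phi; field_simp
  have hsid : ∀ q, 0 < 1 + t d * tau d q → s d / (1 + t d * tau d q) = (1 - t d * phi d q) / s d := by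
    intro q hq'
    rw [div_eq_div_iff hq'.ne' hs0.ne']
    have : phi d q * (1 + t d * tau d q) = tau d q - t d := by
      unfold phi; exact div_mul_cancel₀ _ hq'.ne'
    linear_combination hs3 + t d * this
  have hRB : (R : ℝ) = w0 + t d * B d (p + 1) / s d := by
    have : s d * (R : ℝ) = s d * (w0 + t d * B d (p + 1) / s d) := by
      rw [mul_add, hw0']
      field_simp
      ring
    exact mul_left_cancel₀ hs0.ne' this
  have hend : s d * K / (1 + t d * tau d (p + 1)) + phi d (p + 1) * R =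
      B d (p + 1) / s d + phi d (p + 1) * w0 + d * g * (1 + eps d (p + 1)) := by
    have e1 : s d * K / (1 + t d * tau d (p + 1)) =
        (s d / (1 + t d * tau d (p + 1))) * B d (p + 1) + d * g *
          (kap d (p + 1) * s d / (1 + t d * tau d (p + 1))) := by
      rw [hK]; field_simp
    have e2 : kap d (p + 1) * s d / (1 + t d * tau d (p + 1)) = 1 + eps d (p + 1) := by
      unfold eps; ring
    rw [e1, e2, hsid _ hn2, hRB]
    field_simp
    ring
  have hsta : s d * M / (1 + t d * tau d p) + phi d p * R =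
      B d (p + 1) / s d + phi d p * w0 - Ga := by
    have e1 : s d * M / (1 + t d * tau d p) = (s d / (1 + t d * tau d p)) * B d (p + 1) - Ga := by
      rw [hM, hGa]; field_simp
    rw [e1, hsid _ hn1, hRB]
    field_simp
    ring
  have hBM : B d p + (d : ℝ) ^ 2 * kap d p = M := by
    rw [hM]
    show _ = B d p + (d : ℝ) ^ 2 * kap d p + gam d - gam d
    ring
  have hphi0 : 0 ≤ phi d (p + 1) := by
    have := (phi_bounds hd (q := p + 1) (by omega)).1
    exact le_trans (by positivity) this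
  have hphi0' : 0 ≤ phi d p := by
    have := (phi_bounds hd (q := p) (by omega)).1
    exact le_trans (by positivity) this
  have hab : (t d / s d) ^ 2 + (1 / s d) ^ 2 = 1 := by
    field_simp
    linarith
  -- membership in the segment
  have hseg : ∀ z : ℝ × ℝ, z ∈ Seg d H (p + 1) R ↔
      ((R * s d ≤ z.2 + t d * z.1 ∧ z.2 + t d * z.1 < (R + 1) * s d) ∧
        (M + tau d p * z.2 ≤ z.1 ∧ 0 ≤ z.1) ∧ z.1 < K + tau d (p + 1) * z.2) := by
    intro z
    constructor
    · rintro ⟨⟨⟨hr, hl⟩, hri⟩, _⟩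
      refine ⟨hr, ⟨?_, hl.2⟩, hri.1 hq⟩
      have := hl.1 ⟨by omega, h'⟩
      rw [← hBM]
      exact this
    · rintro ⟨hr, hl, hri⟩
      have hm : z ∈ Row d R ∩ LeftC d H (p + 1) R ∩ RightC d (p + 1) R := by
        refine ⟨⟨hr, fun _ => ?_, hl.2⟩, fun _ => hri, fun hh => absurd hh hq.ne⟩
        rw [← hBM] at hl
        exact hl.1
      exact ⟨hm, seg_floor hd hq.le h (by omega) hm⟩
  refine rect_wc (t d / s d) (1 / s d) R
    (-(s d * K / (1 + t d * tau d (p + 1)) + phi d (p + 1) * R))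
    (-(s d * M / (1 + t d * tau d p) + phi d p * (R + 1)))
    (-(s d * K / (1 + t d * tau d (p + 1)) + phi d (p + 1) * (R + 1)))
    (-(s d * M / (1 + t d * tau d p) + phi d p * R)) (40 / d) (d * g) _ hab ?_ ?_ ?_ ?_ ?_
    (by positivity)
  · intro z hX1 hX2 hY1 hY2
    obtain ⟨hz1, hz2, hz3⟩ := segShort_coord hs0 hs3 z
    set X := ax (t d / s d) (1 / s d) z
    set Y := al (t d / s d) (1 / s d) z
    have c1 : R * s d ≤ z.2 + t d * z.1 := by
      rw [← hz3, mul_comm]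
      gcongr
    have c2 : z.2 + t d * z.1 < (R + 1) * s d := by
      rw [← hz3, mul_comm]
      gcongr
    have c3 : z.1 < K + tau d (p + 1) * z.2 := by
      have a1 : -Y < s d * K / (1 + t d * tau d (p + 1)) + phi d (p + 1) * X := by
        have : phi d (p + 1) * R ≤ phi d (p + 1) * X := by gcongr
        linarith
      have a2 : -Y * (1 + t d * tau d (p + 1)) < s d * K + (tau d (p + 1) - t d) * X := by
        rw [hphi]
        have := mul_lt_mul_of_pos_right a1 hn2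
        have e : (s d * K / (1 + t d * tau d (p + 1)) + phi d (p + 1) * X) *
          (1 + t d * tau d (p + 1)) = s d * K + phi d (p + 1) * (1 + t d * tau d (p + 1)) * X := by
          field_simp
        rw [e] at this
        exact this
      refine lt_of_mul_lt_mul_left ?_ hs0.le
      rw [mul_add, hz1]
      have e : s d * (tau d (p + 1) * z.2) = tau d (p + 1) * (s d * z.2) := by ring
      rw [e, hz2]
      linarith
    have c4 : M + tau d p * z.2 ≤ z.1 := by
      have a1 : s d * M / (1 + t d * tau d p) + phi d p * X ≤ -Y := by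
        have : phi d p * X ≤ phi d p * (R + 1) := by gcongr
        linarith
      have a2 : s d * M + (tau d p - t d) * X ≤ -Y * (1 + t d * tau d p) := by
        rw [hphi']
        have := mul_le_mul_of_nonneg_right a1 hn1.le
        have e : (s d * M / (1 + t d * tau d p) + phi d p * X) *
          (1 + t d * tau d p) = s d * M + phi d p * (1 + t d * tau d p) * X := by
          field_simp
        rw [e] at this
        exact this
      refine le_of_mul_le_mul_left ?_ hs0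
      rw [mul_add, hz1]
      have e : s d * (tau d p * z.2) = tau d p * (s d * z.2) := by ring
      rw [e, hz2]
      linarith
    have c5 : 0 ≤ z.1 := by
      have a1 : 0 ≤ M := by
        rw [← hBM]
        have : 0 ≤ B d p := le_trans (by positivity) hB
        positivity
      have a2 : tau d p * (R * s d) ≤ tau d p * (z.2 + t d * z.1) := by gcongr
      have a3 : 0 ≤ tau d p * (R * s d) := by positivity
      have a4 : 0 ≤ z.1 * (1 + t d * tau d p) := by linarith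
      exact nonneg_of_mul_nonneg_left a4 hn1
    exact (hseg z).2 ⟨⟨c1, c2⟩, ⟨c4, c5⟩, c3⟩
  · intro z hz
    obtain ⟨⟨c1, c2⟩, ⟨c4, c5⟩, c3⟩ := (hseg z).1 hz
    obtain ⟨hz1, hz2, hz3⟩ := segShort_coord hs0 hs3 z
    set X := ax (t d / s d) (1 / s d) z
    set Y := al (t d / s d) (1 / s d) z
    have hX1 : (R : ℝ) ≤ X := by
      refine le_of_mul_le_mul_left ?_ hs0
      rw [hz3, mul_comm]; exact c1
    have hX2 : X < R + 1 := by
      refine lt_of_mul_lt_mul_left ?_ hs0.le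
      rw [hz3]; linarith
    refine ⟨hX1, hX2.le, ?_, ?_⟩
    · have a0 : s d * z.1 < s d * (K + tau d (p + 1) * z.2) := by gcongr
      have e : s d * (K + tau d (p + 1) * z.2) = s d * K + tau d (p + 1) * (s d * z.2) := by ring
      rw [e, hz1, hz2] at a0
      have a2 : -Y * (1 + t d * tau d (p + 1)) < s d * K + (tau d (p + 1) - t d) * X := by
        linarith
      rw [hphi] at a2
      have a3 : -Y < s d * K / (1 + t d * tau d (p + 1)) + phi d (p + 1) * X := by
        refine lt_of_mul_lt_mul_right ?_ hn2.le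
        have e : (s d * K / (1 + t d * tau d (p + 1)) + phi d (p + 1) * X) *
          (1 + t d * tau d (p + 1)) = s d * K + phi d (p + 1) * (1 + t d * tau d (p + 1)) * X := by
          field_simp
        rw [e]
        exact a2
      have : phi d (p + 1) * X ≤ phi d (p + 1) * (R + 1) := by gcongr
      linarith
    · have a0 : s d * (M + tau d p * z.2) ≤ s d * z.1 := by gcongr
      have e : s d * (M + tau d p * z.2) = s d * M + tau d p * (s d * z.2) := by ring
      rw [e, hz1, hz2] at a0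
      have a2 : s d * M + (tau d p - t d) * X ≤ -Y * (1 + t d * tau d p) := by
        linarith
      rw [hphi'] at a2
      have a3 : s d * M / (1 + t d * tau d p) + phi d p * X ≤ -Y := by
        refine le_of_mul_le_mul_right ?_ hn1
        have e : (s d * M / (1 + t d * tau d p) + phi d p * X) *
          (1 + t d * tau d p) = s d * M + phi d p * (1 + t d * tau d p) * X := by
          field_simp
        rw [e]
        exact a2
      have : phi d p * R ≤ phi d p * X := by gcongr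
      linarith
  · push_cast
    rw [hsta]
    have e : s d * K / (1 + t d * tau d (p + 1)) + phi d (p + 1) * (R + 1) =
      (s d * K / (1 + t d * tau d (p + 1)) + phi d (p + 1) * R) + phi d (p + 1) := by ring
    rw [e, hend]
    linarith
  · intro hn0
    have hn0' : (d : ℝ) * g = 0 := by exact_mod_cast hn0
    rw [hsta]
    have e : s d * K / (1 + t d * tau d (p + 1)) + phi d (p + 1) * (R + 1) =
      (s d * K / (1 + t d * tau d (p + 1)) + phi d (p + 1) * R) + phi d (p + 1) := by ring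
    rw [e, hend]
    have e3 : (d : ℝ) * g * (1 + eps d (p + 1)) = d * g + d * g * eps d (p + 1) := by ring
    rw [e3]
    linarith
  · push_cast
    rw [hend]
    have e : s d * M / (1 + t d * tau d p) + phi d p * (R + 1) =
      (s d * M / (1 + t d * tau d p) + phi d p * R) + phi d p := by ring
    rw [e, hsta]
    have e2 : (40 : ℝ) / d = 40 * (1 / d) := by ring
    rw [e2]
    linarith

end H282R5.PD
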