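import Pool.Agent.H282R5.PD.Order
import Pool.Agent.H282R5.PD.Par2
import Pool.Agent.H282R4.PU.Par

namespace H282R5.PD

open MeasureTheory
open scoped ENNReal
open H282R3.SQ (USq)
open H282R4.PU (ax al t s tau kap eps phi Z SP Row T1 tau_bounds s_bounds)

private theorem Sub_aux {d : ℕ} (hd : 100 ≤ d) {q : ℕ} (hq : q < d) {z : ℝ × ℝ}
    (hz : z ∉ RightOf d q) (h0 : 0 ≤ z.2) (h1 : z.2 ≤ 40 * (d : ℝ) ^ 2) : z.1 < Z d := by
  have hd' : (100 : ℝ) ≤ d := by exact_mod_cast hd
  have hd0 : (0 : ℝ) < d := by linarith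
  have h2 : z.1 < B d q + (d : ℝ) ^ 2 * kap d q + tau d q * z.2 := by
    unfold RightOf at hz
    simpa using hz
  have h3 := (tau_bounds hd hq.le).2
  have h4 : tau d q * z.2 ≤ 40 * d := by
    calc tau d q * z.2 ≤ 1 / d * z.2 := mul_le_mul_of_nonneg_right h3 h0
      _ ≤ 1 / d * (40 * (d : ℝ) ^ 2) := mul_le_mul_of_nonneg_left h1 (by positivity)
      _ = 40 * d := by field_simp
  have h5 : B d (q + 1) = B d q + (d : ℝ) ^ 2 * kap d q + gam d := rfl
  have h6 : -1 ≤ gam d := by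
    unfold gam
    rw [le_div_iff₀ hd0]
    linarith
  have h7 := B_diff hd (q := q + 1) (q' := d) (by omega) le_rfl
  have h8 : (0 : ℝ) ≤ ((d : ℝ) - ((q + 1 : ℕ) : ℝ)) * ((d : ℝ) ^ 2 - 1) := by
    have : ((q + 1 : ℕ) : ℝ) ≤ d := by exact_mod_cast hq
    have : (0 : ℝ) ≤ (d : ℝ) - ((q + 1 : ℕ) : ℝ) := by linarith
    have h9 : (0 : ℝ) ≤ (d : ℝ) ^ 2 - 1 := by nlinarith
    positivity
  have h9 := (Z_bounds hd).1
  nlinarith

theorem cell_sub {d H : ℕ} (hd : 100 ≤ d) (hH : 6 * d ^ 2 ≤ H) (hH' : H ≤ 30 * d ^ 2) :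
    ∀ a ∈ idx d H, Cell d H a ⊆ SP d H := by
  rintro ⟨e, q, j⟩ ha z hz
  have hd0 : 0 < d := by omega
  have hs : 0 < s d := lt_trans one_pos (s_bounds hd).1
  unfold idx at ha
  simp only [Finset.mem_union, Finset.mem_product, Finset.mem_singleton, Finset.mem_range,
    Finset.mem_filter] at ha
  rcases ha with ⟨rfl, hq, hj⟩ | ⟨⟨rfl, hq, hj⟩, hA⟩
  · have hz' : z ∈ LC d q j := by
      unfold Cell at hz
      simpa using hz
    obtain ⟨g1, g2, g3, g4⟩ := LC_left hd hq hj hz'.1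
    have hd2 : (0 : ℝ) ≤ (d : ℝ) ^ 2 := by positivity
    refine ⟨g2, Sub_aux hd hq g1 g3 (by linarith), g3, ?_⟩
    refine lt_of_lt_of_le hz'.1.2.2.2 ?_
    refine mul_le_mul_of_nonneg_right ?_ hs.le
    have h1 : j / d ≤ d - 1 := by
      have : j / d < d := by
        rw [Nat.div_lt_iff_lt_mul hd0]
        nlinarith
      omega
    have h2 := r_mono hd (q := q) (q' := q) le_rfl hq.le h1
    have h3 := (top_bounds hd hq.le).2
    unfold top at h3
    have h4 : q + r d q (j / d) ≤ H := by omega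
    exact_mod_cast h4
  · have hz' : z ∈ Seg d H q j := by
      unfold Cell at hz
      simpa using hz
    obtain ⟨g1, g2, g3, g4⟩ := seg_left hd hH hH' (by omega) hA hz'
    refine ⟨g2, ?_, g3, ?_⟩
    · by_cases hqd : q = d
      · exact hz'.1.2.2 hqd
      · exact Sub_aux hd (by omega) (g1 (by omega)) g3 g4
    · refine lt_of_lt_of_le hz'.1.1.1.2 ?_
      refine mul_le_mul_of_nonneg_right ?_ hs.le
      exact_mod_cast hj

private theorem Sub_imp {p : Prop} {S : Set (ℝ × ℝ)} (h : MeasurableSet S) :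
    MeasurableSet {z : ℝ × ℝ | p → z ∈ S} := by
  by_cases hp : p
  · simpa [hp] using h
  · simp [hp]

private theorem Sub_right (d q : ℕ) : MeasurableSet (RightOf d q) := by
  unfold RightOf
  exact measurableSet_le (by fun_prop) (by fun_prop)

theorem cell_meas (d H : ℕ) (a : ℕ × ℕ × ℕ) : MeasurableSet (Cell d H a) := by
  unfold Cell
  split_ifs with h
  · unfold LC LC0
    refine MeasurableSet.inter ?_ (Sub_imp (Sub_right d _))
    simp only [Set.setOf_and]
    refine MeasurableSet.inter (measurableSet_le ?_ ?_) (MeasurableSet.inter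
      (measurableSet_lt ?_ ?_) (MeasurableSet.inter (measurableSet_le ?_ ?_)
        (measurableSet_lt ?_ ?_))) <;> fun_prop
  · unfold Seg Row LeftC RightC
    simp only [Set.setOf_and]
    refine MeasurableSet.inter (MeasurableSet.inter (MeasurableSet.inter ?_ ?_) ?_) ?_
    · refine MeasurableSet.inter (measurableSet_le ?_ ?_) (measurableSet_lt ?_ ?_) <;> fun_prop
    · refine MeasurableSet.inter (Sub_imp (Sub_right d _)) (measurableSet_le ?_ ?_) <;> fun_prop
    · refine MeasurableSet.inter ?_ ?_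
      · refine Sub_imp (S := {z : ℝ × ℝ | z.1 < B d a.2.1 + kap d a.2.1 * d *
            gg d a.2.1 (a.2.2 - a.2.1) + tau d a.2.1 * z.2}) (measurableSet_lt ?_ ?_) <;> fun_prop
      · refine Sub_imp (S := {z : ℝ × ℝ | z.1 < Z d}) (measurableSet_lt ?_ ?_) <;> fun_prop
    · refine measurableSet_le ?_ ?_ <;> fun_prop

end H282R5.PD
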