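import Pool.Agent.H282R5.PD.Defs
import Pool.Agent.H282R3.SQ.Defs
import Pool.Agent.H282R5.PD.Frame
import Pool.Agent.H282R5.PD.LCW
import Pool.Agent.H282R5.PD.SegAny
import Pool.Agent.H282R5.PD.SegShort
import Pool.Agent.H282R5.PD.Disj
import Pool.Agent.H282R5.PD.Sub
import Pool.Agent.H282R5.PD.Cover
import Pool.Agent.H282R5.PD.ExCov
import Pool.Agent.H282R5.PD.Count

/-! Covering of the parallelogram: assembly of the cells. -/

namespace H282R5.PD

open MeasureTheory
open scoped ENNReal
open H282R3.SQ (USq)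
open H282R4.PU (ax al t s tau kap eps phi Z SP Row T1)

theorem SP_wc {d H : ℕ} (hd : 100 ≤ d) (hH : 6 * d ^ 2 ≤ H) (hH' : H ≤ 30 * d ^ 2) :
    Wc (SP d H) (600 * (d : ℝ) ^ 2) := by
  classical
  have h1 := Wc_union (idx d H) (SP d H) (Ex d) (Cell d H) (wt d H) (30 * d ^ 2)
    (cell_sub hd hH hH') (fun a _ => (cell_meas d H a).nullMeasurableSet)
    (fun a ha b hb hab => (cell_disj hd hH hH' a ha b hb hab).aedisjoint)
    ((cell_cover hd hH hH').trans subset_closure) (Ex_covs hd) ?_
  · refine Wc_mono h1 ?_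
    have h2 := count_sum hd hH hH'
    have h3 : (0 : ℝ) ≤ (d : ℝ) ^ 2 := by positivity
    push_cast
    linarith
  · rintro ⟨c, q, R⟩ ha
    unfold idx at ha
    rw [Finset.mem_union, Finset.mem_product, Finset.mem_filter, Finset.mem_product,
      Finset.mem_product, Finset.mem_product, Finset.mem_singleton, Finset.mem_singleton] at ha
    simp only [Finset.mem_range] at ha
    unfold wt Cell
    rcases ha with ⟨hc, hq, hR⟩ | ⟨⟨hc, hq, hR⟩, hact⟩
    · subst hc
      dsimp only
      rw [if_pos rfl, if_pos rfl]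
      split_ifs with h
      · subst h
        exact LC_wc0 hd hq
      · exact LC_wc hd hq hR (Or.inl (Nat.one_le_iff_ne_zero.2 h))
    · subst hc
      dsimp only
      rw [if_neg one_ne_zero, if_neg one_ne_zero]
      split_ifs with h h'
      · obtain ⟨rfl, rfl⟩ := h
        exact seg_00 hd hact
      · exact seg_short hd h'.2.1 h'.1 hact h'.2.2
      · exact seg_any hd (by omega) hact h

end H282R5.PD
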