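import Pool.Agent.H282R5.PD.Defs
import Pool.Agent.H282R4.PU.Par
import Pool.Agent.H282R5.PD.Frame
import Pool.Agent.H282R5.PD.SPW
import Pool.Agent.H282R5.PD.Triv
import Pool.Agent.H282R5.PD.Par2

/-!
Module T1W: the region between the floor and a row line.
-/

namespace H282R5.PD

open MeasureTheory
open scoped ENNReal
open H282R3.SQ (USq)
open H282R4.PU (ax al t s tau kap eps phi Z SP Row T1 t_bounds s_bounds)

theorem T1W_meas (a b m h : ℝ) :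
    MeasurableSet {z : ℝ × ℝ | a ≤ z.1 ∧ z.1 < b ∧ 0 ≤ z.2 ∧ z.2 + m * z.1 < h} :=
  (measurableSet_le measurable_const measurable_fst).inter
    ((measurableSet_lt measurable_fst measurable_const).inter
      ((measurableSet_le measurable_const measurable_snd).inter
        (measurableSet_lt (measurable_snd.add (measurable_const.mul measurable_fst))
          measurable_const)))

theorem T1W_covs_empty : Covs ∅ 0 := ⟨Fin.elim0, Set.empty_subset _⟩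

/-- the middle part of the region: translates of the super-period cell -/
theorem T1W_mid {d : ℕ} (hd : 100 ≤ d) (c : ℝ) (S : ℕ) (hS : S ≤ 9 * d) :
    Wc {z : ℝ × ℝ | c / t d ≤ z.1 ∧ z.1 < c / t d + S * Z d ∧ 0 ≤ z.2 ∧
      z.2 + t d * z.1 < c + (20 * d ^ 2 : ℕ) * s d} (5400 * (d : ℝ) ^ 3) := by
  have hD : (100 : ℝ) ≤ d := by exact_mod_cast hd
  obtain ⟨ht, ht2, ht1⟩ := t_bounds hd
  obtain ⟨_, _, hZ3, hZ4, hZ5⟩ := Z_bounds hd
  have hZ0 : 0 < Z d := by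
    have : (0 : ℝ) < (d : ℝ) ^ 3 := by positivity
    linarith
  have htV : t d * (c / t d) = c := by field_simp
  have hn : ∀ σ : ℕ, σ ≤ 9 * d → σ * (d + 3) ≤ 14 * d ^ 2 := by
    intro σ hσ
    calc σ * (d + 3) ≤ (9 * d) * (d + 3) := Nat.mul_le_mul_right _ hσ
      _ ≤ 14 * d ^ 2 := by nlinarith
  have hcell : ∀ σ : ℕ, σ ≤ 9 * d → ∀ z : ℝ × ℝ,
      ((z.1 - (c / t d + σ * Z d), z.2 - 0) ∈ SP d (20 * d ^ 2 - σ * (d + 3)) ↔
        c / t d + σ * Z d ≤ z.1 ∧ z.1 < c / t d + (σ + 1) * Z d ∧ 0 ≤ z.2 ∧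
          z.2 + t d * z.1 < c + (20 * d ^ 2 : ℕ) * s d) := by
    intro σ hσ z
    have h1 := hn σ hσ
    have h2 : ((20 * d ^ 2 - σ * (d + 3) : ℕ) : ℝ) = (20 * d ^ 2 : ℕ) - σ * ((d : ℝ) + 3) := by
      rw [Nat.cast_sub (by omega)]
      push_cast
      ring
    have h3 : t d * (z.1 - (c / t d + σ * Z d)) = t d * z.1 - c - σ * (((d : ℝ) + 3) * s d) := by
      rw [← hZ5, mul_sub, mul_add, htV]
      ring
    unfold SP
    simp only [Set.mem_ofPred_eq]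
    rw [h2, h3, sub_zero]
    constructor
    · rintro ⟨a1, a2, a3, a4⟩
      exact ⟨by linarith, by linarith, a3, by linarith⟩
    · rintro ⟨a1, a2, a3, a4⟩
      exact ⟨by linarith, by linarith, a3, by linarith⟩
  have key := Wc_union (Finset.range S)
    {z : ℝ × ℝ | c / t d ≤ z.1 ∧ z.1 < c / t d + S * Z d ∧ 0 ≤ z.2 ∧
      z.2 + t d * z.1 < c + (20 * d ^ 2 : ℕ) * s d} ∅
    (fun σ : ℕ => {z : ℝ × ℝ | (z.1 - (c / t d + σ * Z d), z.2 - 0) ∈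
      SP d (20 * d ^ 2 - σ * (d + 3))})
    (fun _ => 600 * (d : ℝ) ^ 2) 0 ?_ ?_ ?_ ?_ ?_ ?_
  · refine Wc_mono key ?_
    rw [Finset.sum_const, Finset.card_range, nsmul_eq_mul, Nat.cast_zero, add_zero]
    have hS' : (S : ℝ) ≤ 9 * d := by exact_mod_cast hS
    calc (S : ℝ) * (600 * (d : ℝ) ^ 2) ≤ (9 * d) * (600 * (d : ℝ) ^ 2) := by gcongr
      _ = 5400 * (d : ℝ) ^ 3 := by ring
  · intro σ hσ z hz
    have hσ' := Finset.mem_range.1 hσ
    have hσ1 : (σ : ℝ) + 1 ≤ S := by exact_mod_cast hσ'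
    obtain ⟨a1, a2, a3, a4⟩ := (hcell σ (by omega) z).1 hz
    have b1 : 0 ≤ (σ : ℝ) * Z d := by positivity
    have b2 : ((σ : ℝ) + 1) * Z d ≤ S * Z d := mul_le_mul_of_nonneg_right hσ1 hZ0.le
    exact ⟨by linarith, by linarith, a3, a4⟩
  · intro σ hσ
    have hσ' := Finset.mem_range.1 hσ
    have h1 : {z : ℝ × ℝ | (z.1 - (c / t d + σ * Z d), z.2 - 0) ∈
        SP d (20 * d ^ 2 - σ * (d + 3))} =
        {z : ℝ × ℝ | c / t d + σ * Z d ≤ z.1 ∧ z.1 < c / t d + (σ + 1) * Z d ∧ 0 ≤ z.2 ∧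
          z.2 + t d * z.1 < c + (20 * d ^ 2 : ℕ) * s d} :=
      Set.ext fun z => hcell σ (by omega) z
    rw [h1]
    exact (T1W_meas _ _ _ _).nullMeasurableSet
  · intro i hi j hj hij
    refine Disjoint.aedisjoint ?_
    rw [Set.disjoint_left]
    intro z hzi hzj
    have hi' := Finset.mem_range.1 hi
    have hj' := Finset.mem_range.1 hj
    obtain ⟨a1, a2, _, _⟩ := (hcell i (by omega) z).1 hzi
    obtain ⟨b1, b2, _, _⟩ := (hcell j (by omega) z).1 hzj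
    apply hij
    have k1 : (i : ℝ) * Z d < (j + 1) * Z d := by linarith
    have k2 : (j : ℝ) * Z d < (i + 1) * Z d := by linarith
    have k1' := lt_of_mul_lt_mul_right k1 hZ0.le
    have k2' := lt_of_mul_lt_mul_right k2 hZ0.le
    have k1'' : i < j + 1 := by exact_mod_cast k1'
    have k2'' : j < i + 1 := by exact_mod_cast k2'
    omega
  · rintro z ⟨h1, h2, h3, h4⟩
    refine subset_closure ?_
    left
    rw [Set.mem_iUnion₂]
    have h5 : 0 ≤ (z.1 - c / t d) / Z d := div_nonneg (by linarith) hZ0.le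
    have h6 := Nat.floor_le h5
    have h7 := Nat.lt_floor_add_one ((z.1 - c / t d) / Z d)
    rw [le_div_iff₀ hZ0] at h6
    rw [div_lt_iff₀ hZ0] at h7
    have h8 : ⌊(z.1 - c / t d) / Z d⌋₊ < S := by
      rw [Nat.floor_lt h5, div_lt_iff₀ hZ0]
      linarith
    refine ⟨⌊(z.1 - c / t d) / Z d⌋₊, Finset.mem_range.2 h8, ?_⟩
    exact (hcell _ (by omega) z).2 ⟨by linarith, by linarith, h3, h4⟩
  · exact T1W_covs_empty
  · intro σ hσ
    have hσ' := Finset.mem_range.1 hσ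
    have h1 := hn σ (by omega)
    exact Wc_translate (SP_wc hd (by omega) (by omega)) (c / t d + σ * Z d, 0)

theorem T1_wc {d : ℕ} (hd : 100 ≤ d) {A c : ℝ} (hA : 4 * (d : ℝ) ^ 4 ≤ A)
    (hA' : A ≤ 9 * (d : ℝ) ^ 4) (hc : 0 ≤ c) (hc' : c < s d) :
    Wc (T1 d A c (20 * d ^ 2)) (7000 * (d : ℝ) ^ 3) := by
  have hD : (100 : ℝ) ≤ d := by exact_mod_cast hd
  obtain ⟨ht, ht2, ht1⟩ := t_bounds hd
  obtain ⟨hs1, hs2, _, _⟩ := s_bounds hd
  obtain ⟨_, _, hZ3, hZ4, hZ5⟩ := Z_bounds hd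
  have hD2 : 100 * (d : ℝ) ≤ (d : ℝ) ^ 2 := by nlinarith
  have hD3 : 100 * (d : ℝ) ^ 2 ≤ (d : ℝ) ^ 3 := by nlinarith [sq_nonneg (d : ℝ)]
  have hD4 : 100 * (d : ℝ) ^ 3 ≤ (d : ℝ) ^ 4 := by
    have : (0 : ℝ) ≤ (d : ℝ) ^ 3 := by positivity
    nlinarith
  have hZ0 : 0 < Z d := by
    have : (0 : ℝ) < (d : ℝ) ^ 3 := by positivity
    linarith
  have ht3 : t d ≤ 1 / 10000 := by
    refine ht2.trans ?_
    rw [div_le_div_iff₀ (by positivity) (by norm_num)]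
    nlinarith
  have hs3 : s d ≤ 11 / 10 := by nlinarith
  set V : ℝ := c / t d with hV
  have htV : t d * V = c := by rw [hV]; field_simp
  have hV0 : 0 ≤ V := div_nonneg hc ht.le
  have hV1 : V ≤ 2 * (d : ℝ) ^ 2 := by
    rw [hV, div_le_iff₀ ht]
    have h1 : t d * (d : ℝ) ^ 2 = 1 - 2 * t d := by linarith
    nlinarith
  set S : ℕ := ⌊(A - V) / Z d⌋₊ with hS
  have hAV : 0 ≤ (A - V) / Z d := div_nonneg (by nlinarith) hZ0.le
  have hS1 := Nat.floor_le hAV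
  have hS2 := Nat.lt_floor_add_one ((A - V) / Z d)
  rw [← hS] at hS1 hS2
  have hS3 : S ≤ 9 * d := by
    have h1 : (S : ℝ) ≤ 9 * d := by
      refine hS1.trans ?_
      rw [div_le_iff₀ hZ0]
      have h2 : 9 * (d : ℝ) * (d : ℝ) ^ 3 ≤ 9 * d * Z d := by gcongr
      nlinarith
    exact_mod_cast h1
  rw [le_div_iff₀ hZ0] at hS1
  rw [div_lt_iff₀ hZ0] at hS2
  set h : ℝ := c + (20 * d ^ 2 : ℕ) * s d with hh
  have hH : ((20 * d ^ 2 : ℕ) : ℝ) = 20 * (d : ℝ) ^ 2 := by push_cast; ring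
  have hh1 : 20 * (d : ℝ) ^ 2 ≤ h := by
    rw [hh, hH]
    nlinarith [sq_nonneg (d : ℝ)]
  have hh2 : h ≤ 22 * (d : ℝ) ^ 2 + 2 := by
    rw [hh, hH]
    nlinarith [sq_nonneg (d : ℝ)]
  have htA : t d * A ≤ h := by
    have h1 : t d * A ≤ 1 / (d : ℝ) ^ 2 * (9 * (d : ℝ) ^ 4) :=
      mul_le_mul ht2 hA' (by nlinarith) (by positivity)
    have h2 : 1 / (d : ℝ) ^ 2 * (9 * (d : ℝ) ^ 4) = 9 * (d : ℝ) ^ 2 := by
      field_simp
    nlinarith [sq_nonneg (d : ℝ)]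
  have p0 : Wc {z : ℝ × ℝ | 0 ≤ z.1 ∧ z.1 < V ∧ 0 ≤ z.2 ∧ z.2 + t d * z.1 < h}
      (2 * (V - 0) + h + 4) :=
    triv_wc hV0 le_rfl ht.le (by linarith) (by rw [htV]; nlinarith [sq_nonneg (d : ℝ)])
  have p1 := T1W_mid hd c S hS3
  have p2 : Wc {z : ℝ × ℝ | V + S * Z d ≤ z.1 ∧ z.1 < A ∧ 0 ≤ z.2 ∧ z.2 + t d * z.1 < h}
      (2 * (A - (V + S * Z d)) + h + 4) :=
    triv_wc (by linarith) (by positivity) ht.le (by linarith) htA
  let C : Fin 3 → Set (ℝ × ℝ) := ![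
    {z : ℝ × ℝ | 0 ≤ z.1 ∧ z.1 < V ∧ 0 ≤ z.2 ∧ z.2 + t d * z.1 < h},
    {z : ℝ × ℝ | V ≤ z.1 ∧ z.1 < V + S * Z d ∧ 0 ≤ z.2 ∧ z.2 + t d * z.1 < h},
    {z : ℝ × ℝ | V + S * Z d ≤ z.1 ∧ z.1 < A ∧ 0 ≤ z.2 ∧ z.2 + t d * z.1 < h}]
  let w : Fin 3 → ℝ := ![2 * (V - 0) + h + 4, 5400 * (d : ℝ) ^ 3,
    2 * (A - (V + S * Z d)) + h + 4]
  have hSZ : 0 ≤ (S : ℝ) * Z d := by positivity
  have key := Wc_union Finset.univ (T1 d A c (20 * d ^ 2)) ∅ C w 0 ?_ ?_ ?_ ?_ ?_ ?_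
  · refine Wc_mono key ?_
    rw [Fin.sum_univ_three]
    simp only [w, Matrix.cons_val_zero, Matrix.cons_val_one, Matrix.cons_val_two,
      Matrix.head_cons, Matrix.tail_cons, Matrix.cons_val, Nat.cast_zero]
    have hS2' : A - V - S * Z d < Z d := by linarith
    have hd0 : (1 : ℝ) ≤ (d : ℝ) ^ 2 := by nlinarith
    linarith
  · intro i _
    fin_cases i
    · rintro z ⟨h1, h2, h3, h4⟩
      exact ⟨h1, by nlinarith, h3, h4⟩
    · rintro z ⟨h1, h2, h3, h4⟩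
      exact ⟨by linarith, by linarith, h3, h4⟩
    · rintro z ⟨h1, h2, h3, h4⟩
      exact ⟨by linarith, h2, h3, h4⟩
  · intro i _
    fin_cases i
    · exact (T1W_meas _ _ _ _).nullMeasurableSet
    · exact (T1W_meas _ _ _ _).nullMeasurableSet
    · exact (T1W_meas _ _ _ _).nullMeasurableSet
  · intro i _ j _ hij
    refine Disjoint.aedisjoint ?_
    rw [Set.disjoint_left]
    intro z hzi hzj
    fin_cases i <;> fin_cases j
    · exact hij rfl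
    · exact absurd hzi.2.1 (not_lt.2 hzj.1)
    · exact absurd hzi.2.1 (not_lt.2 (by linarith [hzj.1]))
    · exact absurd hzj.2.1 (not_lt.2 hzi.1)
    · exact hij rfl
    · exact absurd hzi.2.1 (not_lt.2 hzj.1)
    · exact absurd hzj.2.1 (not_lt.2 (by linarith [hzi.1]))
    · exact absurd hzj.2.1 (not_lt.2 hzi.1)
    · exact hij rfl
  · rintro z ⟨h1, h2, h3, h4⟩
    refine subset_closure ?_
    left
    rw [Set.mem_iUnion₂]
    by_cases hz1 : z.1 < V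
    · exact ⟨0, Finset.mem_univ _, h1, hz1, h3, h4⟩
    · by_cases hz2 : z.1 < V + S * Z d
      · exact ⟨1, Finset.mem_univ _, not_lt.1 hz1, hz2, h3, h4⟩
      · exact ⟨2, Finset.mem_univ _, not_lt.1 hz2, h2, h3, h4⟩
  · exact T1W_covs_empty
  · intro i _
    fin_cases i
    · exact p0
    · exact p1
    · exact p2

end H282R5.PD
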