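import Pool.Agent.H282R5.PD.Frame
import Pool.Agent.H282R5.PD.T1W
import Pool.Agent.H282R5.PD.RowW
import Pool.Agent.H282R4.PU.Par

namespace H282R5.PD

open MeasureTheory
open scoped ENNReal
open H282R3.SQ (USq)
open H282R4.PU (ax al t s tau kap eps phi Z SP Row T1 t_bounds s_bounds)

/-- the pieces -/
def RectBig_C (d : ℕ) (A X c : ℝ) (H : ℕ) : ℕ → Set (ℝ × ℝ)
  | 0 => T1 d A 0 H
  | 1 => {z | (A - z.1, X - z.2) ∈ T1 d A c H}
  | n + 2 => {z : ℝ × ℝ | 0 ≤ z.1 ∧ z.1 < A ∧ z ∈ Row d (n + H)}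

/-- their wastes -/
noncomputable def RectBig_w (d : ℕ) : ℕ → ℝ
  | 0 => 7000 * (d : ℝ) ^ 3
  | 1 => 7000 * (d : ℝ) ^ 3
  | _ + 2 => 4 / (d : ℝ) ^ 2

theorem RectBig_null (a : ℝ) : volume {z : ℝ × ℝ | z.1 = a} = 0 := by
  have h : {z : ℝ × ℝ | z.1 = a} = {a} ×ˢ Set.univ := by
    ext z; simp
  rw [h, Measure.volume_eq_prod, Measure.prod_prod, Real.volume_singleton, zero_mul]

theorem RectBig_null2 (T c : ℝ) : volume {z : ℝ × ℝ | z.2 + T * z.1 = c} = 0 := by
  rw [Measure.volume_eq_prod, Measure.measure_prod_null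
    (measurableSet_eq_fun (by fun_prop) measurable_const)]
  refine Filter.Eventually.of_forall (fun x => ?_)
  show volume (Prod.mk x ⁻¹' {z : ℝ × ℝ | z.2 + T * z.1 = c}) = 0
  have h : Prod.mk x ⁻¹' {z : ℝ × ℝ | z.2 + T * z.1 = c} = {c - T * x} := by
    ext y
    simp only [Set.mem_preimage, Set.mem_ofPred_eq, Set.mem_singleton_iff]
    constructor
    · intro h; linarith
    · intro h; linarith
  rw [h, Real.volume_singleton]

theorem RectBig_sum (d k : ℕ) : ∑ i ∈ Finset.range (k + 2), RectBig_w d i =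
    k * (4 / (d : ℝ) ^ 2) + 14000 * (d : ℝ) ^ 3 := by
  rw [Finset.sum_range_succ', Finset.sum_range_succ']
  simp only [RectBig_w, Finset.sum_const, Finset.card_range, nsmul_eq_mul]
  ring

theorem RectBig_measT1 (d : ℕ) (A c : ℝ) (H : ℕ) : MeasurableSet (T1 d A c H) := by
  show MeasurableSet ({z : ℝ × ℝ | 0 ≤ z.1} ∩ ({z : ℝ × ℝ | z.1 < A} ∩ ({z : ℝ × ℝ | 0 ≤ z.2} ∩
    {z : ℝ × ℝ | z.2 + t d * z.1 < c + H * s d})))
  refine (measurableSet_le measurable_const measurable_fst).inter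
    ((measurableSet_lt measurable_fst measurable_const).inter
      ((measurableSet_le measurable_const measurable_snd).inter
        (measurableSet_lt (by fun_prop) measurable_const)))

theorem RectBig_meas (d : ℕ) (A X c : ℝ) (H i : ℕ) : MeasurableSet (RectBig_C d A X c H i) := by
  rcases i with _ | _ | n
  · exact RectBig_measT1 d A 0 H
  · have h : Measurable (fun z : ℝ × ℝ => (A - z.1, X - z.2)) := by fun_prop
    exact h (RectBig_measT1 d A c H)
  · show MeasurableSet ({z : ℝ × ℝ | 0 ≤ z.1} ∩ ({z : ℝ × ℝ | z.1 < A} ∩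
      ({z : ℝ × ℝ | ((n + H : ℕ) : ℝ) * s d ≤ z.2 + t d * z.1} ∩
      {z : ℝ × ℝ | z.2 + t d * z.1 < (((n + H : ℕ) : ℝ) + 1) * s d})))
    exact (measurableSet_le measurable_const measurable_fst).inter
      ((measurableSet_lt measurable_fst measurable_const).inter
        ((measurableSet_le measurable_const (by fun_prop)).inter
          (measurableSet_lt (by fun_prop) measurable_const)))

theorem rect_big {d M : ℕ} (hd : 100 ≤ d) {A X : ℝ} (hA : 4 * (d : ℝ) ^ 4 ≤ A)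
    (hA' : A ≤ 9 * (d : ℝ) ^ 4) (h1 : A * s d + t d ≤ M)
    (h2 : M ≤ A * s d + t d + 1 / (d : ℝ) ^ 2) (hX : 60 * (d : ℝ) ^ 2 ≤ X) :
    Wc (Set.Icc 0 A ×ˢ Set.Icc 0 X)
      (14000 * (d : ℝ) ^ 3 + (X + 20 * (d : ℝ) ^ 2) * (4 / (d : ℝ) ^ 2)) := by
  obtain ⟨ht0, ht1, ht2⟩ := t_bounds hd
  obtain ⟨hs1, hs2, hs3, hs4⟩ := s_bounds hd
  have hdR : (100 : ℝ) ≤ d := by exact_mod_cast hd
  have hd0 : (0 : ℝ) < d := by linarith
  have hA0 : 0 < A := by
    have : 0 < 4 * (d : ℝ) ^ 4 := by positivity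
    linarith
  set T := t d with hT
  set σ := s d with hσ
  have hσ0 : 0 < σ := by linarith
  have hd2 : (10000 : ℝ) ≤ (d : ℝ) ^ 2 := by nlinarith
  have hTA : T * A ≤ 9 * (d : ℝ) ^ 2 := by
    calc T * A ≤ (1 / (d : ℝ) ^ 2) * (9 * (d : ℝ) ^ 4) :=
          mul_le_mul ht1 hA' hA0.le (by positivity)
      _ = 9 * (d : ℝ) ^ 2 := by field_simp
  have hTA0 : 0 ≤ T * A := by positivity
  have hT1 : T ≤ 1 / 10 := by
    have : 1 / (d : ℝ) ^ 2 ≤ 1 / 10 := by
      apply one_div_le_one_div_of_le (by norm_num)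
      linarith
    linarith
  have hσ2 : σ ≤ 11 / 10 := by nlinarith
  set H : ℕ := 20 * d ^ 2 with hH
  have hHR : (H : ℝ) = 20 * (d : ℝ) ^ 2 := by rw [hH]; push_cast; ring
  set N : ℕ := ⌊(X + T * A) / σ⌋₊ with hN
  have hXT : 0 ≤ X + T * A := by nlinarith
  have hN1 : (N : ℝ) * σ ≤ X + T * A := by
    have := Nat.floor_le (div_nonneg hXT hσ0.le)
    rw [← hN, le_div_iff₀ hσ0] at this
    exact this
  have hN2 : X + T * A < (N + 1) * σ := by
    have := Nat.lt_floor_add_one ((X + T * A) / σ)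
    rw [← hN, div_lt_iff₀ hσ0] at this
    exact this
  have hN3 : 2 * H ≤ N := by
    rw [hN]
    apply Nat.le_floor
    rw [le_div_iff₀ hσ0]
    push_cast
    rw [hHR]
    nlinarith
  obtain ⟨R2, hR2⟩ : ∃ R2, N = R2 + H := ⟨N - H, by omega⟩
  obtain ⟨k, hk⟩ : ∃ k, R2 = k + H := ⟨R2 - H, by omega⟩
  have hR2R : (N : ℝ) = R2 + H := by rw [hR2]; push_cast; ring
  have hkR : (R2 : ℝ) = k + H := by rw [hk]; push_cast; ring
  set c : ℝ := X + T * A - (R2 + H) * σ with hc
  have hc0 : 0 ≤ c := by rw [hc]; rw [hR2R] at hN1; linarith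
  have hc1 : c < σ := by rw [hc]; rw [hR2R] at hN2; linarith
  have hk0 : (0 : ℝ) ≤ k := Nat.cast_nonneg _
  have hkX : (k : ℝ) ≤ X + 20 * (d : ℝ) ^ 2 := by
    have h3 : (k : ℝ) + 2 * H ≤ ((k : ℝ) + 2 * H) * σ := by
      apply le_mul_of_one_le_right _ hs1.le
      positivity
    have h4 : ((k : ℝ) + 2 * H) * σ ≤ X + T * A := by
      have : (N : ℝ) = k + 2 * H := by rw [hR2R, hkR]; ring
      rw [← this]; exact hN1
    linarith
  have hHσ : 20 * (d : ℝ) ^ 2 ≤ H * σ := by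
    rw [← hHR]
    exact le_mul_of_one_le_right (by positivity) hs1.le
  have hHσ2 : H * σ ≤ 22 * (d : ℝ) ^ 2 := by rw [hHR]; nlinarith
  have hR2σ : (H : ℝ) * σ ≤ R2 * σ := by
    apply mul_le_mul_of_nonneg_right _ hσ0.le
    rw [hkR]; linarith
  have hR2X : (R2 : ℝ) * σ = X + T * A - c - H * σ := by rw [hc]; ring
  -- membership
  have hm0 : ∀ z : ℝ × ℝ, z ∈ RectBig_C d A X c H 0 ↔
      0 ≤ z.1 ∧ z.1 < A ∧ 0 ≤ z.2 ∧ z.2 + T * z.1 < H * σ := by
    intro z
    simp only [RectBig_C, T1, Set.mem_ofPred_eq, zero_add]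
    rfl
  have hm1 : ∀ z : ℝ × ℝ, z ∈ RectBig_C d A X c H 1 ↔
      0 < z.1 ∧ z.1 ≤ A ∧ z.2 ≤ X ∧ R2 * σ < z.2 + T * z.1 := by
    intro z
    simp only [RectBig_C, T1, Set.mem_ofPred_eq]
    rw [← hT, ← hσ, hR2X]
    constructor
    · rintro ⟨a1, a2, a3, a4⟩
      refine ⟨by linarith, by linarith, by linarith, by nlinarith⟩
    · rintro ⟨a1, a2, a3, a4⟩
      refine ⟨by linarith, by linarith, by linarith, by nlinarith⟩
  have hm2 : ∀ (n : ℕ) (z : ℝ × ℝ), z ∈ RectBig_C d A X c H (n + 2) ↔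
      0 ≤ z.1 ∧ z.1 < A ∧ (n + H) * σ ≤ z.2 + T * z.1 ∧ z.2 + T * z.1 < (n + H + 1) * σ := by
    intro n z
    simp only [RectBig_C, Row, Set.mem_ofPred_eq]
    push_cast
    rfl
  set E : Set (ℝ × ℝ) := ({z | z.1 = A} ∪ {z | z.1 = 0}) ∪ {z | z.2 + T * z.1 = R2 * σ} with hE
  have hE0 : volume E = 0 := by
    rw [hE]
    exact measure_union_null (measure_union_null (RectBig_null A) (RectBig_null 0))
      (RectBig_null2 T _)
  have hcovE : Covs (∅ : Set (ℝ × ℝ)) 0 := ⟨Fin.elim0, Set.empty_subset _⟩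
  have hX0 : 0 < X := by
    have : 0 < 60 * (d : ℝ) ^ 2 := by positivity
    linarith
  have key := Wc_union (Finset.range (k + 2)) (Set.Icc 0 A ×ˢ Set.Icc 0 X) ∅
    (RectBig_C d A X c H) (RectBig_w d) 0 ?_
    (fun i _ => (RectBig_meas d A X c H i).nullMeasurableSet) ?_ ?_ hcovE ?_
  · apply Wc_mono key
    rw [RectBig_sum, Nat.cast_zero, add_zero]
    have : (k : ℝ) * (4 / (d : ℝ) ^ 2) ≤ (X + 20 * (d : ℝ) ^ 2) * (4 / (d : ℝ) ^ 2) :=
      mul_le_mul_of_nonneg_right hkX (by positivity)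
    linarith
  · -- subset
    intro i hi z hz
    rw [Set.mem_prod, Set.mem_Icc, Set.mem_Icc]
    rcases i with _ | _ | n
    · rw [hm0] at hz
      obtain ⟨a1, a2, a3, a4⟩ := hz
      have : 0 ≤ T * z.1 := by positivity
      exact ⟨⟨a1, a2.le⟩, a3, by nlinarith⟩
    · rw [hm1] at hz
      obtain ⟨a1, a2, a3, a4⟩ := hz
      have : T * z.1 ≤ T * A := mul_le_mul_of_nonneg_left a2 ht0.le
      exact ⟨⟨a1.le, a2⟩, by nlinarith, a3⟩
    · rw [hm2] at hz
      obtain ⟨a1, a2, a3, a4⟩ := hz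
      rw [Finset.mem_range] at hi
      have hn : (n : ℝ) + 1 ≤ k := by
        have : n + 1 ≤ k := by omega
        exact_mod_cast this
      have h5 : T * z.1 ≤ T * A := mul_le_mul_of_nonneg_left a2.le ht0.le
      have h6 : 0 ≤ T * z.1 := by positivity
      have h7 : (n : ℝ) * σ ≥ 0 := by positivity
      have h8 : ((n : ℝ) + H + 1) * σ ≤ R2 * σ := by
        apply mul_le_mul_of_nonneg_right _ hσ0.le
        rw [hkR]; linarith
      refine ⟨⟨a1, a2.le⟩, ?_, ?_⟩
      · nlinarith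
      · linarith
  · -- disjointness
    have hd01 : Disjoint (RectBig_C d A X c H 0) (RectBig_C d A X c H 1) := by
      rw [Set.disjoint_left]
      intro z hz hz'
      rw [hm0] at hz
      rw [hm1] at hz'
      linarith [hz.2.2.2, hz'.2.2.2]
    have hd0n : ∀ n, Disjoint (RectBig_C d A X c H 0) (RectBig_C d A X c H (n + 2)) := by
      intro n
      rw [Set.disjoint_left]
      intro z hz hz'
      rw [hm0] at hz
      rw [hm2] at hz'
      have h7 : (n : ℝ) * σ ≥ 0 := by positivity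
      nlinarith [hz.2.2.2, hz'.2.2.1]
    have hd1n : ∀ n, n < k → Disjoint (RectBig_C d A X c H 1) (RectBig_C d A X c H (n + 2)) := by
      intro n hn
      have hn' : (n : ℝ) + 1 ≤ k := by exact_mod_cast hn
      rw [Set.disjoint_left]
      intro z hz hz'
      rw [hm1] at hz
      rw [hm2] at hz'
      have h8 : ((n : ℝ) + H + 1) * σ ≤ R2 * σ := by
        apply mul_le_mul_of_nonneg_right _ hσ0.le
        rw [hkR]; linarith
      linarith [hz.2.2.2, hz'.2.2.2]
    have hdnn : ∀ n m, n < m →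
        Disjoint (RectBig_C d A X c H (n + 2)) (RectBig_C d A X c H (m + 2)) := by
      intro n m hnm
      have hn' : (n : ℝ) + 1 ≤ m := by exact_mod_cast hnm
      rw [Set.disjoint_left]
      intro z hz hz'
      rw [hm2] at hz
      rw [hm2] at hz'
      have h8 : ((n : ℝ) + H + 1) * σ ≤ (m + H) * σ := by
        apply mul_le_mul_of_nonneg_right _ hσ0.le
        linarith
      linarith [hz.2.2.2, hz'.2.2.1]
    intro i hi j hj hij
    rw [Finset.mem_range] at hi hj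
    refine Disjoint.aedisjoint ?_
    rcases i with _ | _ | n <;> rcases j with _ | _ | m
    · exact absurd rfl hij
    · exact hd01
    · exact hd0n m
    · exact hd01.symm
    · exact absurd rfl hij
    · exact hd1n m (by omega)
    · exact (hd0n n).symm
    · exact (hd1n n (by omega)).symm
    · rcases Nat.lt_or_ge n m with h | h
      · exact hdnn n m h
      · exact (hdnn m n (by omega)).symm
  · -- cover
    have hdense : Dense (Eᶜ : Set (ℝ × ℝ)) := by
      have h : ∀ᵐ z : ℝ × ℝ, z ∈ Eᶜ := by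
        rw [ae_iff]
        simpa using hE0
      exact Measure.dense_of_ae h
    have hsubU : (Set.Ioo 0 A ×ˢ Set.Ioo 0 X) ∩ Eᶜ ⊆
        (⋃ i ∈ Finset.range (k + 2), RectBig_C d A X c H i) ∪ ∅ := by
      rintro z ⟨hz, hzE⟩
      rw [Set.mem_prod, Set.mem_Ioo, Set.mem_Ioo] at hz
      obtain ⟨⟨hz0, hzA⟩, a3, a4⟩ := hz
      left
      rcases lt_or_ge (z.2 + T * z.1) (H * σ) with hF | hF
      · rw [Set.mem_iUnion₂]
        exact ⟨0, Finset.mem_range.2 (by omega), (hm0 z).2 ⟨hz0.le, hzA, a3.le, hF⟩⟩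
      rcases lt_trichotomy (z.2 + T * z.1) (R2 * σ) with hG | hG | hG
      · rw [Set.mem_iUnion₂]
        have hF0 : 0 ≤ (z.2 + T * z.1) / σ := by
          have : 0 ≤ T * z.1 := by positivity
          positivity
        set R := ⌊(z.2 + T * z.1) / σ⌋₊ with hR
        have hR1 : (R : ℝ) * σ ≤ z.2 + T * z.1 := by
          have := Nat.floor_le hF0
          rw [← hR, le_div_iff₀ hσ0] at this
          exact this
        have hR3 : z.2 + T * z.1 < (R + 1) * σ := by
          have := Nat.lt_floor_add_one ((z.2 + T * z.1) / σ)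
          rw [← hR, div_lt_iff₀ hσ0] at this
          exact this
        have hRH : H ≤ R := by
          rw [hR]
          apply Nat.le_floor
          rw [le_div_iff₀ hσ0]
          exact hF
        have hRR : R < R2 := by
          have h9 : (R : ℝ) * σ < R2 * σ := lt_of_le_of_lt hR1 hG
          have h10 : (R : ℝ) < R2 := lt_of_mul_lt_mul_right h9 hσ0.le
          exact_mod_cast h10
        obtain ⟨n, hn⟩ : ∃ n, R = n + H := ⟨R - H, by omega⟩
        have hnR : (R : ℝ) = n + H := by rw [hn]; push_cast; ring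
        refine ⟨n + 2, Finset.mem_range.2 (by omega), (hm2 n z).2 ⟨hz0.le, hzA, ?_, ?_⟩⟩
        · rw [← hnR]; exact hR1
        · rw [← hnR]; exact hR3
      · exact absurd (Or.inr hG) hzE
      · rw [Set.mem_iUnion₂]
        exact ⟨1, Finset.mem_range.2 (by omega), (hm1 z).2 ⟨hz0, hzA.le, a4.le, hG⟩⟩
    have hclo : Set.Icc 0 A ×ˢ Set.Icc 0 X = closure (Set.Ioo 0 A ×ˢ Set.Ioo 0 X) := by
      rw [closure_prod_eq, closure_Ioo hA0.ne, closure_Ioo hX0.ne]
    rw [hclo]
    refine closure_minimal ?_ isClosed_closure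
    refine (Dense.open_subset_closure_inter hdense (isOpen_Ioo.prod isOpen_Ioo)).trans ?_
    exact closure_mono hsubU
  · -- wastes
    intro i hi
    rcases i with _ | _ | n
    · exact T1_wc hd hA hA' le_rfl hσ0
    · exact Wc_rot (T1_wc hd hA hA' hc0 hc1) (A, X)
    · exact row_wc hd hA0.le h1 h2

end H282R5.PD
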