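import Pool.Agent.H282R5.PD.Defs
import Pool.Agent.H282R5.PD.Frame
import Pool.Agent.H282R5.PD.RectBig
import Pool.Agent.H282R5.PD.ChooseA
import Pool.Agent.H282R5.PD.RectW

namespace H282R5.PD

open MeasureTheory
open scoped ENNReal
open H282R3.SQ (USq)
open H282R4.PU (ax al t s tau kap eps phi Z SP Row T1)

private theorem Square_null1 (c : ℝ) : volume {z : ℝ × ℝ | z.1 = c} = 0 := by
  have h : {z : ℝ × ℝ | z.1 = c} = ({c} : Set ℝ) ×ˢ (Set.univ : Set ℝ) := by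
    ext ⟨z1, z2⟩
    simp
  rw [h, Measure.volume_eq_prod, Measure.prod_prod, Real.volume_singleton, zero_mul]

private theorem Square_null2 (c : ℝ) : volume {z : ℝ × ℝ | z.2 = c} = 0 := by
  have h : {z : ℝ × ℝ | z.2 = c} = (Set.univ : Set ℝ) ×ˢ ({c} : Set ℝ) := by
    ext ⟨z1, z2⟩
    simp
  rw [h, Measure.volume_eq_prod, Measure.prod_prod, Real.volume_singleton, mul_zero]

private theorem Square_ae1 {U V : Set (ℝ × ℝ)} (c : ℝ) (h : ∀ z ∈ U, z ∈ V → z.1 = c) :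
    AEDisjoint volume U V :=
  measure_mono_null (fun z hz => h z hz.1 hz.2) (Square_null1 c)

private theorem Square_ae2 {U V : Set (ℝ × ℝ)} (c : ℝ) (h : ∀ z ∈ U, z ∈ V → z.2 = c) :
    AEDisjoint volume U V :=
  measure_mono_null (fun z hz => h z hz.1 hz.2) (Square_null2 c)

private theorem Square_empty : Covs ∅ 0 := ⟨fun i => i.elim0, Set.empty_subset _⟩

private theorem Square_nm (a b c e : ℝ) :
    NullMeasurableSet (Set.Icc a b ×ˢ Set.Icc c e : Set (ℝ × ℝ)) :=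
  (measurableSet_Icc.prod measurableSet_Icc).nullMeasurableSet

private theorem Square_grid (N : ℕ) (hN : 1 ≤ N) :
    Wc (Set.Icc (0 : ℝ) N ×ˢ Set.Icc (0 : ℝ) N) 0 := by
  have h := Wc_union (Finset.range N) (Set.Icc (0 : ℝ) N ×ˢ Set.Icc (0 : ℝ) N) ∅
    (fun j : ℕ => Set.Icc (j : ℝ) (j + 1) ×ˢ Set.Icc (0 : ℝ) N) (fun _ => 0) 0 ?_ ?_ ?_ ?_
    Square_empty ?_
  · simpa using h
  · rintro j hj ⟨z1, z2⟩ ⟨h1, h2⟩
    have hj' : (j : ℝ) + 1 ≤ N := by exact_mod_cast Finset.mem_range.1 hj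
    have hj0 : (0 : ℝ) ≤ j := Nat.cast_nonneg j
    simp only [Set.mem_Icc] at h1
    exact ⟨⟨by linarith [h1.1], by linarith [h1.2]⟩, h2⟩
  · intro j _
    exact Square_nm _ _ _ _
  · intro i _ j _ hij
    rcases lt_or_gt_of_ne hij with hlt | hlt
    · have e : (i : ℝ) + 1 ≤ j := by exact_mod_cast hlt
      refine Square_ae1 (j : ℝ) ?_
      rintro ⟨z1, z2⟩ ⟨⟨-, h1⟩, -⟩ ⟨⟨h2, -⟩, -⟩
      simp only at h1 h2
      show z1 = (j : ℝ)
      linarith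
    · have e : (j : ℝ) + 1 ≤ i := by exact_mod_cast hlt
      refine Square_ae1 (i : ℝ) ?_
      rintro ⟨z1, z2⟩ ⟨⟨h1, -⟩, -⟩ ⟨⟨-, h2⟩, -⟩
      simp only at h1 h2
      show z1 = (i : ℝ)
      linarith
  · refine Set.Subset.trans ?_ subset_closure
    rintro ⟨z1, z2⟩ ⟨h1, h2⟩
    left
    simp only [Set.mem_Icc] at h1
    rw [Set.mem_iUnion₂]
    have hN0 : (0 : ℝ) < N := by exact_mod_cast hN
    rcases lt_or_ge z1 N with h3 | h3
    · refine ⟨⌊z1⌋₊, Finset.mem_range.2 ((Nat.floor_lt h1.1).2 h3), ⟨?_, ?_⟩, h2⟩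
      · exact Nat.floor_le h1.1
      · exact (Nat.lt_floor_add_one z1).le
    · refine ⟨N - 1, Finset.mem_range.2 (by omega), ⟨?_, ?_⟩, h2⟩
      · show ((N - 1 : ℕ) : ℝ) ≤ z1
        rw [Nat.cast_sub hN]
        push_cast
        linarith
      · show z1 ≤ ((N - 1 : ℕ) : ℝ) + 1
        rw [Nat.cast_sub hN]
        push_cast
        linarith
  · intro j _
    refine rect_wc 1 0 j 0 N 0 N 0 N _ (by norm_num) ?_ ?_ (by linarith) ?_ (by linarith) le_rfl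
    · intro z h1 h2 h3 h4
      simp only [ax, al] at h1 h2 h3 h4
      refine ⟨⟨?_, ?_⟩, ⟨?_, ?_⟩⟩ <;> linarith
    · rintro z ⟨⟨h1, h2⟩, ⟨h3, h4⟩⟩
      simp only [ax, al]
      refine ⟨?_, ?_, ?_, ?_⟩ <;> linarith
    · intro h0
      omega

private theorem Square_shift {p q : ℝ} {w : ℝ} (h : Wc (Set.Icc 0 p ×ˢ Set.Icc 0 q) w)
    (a b : ℝ) : Wc (Set.Icc a (a + p) ×ˢ Set.Icc b (b + q)) w := by
  have h1 := Wc_translate h (a, b)
  have h2 : {z : ℝ × ℝ | (z.1 - (a, b).1, z.2 - (a, b).2) ∈ Set.Icc 0 p ×ˢ Set.Icc 0 q} =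
      Set.Icc a (a + p) ×ˢ Set.Icc b (b + q) := by
    ext ⟨z1, z2⟩
    simp only [Set.mem_setOf_eq, Set.mem_prod, Set.mem_Icc]
    constructor
    · rintro ⟨⟨h1, h2⟩, h3, h4⟩
      exact ⟨⟨by linarith, by linarith⟩, by linarith, by linarith⟩
    · rintro ⟨⟨h1, h2⟩, h3, h4⟩
      exact ⟨⟨by linarith, by linarith⟩, by linarith, by linarith⟩
  rwa [h2] at h1

private theorem Square_swap {p q : ℝ} {w : ℝ} (h : Wc (Set.Icc 0 p ×ˢ Set.Icc 0 q) w) :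
    Wc (Set.Icc 0 q ×ˢ Set.Icc 0 p) w := by
  have h1 := Wc_swap h
  have h2 : {z : ℝ × ℝ | (z.2, z.1) ∈ Set.Icc 0 p ×ˢ Set.Icc 0 q} =
      Set.Icc 0 q ×ˢ Set.Icc 0 p := by
    ext ⟨z1, z2⟩
    simp only [Set.mem_setOf_eq, Set.mem_prod]
    exact and_comm
  rwa [h2] at h1

private theorem Square_three {x A N w0 w1 w2 : ℝ} (hA : 0 < A) (hN : 0 < N) (hx : A + N = x)
    (h0 : Wc (Set.Icc 0 A ×ˢ Set.Icc 0 x) w0)
    (h1 : Wc (Set.Icc A (A + N) ×ˢ Set.Icc 0 A) w1)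
    (h2 : Wc (Set.Icc A (A + N) ×ˢ Set.Icc A (A + N)) w2) :
    Wc (Set.Icc 0 x ×ˢ Set.Icc 0 x) (w0 + w1 + w2) := by
  have h := Wc_union (Finset.univ : Finset (Fin 3)) (Set.Icc 0 x ×ˢ Set.Icc 0 x) ∅
    ![Set.Icc 0 A ×ˢ Set.Icc 0 x, Set.Icc A (A + N) ×ˢ Set.Icc 0 A,
      Set.Icc A (A + N) ×ˢ Set.Icc A (A + N)] ![w0, w1, w2] 0 ?_ ?_ ?_ ?_ Square_empty ?_
  · rw [Fin.sum_univ_three] at h
    simpa using h
  · intro i _
    fin_cases i
    · rintro ⟨z1, z2⟩ ⟨⟨e1, e2⟩, ⟨e3, e4⟩⟩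
      exact ⟨⟨e1, by simp only at e2; linarith⟩, ⟨e3, e4⟩⟩
    · rintro ⟨z1, z2⟩ ⟨⟨e1, e2⟩, ⟨e3, e4⟩⟩
      simp only at e1 e2 e3 e4
      exact ⟨⟨by linarith, by linarith⟩, ⟨by linarith, by linarith⟩⟩
    · rintro ⟨z1, z2⟩ ⟨⟨e1, e2⟩, ⟨e3, e4⟩⟩
      simp only at e1 e2 e3 e4
      exact ⟨⟨by linarith, by linarith⟩, ⟨by linarith, by linarith⟩⟩
  · intro i _
    fin_cases i
    · exact Square_nm _ _ _ _
    · exact Square_nm _ _ _ _
    · exact Square_nm _ _ _ _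
  · intro i _ j _ hij
    have k01 : AEDisjoint volume (Set.Icc 0 A ×ˢ Set.Icc 0 x : Set (ℝ × ℝ))
        (Set.Icc A (A + N) ×ˢ Set.Icc 0 A : Set (ℝ × ℝ)) := by
      refine Square_ae1 A ?_
      rintro ⟨z1, z2⟩ ⟨⟨e1, e2⟩, ⟨e3, e4⟩⟩ ⟨⟨f1, f2⟩, ⟨f3, f4⟩⟩
      simp only at *
      linarith
    have k02 : AEDisjoint volume (Set.Icc 0 A ×ˢ Set.Icc 0 x : Set (ℝ × ℝ))
        (Set.Icc A (A + N) ×ˢ Set.Icc A (A + N) : Set (ℝ × ℝ)) := by
      refine Square_ae1 A ?_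
      rintro ⟨z1, z2⟩ ⟨⟨e1, e2⟩, ⟨e3, e4⟩⟩ ⟨⟨f1, f2⟩, ⟨f3, f4⟩⟩
      simp only at *
      linarith
    have k12 : AEDisjoint volume (Set.Icc A (A + N) ×ˢ Set.Icc 0 A : Set (ℝ × ℝ))
        (Set.Icc A (A + N) ×ˢ Set.Icc A (A + N) : Set (ℝ × ℝ)) := by
      refine Square_ae2 A ?_
      rintro ⟨z1, z2⟩ ⟨⟨e1, e2⟩, ⟨e3, e4⟩⟩ ⟨⟨f1, f2⟩, ⟨f3, f4⟩⟩
      simp only at *
      linarith
    fin_cases i <;> fin_cases j
    · exact absurd rfl hij
    · exact k01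
    · exact k02
    · exact k01.symm
    · exact absurd rfl hij
    · exact k12
    · exact k02.symm
    · exact k12.symm
    · exact absurd rfl hij
  · refine Set.Subset.trans ?_ subset_closure
    rintro ⟨z1, z2⟩ ⟨⟨e1, e2⟩, ⟨e3, e4⟩⟩
    simp only at e1 e2 e3 e4
    left
    rw [Set.mem_iUnion₂]
    rcases le_total z1 A with f1 | f1
    · exact ⟨0, Finset.mem_univ _, ⟨e1, f1⟩, ⟨e3, e4⟩⟩
    · rcases le_total z2 A with f2 | f2
      · exact ⟨1, Finset.mem_univ _, ⟨f1, by simp only; linarith⟩, ⟨e3, f2⟩⟩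
      · exact ⟨2, Finset.mem_univ _, ⟨f1, by simp only; linarith⟩, ⟨f2, by simp only; linarith⟩⟩
  · intro i _
    fin_cases i
    · exact h0
    · exact h1
    · exact h2

private theorem Square_vol {x : ℝ} (hx : 0 ≤ x) :
    volume (Set.Icc 0 x ×ˢ Set.Icc 0 x : Set (ℝ × ℝ)) = ENNReal.ofReal (x * x) := by
  rw [Measure.volume_eq_prod, Measure.prod_prod, Real.volume_Icc, sub_zero,
    ← ENNReal.ofReal_mul hx]

/-- the square of side `n + ε` can be covered with waste `O(n^(3/5))` -/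
theorem square_wc : ∃ C : ℝ, 0 < C ∧ ∀ n : ℕ, 1 ≤ n → ∀ ε : ℝ, 0 < ε → ε < 1 →
    Wc (Set.Icc 0 (n + ε) ×ˢ Set.Icc 0 (n + ε)) (C * (n : ℝ) ^ ((3 : ℝ) / 5)) := by
  refine ⟨3 * (101 : ℝ) ^ 5, by positivity, fun n hn1 ε hε0 hε1 => ?_⟩
  have hn : (1 : ℝ) ≤ n := by exact_mod_cast hn1
  have hn0 : (0 : ℝ) < n := by linarith
  have hx35 : 1 ≤ (n : ℝ) ^ ((3 : ℝ) / 5) := Real.one_le_rpow hn (by norm_num)
  rcases lt_or_ge (n : ℝ) ((101 : ℝ) ^ 5) with hK | hK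
  · -- small `n`
    obtain ⟨-, m, hc, hm⟩ := Square_grid (n + 1) (by omega)
    have hcast : ((n + 1 : ℕ) : ℝ) = (n : ℝ) + 1 := by push_cast; ring
    rw [hcast] at hc hm
    have hC : 0 ≤ 3 * (101 : ℝ) ^ 5 * (n : ℝ) ^ ((3 : ℝ) / 5) := by positivity
    refine ⟨hC, m, Covs_mono hc ?_, ?_⟩
    · rintro ⟨z1, z2⟩ ⟨⟨e1, e2⟩, ⟨e3, e4⟩⟩
      simp only at e1 e2 e3 e4
      exact ⟨⟨e1, by simp only; linarith⟩, ⟨e3, by simp only; linarith⟩⟩
    · rw [Square_vol (by linarith), ENNReal.ofReal_zero, add_zero] at hm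
      rw [Square_vol (by linarith), ← ENNReal.ofReal_add (by positivity) hC]
      refine hm.trans (ENNReal.ofReal_le_ofReal ?_)
      have h1 : 3 * (n : ℝ) ≤ 3 * (101 : ℝ) ^ 5 * (n : ℝ) ^ ((3 : ℝ) / 5) := by
        calc 3 * (n : ℝ) ≤ 3 * (101 : ℝ) ^ 5 * 1 := by linarith
          _ ≤ _ := mul_le_mul_of_nonneg_left hx35 (by positivity)
      nlinarith
  · -- large `n`
    set y : ℝ := (n : ℝ) ^ ((1 : ℝ) / 5) with hy
    have hy0 : 0 < y := Real.rpow_pos_of_pos hn0 _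
    have hy5 : y ^ 5 = n := by
      rw [hy, ← Real.rpow_natCast, ← Real.rpow_mul hn0.le]
      norm_num
    have hy3 : y ^ 3 = (n : ℝ) ^ ((3 : ℝ) / 5) := by
      rw [hy, ← Real.rpow_natCast, ← Real.rpow_mul hn0.le]
      norm_num
    have hy101 : 101 ≤ y := by
      by_contra hcon
      push Not at hcon
      have h1 : y ^ 5 < 101 ^ 5 := pow_lt_pow_left₀ hcon hy0.le (by norm_num)
      rw [hy5] at h1
      linarith
    set d : ℕ := ⌊y⌋₊ with hd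
    have hdy : (d : ℝ) ≤ y := Nat.floor_le hy0.le
    have hdy' : y < d + 1 := Nat.lt_floor_add_one y
    have hd100 : 100 ≤ d := by
      have h2 : (100 : ℝ) < ((d + 1 : ℕ) : ℝ) := by push_cast; linarith
      have h3 : 100 < d + 1 := by exact_mod_cast h2
      omega
    have hdR : (100 : ℝ) ≤ d := by exact_mod_cast hd100
    have hd0 : (0 : ℝ) < d := by linarith
    have hd5 : (d : ℝ) ^ 5 ≤ n := by
      rw [← hy5]
      exact pow_le_pow_left₀ hd0.le hdy 5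
    have hd4 : 0 < (d : ℝ) ^ 4 := by positivity
    have hd45 : 100 * (d : ℝ) ^ 4 ≤ (d : ℝ) ^ 5 := by
      have : (d : ℝ) ^ 5 = d * (d : ℝ) ^ 4 := by ring
      rw [this]
      exact mul_le_mul_of_nonneg_right hdR hd4.le
    have hd24 : 10000 * (d : ℝ) ^ 2 ≤ (d : ℝ) ^ 4 := by
      have h1 : (d : ℝ) ^ 4 = (d : ℝ) ^ 2 * (d : ℝ) ^ 2 := by ring
      rw [h1]
      have h2 : (10000 : ℝ) ≤ (d : ℝ) ^ 2 := by nlinarith
      exact mul_le_mul_of_nonneg_right h2 (by positivity)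
    obtain ⟨N, M, -, hA1, hA2, hM1, hM2⟩ := choose_A hd100 (n := n) (by linarith) hε0 hε1
    set x : ℝ := (n : ℝ) + ε with hx
    set A : ℝ := x - N with hA
    have hN60 : 60 * (d : ℝ) ^ 2 ≤ N := by
      have h1 : (N : ℝ) = x - A := by rw [hA]; ring
      rw [h1]
      nlinarith
    have hA0 : 0 < A := by nlinarith
    have hN0 : (0 : ℝ) < N := by nlinarith [pow_pos hd0 2]
    have hN1 : 1 ≤ N := by
      have : 0 < N := by exact_mod_cast hN0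
      omega
    have r0 := rect_big hd100 hA1 hA2 hM1 hM2 (X := x) (by nlinarith)
    have r1 := rect_big hd100 hA1 hA2 hM1 hM2 (X := N) hN60
    have r1' := Square_shift (Square_swap r1) A 0
    rw [zero_add] at r1'
    have r2 := Square_shift (Square_grid N hN1) A A
    have h3 := Square_three hA0 hN0 (by rw [hA]; ring) r0 r1' r2
    refine Wc_mono h3 ?_
    -- numerics
    have hNx : (N : ℝ) ≤ x := by rw [hA] at hA0; linarith
    have hx2 : x ≤ 2 * n := by rw [hx]; linarith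
    have hd3 : (d : ℝ) ^ 3 ≤ (n : ℝ) ^ ((3 : ℝ) / 5) := by
      rw [← hy3]
      exact pow_le_pow_left₀ hd0.le hdy 3
    have hxd : x / (d : ℝ) ^ 2 ≤ 8 * (n : ℝ) ^ ((3 : ℝ) / 5) := by
      rw [div_le_iff₀ (by positivity), ← hy3]
      have h4 : y ≤ 2 * d := by linarith
      have h5 : y ^ 2 ≤ (2 * d) ^ 2 := pow_le_pow_left₀ hy0.le h4 2
      calc x ≤ 2 * n := hx2
        _ = 2 * (y ^ 3 * y ^ 2) := by rw [← hy5]; ring
        _ ≤ 2 * (y ^ 3 * (2 * d) ^ 2) :=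
            mul_le_mul_of_nonneg_left (mul_le_mul_of_nonneg_left h5 (by positivity)) (by norm_num)
        _ = 8 * y ^ 3 * (d : ℝ) ^ 2 := by ring
    have h6 : (x + 20 * (d : ℝ) ^ 2) * (4 / (d : ℝ) ^ 2) = 4 * (x / (d : ℝ) ^ 2) + 80 := by
      field_simp
      ring
    have h7 : ((N : ℝ) + 20 * (d : ℝ) ^ 2) * (4 / (d : ℝ) ^ 2) ≤ 4 * (x / (d : ℝ) ^ 2) + 80 := by
      rw [← h6]
      exact mul_le_mul_of_nonneg_right (by linarith) (by positivity)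
    rw [h6, add_zero]
    have h8 : (28224 : ℝ) ≤ 3 * (101 : ℝ) ^ 5 := by norm_num
    calc _ ≤ 28000 * (n : ℝ) ^ ((3 : ℝ) / 5) + 8 * (8 * (n : ℝ) ^ ((3 : ℝ) / 5)) +
          160 * (n : ℝ) ^ ((3 : ℝ) / 5) := by linarith
      _ = 28224 * (n : ℝ) ^ ((3 : ℝ) / 5) := by ring
      _ ≤ _ := mul_le_mul_of_nonneg_right h8 (by linarith)

end H282R5.PD
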