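import Pool.Agent.H282R5.PD.Defs
import Pool.Agent.H282R3.SQ.Defs
import Pool.Agent.H282R5.PD.Square

/-! Module Upper of project PD: from coverings by closed squares to `P(n)` (helper642, after
PU/Upper). -/

namespace H282R5.PD

open MeasureTheory
open scoped ENNReal
open H282R3.SQ (USq)
open H282R4.PU (ax al t s tau kap eps phi Z SP Row T1)

/-- the rigid motion carrying `[0,1]²` to the square `Q` -/
noncomputable def Upper_iso (Q : USq) : H282R3.SQ.Plane ≃ᵢ H282R3.SQ.Plane :=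
  IsometryEquiv.mk'
    (fun y => !₂[Q.p + Q.a * (y 0 - 1 / 2) - Q.b * (y 1 - 1 / 2),
      Q.q + Q.b * (y 0 - 1 / 2) + Q.a * (y 1 - 1 / 2)])
    (fun z => !₂[1 / 2 + Q.a * (z 0 - Q.p) + Q.b * (z 1 - Q.q),
      1 / 2 - Q.b * (z 0 - Q.p) + Q.a * (z 1 - Q.q)])
    (by
      intro z
      have h := Q.unit
      ext i
      fin_cases i
      · simp
        linear_combination (z 0 - Q.p) * h
      · simp
        linear_combination (z 1 - Q.q) * h)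
    (by
      apply Isometry.of_dist_eq
      intro y z
      have h := Q.unit
      rw [EuclideanSpace.dist_eq, EuclideanSpace.dist_eq, Fin.sum_univ_two, Fin.sum_univ_two]
      congr 1
      simp only [Real.dist_eq, sq_abs]
      simp
      linear_combination ((y 0 - z 0) ^ 2 + (y 1 - z 1) ^ 2) * h)

theorem Upper_isUnitSquare (Q : USq) :
    H282R3.SQ.IsUnitSquare {y : H282R3.SQ.Plane | (y 0, y 1) ∈ Q.C} := by
  refine ⟨Upper_iso Q, ?_⟩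
  ext z
  constructor
  · intro hz
    refine ⟨(Upper_iso Q).symm z, ?_, (Upper_iso Q).apply_symm_apply z⟩
    have hX : Q.X (z 0, z 1) = Q.a * (z 0 - Q.p) + Q.b * (z 1 - Q.q) := rfl
    have hY : Q.Y (z 0, z 1) = -Q.b * (z 0 - Q.p) + Q.a * (z 1 - Q.q) := rfl
    obtain ⟨h1, h2⟩ := hz
    rw [abs_le, hX] at h1
    rw [abs_le, hY] at h2
    intro i
    fin_cases i
    · change 0 ≤ 1 / 2 + Q.a * (z 0 - Q.p) + Q.b * (z 1 - Q.q) ∧
        1 / 2 + Q.a * (z 0 - Q.p) + Q.b * (z 1 - Q.q) ≤ 1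
      constructor <;> linarith
    · change 0 ≤ 1 / 2 - Q.b * (z 0 - Q.p) + Q.a * (z 1 - Q.q) ∧
        1 / 2 - Q.b * (z 0 - Q.p) + Q.a * (z 1 - Q.q) ≤ 1
      constructor <;> linarith
  · rintro ⟨y, hy, rfl⟩
    have h0 : (Upper_iso Q y) 0 = Q.p + Q.a * (y 0 - 1 / 2) - Q.b * (y 1 - 1 / 2) := rfl
    have h1 : (Upper_iso Q y) 1 = Q.q + Q.b * (y 0 - 1 / 2) + Q.a * (y 1 - 1 / 2) := rfl
    have hu := Q.unit
    have e0 := hy 0
    have e1 := hy 1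
    have hX : Q.X ((Upper_iso Q y) 0, (Upper_iso Q y) 1) = y 0 - 1 / 2 := by
      change Q.a * ((Upper_iso Q y) 0 - Q.p) + Q.b * ((Upper_iso Q y) 1 - Q.q) = _
      rw [h0, h1]
      linear_combination (y 0 - 1 / 2) * hu
    have hY : Q.Y ((Upper_iso Q y) 0, (Upper_iso Q y) 1) = y 1 - 1 / 2 := by
      change -Q.b * ((Upper_iso Q y) 0 - Q.p) + Q.a * ((Upper_iso Q y) 1 - Q.q) = _
      rw [h0, h1]
      linear_combination (y 1 - 1 / 2) * hu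
    constructor
    · rw [hX, abs_le]
      constructor <;> linarith [e0.1, e0.2]
    · rw [hY, abs_le]
      constructor <;> linarith [e1.1, e1.2]

theorem canCover_of_Covs {x : ℝ} {m : ℕ} (h : Covs (Set.Icc 0 x ×ˢ Set.Icc 0 x) m) :
    H282R3.SQ.CanCover x m := by
  obtain ⟨Q, hQ⟩ := h
  refine ⟨fun i => {y | (y 0, y 1) ∈ (Q i).C}, fun i => Upper_isUnitSquare (Q i), ?_⟩
  intro y hy
  have h1 : ((y 0, y 1) : ℝ × ℝ) ∈ Set.Icc 0 x ×ˢ Set.Icc 0 x :=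
    ⟨⟨(hy 0).1, (hy 0).2⟩, ⟨(hy 1).1, (hy 1).2⟩⟩
  obtain ⟨i, hi⟩ := Set.mem_iUnion.1 (hQ h1)
  exact Set.mem_iUnion.2 ⟨i, hi⟩

theorem P_le_of_CanCover {n : ℕ} {ε : ℝ} {m : ℕ} (hε : 0 < ε)
    (h : H282R3.SQ.CanCover (n + ε) m) : H282R3.SQ.P n ≤ m := by
  have h1 : H282R3.SQ.Nc (n + ε) ≤ m := Nat.sInf_le h
  have h2 : H282R3.SQ.P n ≤ H282R3.SQ.Nc (n + ε) := Nat.sInf_le ⟨ε, hε, rfl⟩
  exact h2.trans h1

/-- the upper bound for `P(n)` -/
theorem P_upper : ∃ C : ℝ, 0 < C ∧ ∀ n : ℕ, 1 ≤ n →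
    (H282R3.SQ.P n : ℝ) - (n : ℝ) ^ 2 ≤ C * (n : ℝ) ^ ((3 : ℝ) / 5) := by
  obtain ⟨C, hC, hW⟩ := square_wc
  refine ⟨C + 3, by linarith, fun n hn => ?_⟩
  have hn' : (1 : ℝ) ≤ n := by exact_mod_cast hn
  have hε0 : (0 : ℝ) < 1 / (n + 1) := by positivity
  have hε1 : (1 : ℝ) / (n + 1) < 1 := by
    rw [div_lt_one (by positivity)]
    linarith
  obtain ⟨hw, m, hcov, hvol⟩ := hW n hn (1 / (n + 1)) hε0 hε1
  have hP : (H282R3.SQ.P n : ℝ) ≤ m := by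
    exact_mod_cast P_le_of_CanCover hε0 (canCover_of_Covs hcov)
  have hx : (0 : ℝ) ≤ n + 1 / (n + 1) := by positivity
  have hm : (m : ℝ) ≤ (n + 1 / (n + 1)) * (n + 1 / (n + 1)) + C * (n : ℝ) ^ ((3 : ℝ) / 5) := by
    rw [Measure.volume_eq_prod, Measure.prod_prod, Real.volume_Icc, sub_zero,
      ← ENNReal.ofReal_mul hx, ← ENNReal.ofReal_add (mul_nonneg hx hx) hw,
      ← ENNReal.ofReal_natCast] at hvol
    exact (ENNReal.ofReal_le_ofReal_iff (add_nonneg (mul_nonneg hx hx) hw)).1 hvol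
  have h1 : ((n : ℝ) + 1 / (n + 1)) * (n + 1 / (n + 1)) ≤ (n : ℝ) ^ 2 + 3 := by
    have h2 : (n : ℝ) * (1 / (n + 1)) ≤ 1 := by
      rw [mul_one_div, div_le_one (by positivity)]
      linarith
    have h3 : (1 : ℝ) / (n + 1) * (1 / (n + 1)) ≤ 1 := by nlinarith
    nlinarith
  have h4 : (1 : ℝ) ≤ (n : ℝ) ^ ((3 : ℝ) / 5) := Real.one_le_rpow hn' (by norm_num)
  nlinarith

end H282R5.PD
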